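import Pool.Agent.H19PG.Main

/-!
# The main theorem with weaker hypotheses (helper file)
-/

set_option linter.unusedSectionVars false

open Module Submodule

namespace H19PG

variable {α : Type*} [Finite α]

lemma Small.of_con {ρ : RF α} {D R X : Set α} (h : Small (ρ.con D) R X) : Small ρ R X := by
  rw [Small] at h ⊢
  by_contra hcon
  push Not at hcon
  have h1 := ρ.con_add D (R ∩ X)
  have h2 := ρ.con_add D R
  have h3 := ρ.submod (X := R) (Y := (R ∩ X) ∪ D) (U := R ∪ D) (I := R ∩ X)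
    (by intro x; simp only [Set.mem_union]; tauto) Set.inter_subset_left Set.subset_union_left
  omega

/-- No separation of order less than `t` separates the two geometries. -/
def Agree (ρ : RF α) (C₁ C₂ R₁ R₂ : Set α) (t : ℕ) : Prop :=
  ∀ X, Small (ρ.con C₂) R₂ X → Small (ρ.con C₁) R₁ Xᶜ →
    t + ρ.r Set.univ ≤ ρ.r X + ρ.r Xᶜ

/-- the first constant -/
def fA (k q₂ : ℕ) : ℕ := fF k (q₂ ^ n₀ k)

/-- the second constant -/
def cA (k q₁ q₂ : ℕ) : ℕ := cB k (q₁ ^ fA k q₂)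

/-- the order of the separations -/
def tA (k q₁ q₂ : ℕ) : ℕ := fA k q₂ + cA k q₁ q₂

/-- the rank of the second geometry -/
def mA (k q₁ q₂ : ℕ) : ℕ :=
  cA k q₁ q₂ + (2 * fA k q₂ + 1) + (nB k (fA k q₂) (q₂ ^ n₀ k) * n₀ k + fA k q₂)

/-- the rank of the first geometry -/
def rA (k c q₁ q₂ : ℕ) : ℕ := nB k c (q₁ ^ fA k q₂) * fA k q₂ + tA k q₁ q₂

variable {K₁ K₂ : Type*} [Field K₁] [Field K₂] [Fintype K₁] [Fintype K₂]
variable {V₁ : Type*} [AddCommGroup V₁] [Module K₁ V₁] [FiniteDimensional K₁ V₁]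
variable {V₂ : Type*} [AddCommGroup V₂] [Module K₂ V₂] [FiniteDimensional K₂ V₂]

/-- The main theorem, for a part of the first geometry that is nearly a restriction. -/
theorem main_agree {p : ℕ} (hp2 : (p : K₂) = 0) (hp1 : (p : K₁) ≠ 0) (k c : ℕ)
    (ρ : RF α) (C₁ C₂ : Set α) (φ₁ : V₁ → α) (φ₂ : V₂ → α)
    (h₁ : LMap K₁ (ρ.con C₁) φ₁) (h₂ : LMap K₂ (ρ.con C₂) φ₂)
    (h0 : ρ.r {φ₂ 0} = 0) (W : Submodule K₁ V₁)
    (hW1 : rA k c (Fintype.card K₁) (Fintype.card K₂) ≤ (ρ.con C₁).r (φ₁ '' W))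
    (hW2 : ρ.r (φ₁ '' W) ≤ (ρ.con C₁).r (φ₁ '' W) + c)
    (hm : mA k (Fintype.card K₁) (Fintype.card K₂) ≤ (ρ.con C₂).r (Set.range φ₂))
    (hag : Agree ρ C₁ C₂ (Set.range φ₁) (Set.range φ₂)
      (tA k (Fintype.card K₁) (Fintype.card K₂))) : ρ.HasU k := by
  by_contra hU
  set q₁ := Fintype.card K₁ with hq₁
  set q₂ := Fintype.card K₂ with hq₂
  rw [mA] at hm
  rw [rA, tA] at hW1
  rw [tA] at hag
  set c₁ := cA k q₁ q₂ with hc₁
  set f := fA k q₂ with hf
  set u := q₂ ^ n₀ k with hu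
  have hff : fF k u = f := rfl
  have hcc : cB k (q₁ ^ f) = c₁ := rfl
  have hu' : Fintype.card (Fin (n₀ k) → K₂) = u := by simp [hu, hq₂]
  have hu₁' : Fintype.card (Fin f → K₁) = q₁ ^ f := by simp [hq₁]
  have hrange : Set.range (fun w : W => φ₁ (W.subtype w)) = φ₁ '' W := by
    ext x; constructor
    · rintro ⟨w, rfl⟩; exact ⟨w, w.2, rfl⟩
    · rintro ⟨w, hw, rfl⟩; exact ⟨⟨w, hw⟩, rfl⟩
  obtain ⟨Q, j, hQ1, hQ2, hQ3, hQ4⟩ := first_block (c := c) (f := f) hU
    (h₁.comp W.subtype) rfl (by rw [hrange]; exact hW2)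
    (by rw [hu₁', hrange]; omega)
  rw [hu₁', hcc] at hQ2
  rw [hrange] at hQ1
  set τ := ρ.con Q with hτ
  set ν := τ.con C₂ with hν
  have hUτ : ¬ τ.HasU k := fun hh => hU hh.of_con
  have hCQ₁ : (ρ.con C₁).con Q = τ.con C₁ := by
    rw [hτ, RF.con_con, RF.con_con, Set.union_comm]
  have hCQ₂ : (ρ.con C₂).con Q = ν := by
    rw [hν, hτ, RF.con_con, RF.con_con, Set.union_comm]
  have h₁' : LMap K₁ (τ.con C₁) φ₁ := by rw [← hCQ₁]; exact h₁.con Q
  have h₂' : LMap K₂ ν φ₂ := by rw [← hCQ₂]; exact h₂.con Q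
  have hx1 : (Set.range fun u => φ₁ (W.subtype (j u))) ⊆ Set.range φ₁ := by
    rintro _ ⟨u, rfl⟩; exact ⟨_, rfl⟩
  have hQρ : ∀ (C X : Set α), (ρ.con C).r X ≤ ((ρ.con C).con Q).r X + c₁ := by
    intro C X
    have g1 := (ρ.con C).le_con_add Q X
    have g2 := ρ.con_le C Q
    omega
  -- small sets that contain the block have large connectivity
  have hkey : ∀ A, Small ν (Set.range φ₂) A →
      (Set.range fun u => φ₁ (W.subtype (j u))) ⊆ A →
      f + τ.r Set.univ ≤ τ.r A + τ.r Aᶜ := by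
    intro A hA1 hA2
    by_contra hcon
    push Not at hcon
    have m1 := τ.minor_conn A C₁ (Set.range φ₁)
    have b1 := h₁'.bipart ⊤ A
    rw [Submodule.top_coe, Set.image_univ] at b1
    have x1le : f ≤ (τ.con C₁).r (Set.range φ₁ ∩ A) := by
      rw [← hQ4]
      exact (τ.con C₁).mono (Set.subset_inter hx1 hA2)
    have a1 : (τ.con C₁).r (Set.range φ₁ \ A) < f := by
      rcases b1 with b1 | b1 <;> omega
    have s1 : Small (ρ.con C₁) (Set.range φ₁) Aᶜ := by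
      rw [Small]
      have e1 : Set.range φ₁ ∩ Aᶜ = Set.range φ₁ \ A := rfl
      rw [e1]
      have g1 := hQρ C₁ (Set.range φ₁ \ A)
      rw [hCQ₁] at g1
      have g2 := (ρ.con C₁).mono (Set.image_subset_range φ₁ W)
      omega
    have s2 : Small (ρ.con C₂) (Set.range φ₂) A := by
      rw [← hCQ₂] at hA1
      exact hA1.of_con
    have hA' := hag A s2 s1
    have r3 := ρ.le_con_add Q A
    have r4 := ρ.le_con_add Q Aᶜ
    have r5 := ρ.con_add Q Set.univ
    rw [Set.univ_union] at r5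
    rw [← hτ] at r3 r4 r5
    omega
  -- the rank of the second geometry
  have hνr : (ρ.con C₂).r (Set.range φ₂) ≤ ν.r (Set.range φ₂) + c₁ := by
    have g1 := hQρ C₂ (Set.range φ₂)
    rwa [hCQ₂] at g1
  -- a free subspace
  obtain ⟨D, hD1, hD2⟩ := exists_free (K := K₁) τ (φ := fun u => φ₁ (W.subtype (j u)))
    (Small ν (Set.range φ₂)) (fun A B h1 h2 => h1.mono h2) f (by
      intro A B hA hB hA' hB'
      have hsm : ∀ A, Small ν (Set.range φ₂) A → τ.r A + τ.r Aᶜ ≤ f + τ.r Set.univ →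
          ν.r (Set.range φ₂ ∩ A) ≤ f := by
        intro A hA hA'
        have m2 := τ.minor_conn A C₂ (Set.range φ₂)
        have b2 := r_diff_of_small h₂' hA
        rw [← hν] at m2
        omega
      have g1 := hsm A hA hA'
      have g2 := hsm B hB hB'
      rw [Small, Set.inter_union_distrib_left]
      have g3 := ν.union_le (Set.range φ₂ ∩ A) (Set.range φ₂ ∩ B)
      omega) hkey
  refine hUτ (final hp2 hp1 k u hu' hQ3 h₂' ?_ D hD1 hD2 ?_ ?_)
  · have := ρ.con_le Q {φ₂ 0}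
    rw [← hτ] at this
    omega
  · rw [hff, ← hν]; omega
  · rw [hff, ← hν]; omega

end H19PG
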