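import Pool.Agent.H19PG.Agree

/-!
# The main theorem with weaker hypotheses, part 2 (helper file)
-/

set_option linter.unusedSectionVars false

open Module Submodule

namespace H19PG

variable {α : Type*} [Finite α]
variable {K₁ K₂ : Type*} [Field K₁] [Field K₂] [Fintype K₁] [Fintype K₂]
variable {V₁ : Type*} [AddCommGroup V₁] [Module K₁ V₁] [FiniteDimensional K₁ V₁]
variable {V₂ : Type*} [AddCommGroup V₂] [Module K₂ V₂] [FiniteDimensional K₂ V₂]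

lemma r_inter_lt {ρ : RF α} {C : Set α} {φ : V₂ → α} (h : LMap K₂ (ρ.con C) φ) {A : Set α}
    {t : ℕ} (hA : Small (ρ.con C) (Set.range φ) A)
    (hlt : ρ.r A + ρ.r Aᶜ ≤ t + ρ.r Set.univ) :
    (ρ.con C).r (Set.range φ ∩ A) ≤ t := by
  have m2 := ρ.minor_conn A C (Set.range φ)
  have b2 := r_diff_of_small h hA
  omega

/-- Interconnected geometries are not separated. -/
lemma agree_of_interconnected {ρ : RF α} {C₁ C₂ : Set α} {φ₁ : V₁ → α} {φ₂ : V₂ → α}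
    (h₁ : LMap K₁ (ρ.con C₁) φ₁) (h₂ : LMap K₂ (ρ.con C₂) φ₂)
    (hr1 : (ρ.con C₁).r (Set.range φ₁) = finrank K₁ V₁)
    (hr2 : (ρ.con C₂).r (Set.range φ₂) = finrank K₂ V₂) {n t : ℕ}
    (hn : t + Fintype.card K₁ ^ t + Fintype.card K₂ ^ t ≤ n)
    (hE : Disjoint (φ₁ '' {v | v ≠ 0}) (φ₂ '' {v | v ≠ 0}))
    (hint : ∀ X, φ₁ '' {v | v ≠ 0} ⊆ X → Disjoint X (φ₂ '' {v | v ≠ 0}) →
      n + ρ.r Set.univ ≤ ρ.r X + ρ.r Xᶜ) :
    Agree ρ C₁ C₂ (Set.range φ₁) (Set.range φ₂) t := by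
  intro A s2 s1
  by_contra hcon
  push Not at hcon
  set q₁ := Fintype.card K₁ with hq₁
  set q₂ := Fintype.card K₂ with hq₂
  set E₁ := φ₁ '' {v | v ≠ 0} with hE₁
  set E₂ := φ₂ '' {v | v ≠ 0} with hE₂
  have hE₁r : E₁ ⊆ Set.range φ₁ := Set.image_subset_range _ _
  have hE₂r : E₂ ⊆ Set.range φ₂ := Set.image_subset_range _ _
  have a1 := r_inter_lt h₁ s1 (t := t) (by rw [compl_compl]; omega)
  have a2 := r_inter_lt h₂ s2 (t := t) (by omega)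
  have c1 : (E₁ \ A).ncard ≤ q₁ ^ t :=
    h₁.ncard_le hr1 (Set.sdiff_subset.trans hE₁r)
      (((ρ.con C₁).mono (Set.inter_subset_inter_left Aᶜ hE₁r)).trans a1)
  have c2 : (E₂ ∩ A).ncard ≤ q₂ ^ t :=
    h₂.ncard_le hr2 (Set.inter_subset_left.trans hE₂r)
      (((ρ.con C₂).mono (Set.inter_subset_inter_left A hE₂r)).trans a2)
  have hA' := hint ((A ∪ E₁) \ E₂)
    (fun x hx => ⟨Or.inr hx, fun hx2 => Set.disjoint_left.1 hE hx hx2⟩)
    Set.disjoint_sdiff_left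
  have r1 : ρ.r ((A ∪ E₁) \ E₂) ≤ ρ.r A + (E₁ \ A).ncard := by
    have g1 := ρ.mono (X := (A ∪ E₁) \ E₂) (Y := A ∪ (E₁ \ A))
      (by intro x; simp only [Set.mem_union, Set.mem_sdiff]; tauto)
    have g2 := ρ.union_le A (E₁ \ A)
    have g3 := ρ.r_le_ncard (E₁ \ A)
    omega
  have r2 : ρ.r ((A ∪ E₁) \ E₂)ᶜ ≤ ρ.r Aᶜ + (E₂ ∩ A).ncard := by
    have g1 := ρ.mono (X := ((A ∪ E₁) \ E₂)ᶜ) (Y := Aᶜ ∪ (E₂ ∩ A))
      (by intro x; simp only [Set.mem_union, Set.mem_sdiff, Set.mem_compl_iff,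
        Set.mem_inter_iff]; tauto)
    have g2 := ρ.union_le Aᶜ (E₂ ∩ A)
    have g3 := ρ.r_le_ncard (E₂ ∩ A)
    omega
  omega

/-- The largest separation of order `t`, on the side of the second geometry. -/
lemma exists_largest_tight {σ : RF α} {C₁ C₂ : Set α} {φ₁ : V₁ → α} {φ₂ : V₂ → α}
    (h₁ : LMap K₁ (σ.con C₁) φ₁) (h₂ : LMap K₂ (σ.con C₂) φ₂) {t : ℕ}
    (hr1 : 2 * t < (σ.con C₁).r (Set.range φ₁))
    (hr2 : 2 * t < (σ.con C₂).r (Set.range φ₂))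
    (hag : Agree σ C₁ C₂ (Set.range φ₁) (Set.range φ₂) t)
    (B₀ : Set α) (h0 : Small (σ.con C₁) (Set.range φ₁) B₀)
    (h0' : Small (σ.con C₂) (Set.range φ₂) B₀ᶜ)
    (h0t : σ.r B₀ + σ.r B₀ᶜ ≤ t + σ.r Set.univ) :
    ∃ B, Small (σ.con C₁) (Set.range φ₁) B ∧ Small (σ.con C₂) (Set.range φ₂) Bᶜ ∧
      σ.r B + σ.r Bᶜ ≤ t + σ.r Set.univ ∧
      ∀ B', Small (σ.con C₁) (Set.range φ₁) B' → Small (σ.con C₂) (Set.range φ₂) B'ᶜ →
        σ.r B' + σ.r B'ᶜ ≤ t + σ.r Set.univ → B' ⊆ B := by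
  classical
  let P : Set (Set α) := {B | Small (σ.con C₁) (Set.range φ₁) B ∧
    Small (σ.con C₂) (Set.range φ₂) Bᶜ ∧ σ.r B + σ.r Bᶜ ≤ t + σ.r Set.univ}
  obtain ⟨B, hB, hmax⟩ := Set.exists_max_image P (fun A => A.ncard) (Set.toFinite P)
    ⟨B₀, h0, h0', h0t⟩
  refine ⟨B, hB.1, hB.2.1, hB.2.2, ?_⟩
  intro B' h1 h2 h3
  obtain ⟨g1, g2, g3⟩ := hB
  have u1 := σ.sub' B B'
  have u2 := σ.sub' Bᶜ B'ᶜ
  rw [← Set.compl_inter, ← Set.compl_union] at u2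
  have s1 : Small (σ.con C₁) (Set.range φ₁) (B ∪ B') := by
    rw [Small, Set.inter_union_distrib_left]
    have e1 := r_inter_lt h₁ g1 g3
    have e2 := r_inter_lt h₁ h1 h3
    have e3 := (σ.con C₁).union_le (Set.range φ₁ ∩ B) (Set.range φ₁ ∩ B')
    omega
  have s2 : Small (σ.con C₂) (Set.range φ₂) (B ∩ B')ᶜ := by
    rw [Small, Set.compl_inter, Set.inter_union_distrib_left]
    have e1 := r_inter_lt h₂ g2 (t := t) (by rw [compl_compl]; omega)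
    have e2 := r_inter_lt h₂ h2 (t := t) (by rw [compl_compl]; omega)
    have e3 := (σ.con C₂).union_le (Set.range φ₂ ∩ Bᶜ) (Set.range φ₂ ∩ B'ᶜ)
    omega
  have hI := hag (B ∩ B')ᶜ s2 (by rw [compl_compl]; exact g1.mono Set.inter_subset_left)
  rw [compl_compl] at hI
  have hmem : B ∪ B' ∈ P := by
    refine ⟨s1, g2.mono ?_, ?_⟩
    · rw [Set.compl_union]; exact Set.inter_subset_left
    · omega
  have hcard := hmax _ hmem
  have heq : B = B ∪ B' :=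
    Set.eq_of_subset_of_ncard_le Set.subset_union_left hcard (Set.toFinite _)
  rw [heq]; exact Set.subset_union_right

end H19PG
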