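import Pool.Agent.H19PG.RF

/-!
# Linear maps into matroids (helper file)

`LMap F ρ φ` says that `φ : V → α` is a linear map from the vector space `V` to the matroid with
rank function `ρ`: `φ 0` is a loop and `φ (a • v + b • w)` lies in the closure of `φ v, φ w`.
A restriction that is a projective geometry is the same as a linear map of full rank.
-/

set_option linter.unusedSectionVars false

open Module Submodule

namespace H19PG

variable {α : Type*}

/-- linear maps from a vector space to a matroid -/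
structure LMap (F : Type*) [Field F] {V : Type*} [AddCommGroup V] [Module F V]
    (ρ : RF α) (φ : V → α) : Prop where
  zero : ρ.r {φ 0} = 0
  lin : ∀ (a b : F) (v w : V), φ (a • v + b • w) ∈ ρ.cl {φ v, φ w}

namespace LMap

variable {F : Type*} [Field F] {V : Type*} [AddCommGroup V] [Module F V]
variable {W : Type*} [AddCommGroup W] [Module F W]
variable {ρ : RF α} {φ : V → α}

lemma con (h : LMap F ρ φ) (C : Set α) : LMap F (ρ.con C) φ where
  zero := by
    have := ρ.con_le C {φ 0}
    have := h.zero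
    omega
  lin a b v w := ρ.cl_subset_con_cl C _ (h.lin a b v w)

lemma comp (h : LMap F ρ φ) (j : W →ₗ[F] V) : LMap F ρ (fun w => φ (j w)) where
  zero := by simpa using h.zero
  lin a b v w := by
    have := h.lin a b (j v) (j w)
    simpa using this

lemma smul_mem (h : LMap F ρ φ) (a : F) (v : V) : φ (a • v) ∈ ρ.cl {φ v} := by
  have := h.lin a 0 v v
  simpa using this

lemma add_mem (h : LMap F ρ φ) (v w : V) : φ (v + w) ∈ ρ.cl {φ v, φ w} := by
  have := h.lin 1 1 v w
  simpa using this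

section fin
variable [Finite α]

lemma zero_mem (h : LMap F ρ φ) (X : Set α) : φ 0 ∈ ρ.cl X := by
  have h1 : φ 0 ∈ ρ.cl ∅ := by
    rw [RF.mem_cl, ρ.empty']
    simpa using h.zero
  exact ρ.cl_mono (Set.empty_subset _) h1

lemma mem_cl_of_mem_span (h : LMap F ρ φ) {S : Set V} {X : Set α} (hS : ∀ s ∈ S, φ s ∈ ρ.cl X)
    {v : V} (hv : v ∈ span F S) : φ v ∈ ρ.cl X := by
  induction hv using Submodule.span_induction with
  | mem x hx => exact hS x hx
  | zero => exact h.zero_mem X
  | add x y _ _ hx hy =>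
    refine ρ.cl_cl ?_ (h.add_mem x y)
    rintro z (rfl | hz)
    · exact hx
    · rw [Set.mem_singleton_iff] at hz; rw [hz]; exact hy
  | smul a x _ hx =>
    refine ρ.cl_cl ?_ (h.smul_mem a x)
    rintro z hz
    rw [Set.mem_singleton_iff] at hz; rw [hz]; exact hx

lemma span_subset_cl (h : LMap F ρ φ) (S : Set V) :
    φ '' (span F S : Set V) ⊆ ρ.cl (φ '' S) := by
  rintro _ ⟨v, hv, rfl⟩
  exact h.mem_cl_of_mem_span (fun s hs => ρ.subset_cl _ (Set.mem_image_of_mem φ hs)) hv

lemma r_span (h : LMap F ρ φ) (S : Set V) :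
    ρ.r (φ '' (span F S : Set V)) = ρ.r (φ '' S) := by
  apply le_antisymm
  · exact ρ.r_le_of_subset_cl (h.span_subset_cl S)
  · exact ρ.mono (Set.image_mono subset_span)

lemma sup_subset_cl (h : LMap F ρ φ) (P Q : Submodule F V) :
    φ '' ((P ⊔ Q : Submodule F V) : Set V) ⊆ ρ.cl (φ '' P ∪ φ '' Q) := by
  rintro _ ⟨v, hv, rfl⟩
  obtain ⟨p, hp, q, hq, rfl⟩ := Submodule.mem_sup.1 hv
  refine ρ.cl_mono ?_ (h.add_mem p q)
  rintro z (rfl | hz)
  · exact Or.inl ⟨p, hp, rfl⟩
  · rw [Set.mem_singleton_iff] at hz; rw [hz]; exact Or.inr ⟨q, hq, rfl⟩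

lemma r_sup_le (h : LMap F ρ φ) (P Q : Submodule F V) :
    ρ.r (φ '' ((P ⊔ Q : Submodule F V) : Set V)) ≤ ρ.r (φ '' P) + ρ.r (φ '' Q) :=
  (ρ.r_le_of_subset_cl (h.sup_subset_cl P Q)).trans (ρ.union_le _ _)

variable [FiniteDimensional F V]

lemma r_le_finrank (h : LMap F ρ φ) (P : Submodule F V) : ρ.r (φ '' P) ≤ finrank F P := by
  obtain ⟨s, hs1, hs2⟩ : ∃ s : Set V, span F s = P ∧ s.encard ≤ finrank F P := by
    let b := Module.finBasis F P
    refine ⟨Set.range (fun i => (b i : V)), ?_, ?_⟩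
    · have h1 := b.span_eq
      have h2 : (fun i => (b i : V)) = P.subtype ∘ b := rfl
      rw [h2, Set.range_comp, Submodule.span_image, h1, Submodule.map_subtype_top]
    · rw [← Set.image_univ]
      refine (Set.encard_image_le _ _).trans ?_
      simp
  rw [← hs1, h.r_span]
  have hfin : s.Finite := Set.finite_of_encard_le_coe hs2
  have h3 : s.ncard ≤ finrank F P := by
    have := hfin.cast_ncard_eq
    rw [← this] at hs2
    exact_mod_cast hs2
  have h4 := ρ.r_le_ncard (φ '' s)
  have h5 := Set.ncard_image_le (f := φ) hfin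
  rw [hs1]
  omega

/-- full rank is inherited by subspaces -/
lemma full_mono (h : LMap F ρ φ) {P Q : Submodule F V} (hQ : ρ.r (φ '' Q) = finrank F Q)
    (hPQ : P ≤ Q) : ρ.r (φ '' P) = finrank F P := by
  obtain ⟨P', hP'⟩ := Submodule.exists_isCompl (P.comap Q.subtype)
  have h1 : P ⊔ P'.map Q.subtype = Q := by
    have e1 : (P.comap Q.subtype).map Q.subtype = P := by
      rw [Submodule.map_comap_subtype]; exact inf_eq_right.2 hPQ
    conv_lhs => rw [← e1]
    rw [← Submodule.map_sup, hP'.sup_eq_top, Submodule.map_subtype_top]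
  have h2 : finrank F P + finrank F (P'.map Q.subtype) = finrank F Q := by
    have e2 := Submodule.finrank_add_eq_of_isCompl hP'
    have e3 : finrank F (P'.map Q.subtype) = finrank F P' :=
      Submodule.finrank_map_subtype_eq _ _
    have e4 : finrank F (P.comap Q.subtype) = finrank F P := by
      have e1 : (P.comap Q.subtype).map Q.subtype = P := by
        rw [Submodule.map_comap_subtype]; exact inf_eq_right.2 hPQ
      conv_rhs => rw [← e1]
      exact (Submodule.finrank_map_subtype_eq _ _).symm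
    omega
  have h3 := h.r_le_finrank P
  have h4 := h.r_le_finrank (P'.map Q.subtype)
  have h5 := h.r_sup_le P (P'.map Q.subtype)
  rw [h1] at h5
  omega

/-- a full subspace spanning the same flat -/
lemma exists_full (h : LMap F ρ φ) (Q : Submodule F V) :
    ∃ P ≤ Q, ρ.r (φ '' P) = finrank F P ∧ ρ.r (φ '' P) = ρ.r (φ '' Q) ∧
      φ '' Q ⊆ ρ.cl (φ '' P) := by
  obtain ⟨Z, hZ1, hZ2, hZ3, hZ4⟩ := ρ.exists_basis (φ '' Q)
  obtain ⟨S, hS1, hS2⟩ : ∃ S ⊆ (Q : Set V), Set.BijOn φ S Z := by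
    exact Set.SurjOn.exists_bijOn_subset hZ1
  have hle : span F S ≤ Q := span_le.2 hS1
  have hSfin : S.Finite := hS2.finite_iff_finite.2 (Set.toFinite Z)
  have hcard : S.ncard = Z.ncard := by
    rw [← hS2.image_eq, Set.InjOn.ncard_image hS2.injOn]
  have h1 : finrank F (span F S) ≤ S.ncard := by
    have := hSfin.fintype
    have := finrank_span_le_card (R := F) S
    rw [Set.ncard_eq_toFinset_card']
    exact this
  have h2 : ρ.r Z ≤ ρ.r (φ '' (span F S : Set V)) := by
    rw [← hS2.image_eq]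
    exact ρ.mono (Set.image_mono subset_span)
  have h3 := h.r_le_finrank (span F S)
  have h4 : ρ.r (φ '' (span F S : Set V)) ≤ ρ.r (φ '' Q) := ρ.mono (Set.image_mono hle)
  refine ⟨span F S, hle, by omega, by omega, ?_⟩
  refine hZ4.trans (ρ.cl_mono ?_)
  rw [← hS2.image_eq]
  exact Set.image_mono subset_span

/-- for every set `A`, one of `A` and its complement spans the image of a subspace -/
lemma bipart (h : LMap F ρ φ) (Q : Submodule F V) (A : Set α) :
    ρ.r (φ '' Q ∩ A) = ρ.r (φ '' Q) ∨ ρ.r (φ '' Q \ A) = ρ.r (φ '' Q) := by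
  by_cases h1 : φ '' Q ⊆ ρ.cl (φ '' Q ∩ A)
  · left
    apply le_antisymm (ρ.mono Set.inter_subset_left) (ρ.r_le_of_subset_cl h1)
  · right
    apply le_antisymm (ρ.mono Set.sdiff_subset)
    apply ρ.r_le_of_subset_cl
    rw [Set.not_subset] at h1
    obtain ⟨_, ⟨v₀, hv₀, rfl⟩, hv₀'⟩ := h1
    have hv₀A : φ v₀ ∉ A := fun hA => hv₀' (ρ.subset_cl _ ⟨⟨v₀, hv₀, rfl⟩, hA⟩)
    rintro _ ⟨v, hv, rfl⟩
    by_cases hvA : φ v ∈ A
    · have hsum : φ (v + v₀) ∉ A := by
        intro hA
        apply hv₀'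
        have h2 : φ v₀ ∈ ρ.cl {φ (v + v₀), φ v} := by
          have := h.lin 1 (-1) (v + v₀) v
          have e : (1 : F) • (v + v₀) + (-1 : F) • v = v₀ := by
            rw [one_smul, neg_one_smul]; abel
          rwa [e] at this
        refine ρ.cl_mono ?_ h2
        rintro z (rfl | hz)
        · exact ⟨⟨v + v₀, Q.add_mem hv hv₀, rfl⟩, hA⟩
        · rw [Set.mem_singleton_iff] at hz; rw [hz]; exact ⟨⟨v, hv, rfl⟩, hvA⟩
      have h2 : φ v ∈ ρ.cl {φ (v + v₀), φ v₀} := by
        have := h.lin 1 (-1) (v + v₀) v₀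
        have e : (1 : F) • (v + v₀) + (-1 : F) • v₀ = v := by
          rw [one_smul, neg_one_smul]; abel
        rwa [e] at this
      refine ρ.cl_mono ?_ h2
      rintro z (rfl | hz)
      · exact ⟨⟨v + v₀, Q.add_mem hv hv₀, rfl⟩, hsum⟩
      · rw [Set.mem_singleton_iff] at hz; rw [hz]; exact ⟨⟨v₀, hv₀, rfl⟩, hv₀A⟩
    · exact ρ.subset_cl _ ⟨⟨v, hv, rfl⟩, hvA⟩

/-- modularity: an element in the closures of two subspaces is in the closure of their
intersection, if the sum of the subspaces is full -/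
lemma mem_cl_inf (h : LMap F ρ φ) {P Q : Submodule F V}
    (hPQ : ρ.r (φ '' ((P ⊔ Q : Submodule F V) : Set V)) = finrank F (P ⊔ Q : Submodule F V))
    {e : α} (hP : e ∈ ρ.cl (φ '' P)) (hQ : e ∈ ρ.cl (φ '' Q)) :
    e ∈ ρ.cl (φ '' ((P ⊓ Q : Submodule F V) : Set V)) := by
  have h1 := h.full_mono hPQ le_sup_left
  have h2 := h.full_mono hPQ le_sup_right
  have h3 := h.full_mono hPQ (inf_le_left.trans le_sup_left : P ⊓ Q ≤ P ⊔ Q)
  have h4 := Submodule.finrank_sup_add_finrank_inf_eq P Q
  rw [RF.mem_cl] at hP hQ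
  rw [RF.mem_cl_iff_le]
  have h5 := ρ.submod (X := insert e (φ '' P)) (Y := insert e (φ '' Q))
    (U := φ '' P ∪ φ '' Q)
    (I := insert e (φ '' ((P ⊓ Q : Submodule F V) : Set V)))
    (by intro x; simp only [Set.mem_union, Set.mem_insert_iff]; tauto)
    (Set.insert_subset_insert (Set.image_mono (by exact_mod_cast inf_le_left)))
    (Set.insert_subset_insert (Set.image_mono (by exact_mod_cast inf_le_right)))
  have h6 := ρ.r_le_of_subset_cl (h.sup_subset_cl P Q)
  omega

end fin

end LMap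

end H19PG
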