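import Pool.Agent.H19PG.PH
import Pool.Agent.H19PG.Lin

/-!
# The block lemma (helper file)

If `φ : V → α` is a linear map after contracting a set `A` of rank at most `f`, the rank of the
image is large, and there is no `U_{k,2k}`-minor, then contracting a set `Q` of bounded rank
(independent of `f`) leaves a restriction of the form `PG(s - 1, K)`.
-/

set_option linter.unusedSectionVars false

open Module Submodule

namespace H19PG

variable {α : Type*} [Finite α]

lemma LMap.of_con_eq {F : Type*} [Field F] {V : Type*} [AddCommGroup V] [Module F V]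
    {ρ : RF α} {φ : V → α} {S A : Set α} (h : LMap F (ρ.con A) φ) (hSA : S ⊆ A)
    (hle : (ρ.con S).r (Set.range φ) ≤ (ρ.con A).r (Set.range φ)) : LMap F (ρ.con S) φ where
  zero := by
    rw [ρ.con_r_eq_of_eq hSA (by rintro _ rfl; exact ⟨0, rfl⟩) hle]
    exact h.zero
  lin a b v w := by
    have h1 := h.lin a b v w
    rw [RF.mem_cl] at h1 ⊢
    rw [ρ.con_r_eq_of_eq hSA (X := insert (φ (a • v + b • w)) {φ v, φ w}) (by
      rintro _ (rfl | rfl | rfl) <;> exact ⟨_, rfl⟩) hle,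
      ρ.con_r_eq_of_eq hSA (X := {φ v, φ w}) (by
      rintro _ (rfl | rfl) <;> exact ⟨_, rfl⟩) hle]
    exact h1

/-- spanning subfamily of bounded size -/
lemma RF.exists_subfamily (ρ : RF α) {ι : Type*} (y : ι → α) (I : Finset ι) :
    ∃ J ⊆ I, J.card ≤ ρ.r (y '' (I : Set ι)) ∧ y '' (I : Set ι) ⊆ ρ.cl (y '' (J : Set ι)) := by
  obtain ⟨Z, hZ1, hZ2, hZ3, hZ4⟩ := ρ.exists_basis (y '' (I : Set ι))
  obtain ⟨S, hS1, hS2⟩ : ∃ S ⊆ (I : Set ι), Set.BijOn y S Z :=
    Set.SurjOn.exists_bijOn_subset hZ1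
  have hSfin : S.Finite := I.finite_toSet.subset hS1
  refine ⟨hSfin.toFinset, ?_, ?_, ?_⟩
  · intro i hi
    rw [Set.Finite.mem_toFinset] at hi
    exact_mod_cast hS1 hi
  · rw [← Set.ncard_coe_finset, Set.Finite.coe_toFinset, ← Set.InjOn.ncard_image hS2.injOn,
      hS2.image_eq, hZ3]
  · rw [Set.Finite.coe_toFinset, hS2.image_eq]
    exact hZ4

variable {K : Type*} [Field K] [Fintype K]

section aux

variable {a s : ℕ} (ψ : (Fin a → Fin s → K) → α)

/-- images of the basis vectors of the blocks in `J` -/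
def ZJ (J : Finset (Fin a)) : Set α :=
  (fun p : Fin a × Fin s => ψ (LinearMap.single K (fun _ => Fin s → K) p.1 (Pi.single p.2 1))) ''
    ((J ×ˢ (Finset.univ : Finset (Fin s)) : Finset (Fin a × Fin s)) : Set (Fin a × Fin s))

/-- images of all vectors of the blocks in `J` -/
def RJ (J : Finset (Fin a)) : Set α :=
  (fun p : Fin a × (Fin s → K) => ψ (LinearMap.single K (fun _ => Fin s → K) p.1 p.2)) ''
    {p | p.1 ∈ J}

lemma mem_RJ {J : Finset (Fin a)} {i : Fin a} (hi : i ∈ J) (u : Fin s → K) :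
    ψ (LinearMap.single K (fun _ => Fin s → K) i u) ∈ RJ ψ J := ⟨(i, u), hi, rfl⟩

lemma ZJ_subset_RJ (J : Finset (Fin a)) : ZJ ψ J ⊆ RJ ψ J := by
  rintro _ ⟨p, hp, rfl⟩
  rw [Finset.mem_coe, Finset.mem_product] at hp
  exact mem_RJ ψ hp.1 _

lemma ZJ_union (J J' : Finset (Fin a)) : ZJ ψ (J ∪ J') = ZJ ψ J ∪ ZJ ψ J' := by
  rw [ZJ, ZJ, ZJ, ← Set.image_union]
  congr 1
  ext p
  simp

lemma r_ZJ_le (ρ : RF α) (J : Finset (Fin a)) : ρ.r (ZJ ψ J) ≤ J.card * s := by
  have h1 := ρ.r_le_ncard (ZJ ψ J)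
  have h2 : (ZJ ψ J).ncard ≤ J.card * s := by
    refine (Set.ncard_image_le (Finset.finite_toSet _)).trans ?_
    rw [Set.ncard_coe_finset, Finset.card_product, Finset.card_univ, Fintype.card_fin]
  omega

lemma r_RJ_le (ρ : RF α) (J : Finset (Fin a)) :
    ρ.r (RJ ψ J) ≤ J.card * Fintype.card (Fin s → K) := by
  classical
  have h1 := ρ.r_le_ncard (RJ ψ J)
  have h2 : (RJ ψ J).ncard ≤ J.card * Fintype.card (Fin s → K) := by
    refine (Set.ncard_image_le (Set.toFinite _)).trans ?_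
    have h3 : {p : Fin a × (Fin s → K) | p.1 ∈ J} =
        ((J ×ˢ (Finset.univ : Finset (Fin s → K)) : Finset _) : Set (Fin a × (Fin s → K))) := by
      ext p; simp
    rw [h3, Set.ncard_coe_finset, Finset.card_product, Finset.card_univ]
  omega

lemma single_mem_span (i : Fin a) (u : Fin s → K) :
    LinearMap.single K (fun _ : Fin a => Fin s → K) i u ∈
      span K (Set.range fun t : Fin s =>
        LinearMap.single K (fun _ : Fin a => Fin s → K) i (Pi.single t 1)) := by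
  have h1 : u = ∑ t, u t • (Pi.single t (1 : K) : Fin s → K) := by
    conv_lhs => rw [← Finset.univ_sum_single u]
    refine Finset.sum_congr rfl (fun t _ => ?_)
    rw [← Pi.single_smul, smul_eq_mul, mul_one]
  rw [h1, map_sum]
  refine Submodule.sum_mem _ (fun t _ => ?_)
  rw [map_smul]
  exact Submodule.smul_mem _ _ (subset_span ⟨t, rfl⟩)

lemma RJ_subset_cl {σ : RF α} (h : LMap K σ ψ) (J : Finset (Fin a)) :
    RJ ψ J ⊆ σ.cl (ZJ ψ J) := by
  rintro _ ⟨p, hp, rfl⟩
  refine h.mem_cl_of_mem_span ?_ (single_mem_span p.1 p.2)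
  rintro _ ⟨t, rfl⟩
  apply σ.subset_cl
  exact ⟨(p.1, t), by simpa using hp, rfl⟩

lemma range_subset_cl {σ : RF α} (h : LMap K σ ψ) :
    Set.range ψ ⊆ σ.cl (ZJ ψ Finset.univ) := by
  rintro _ ⟨v, rfl⟩
  have h1 : v = ∑ i, LinearMap.single K (fun _ : Fin a => Fin s → K) i (v i) := by
    simp only [LinearMap.single_apply]
    exact (Finset.univ_sum_single v).symm
  have h2 : v ∈ span K (Set.range fun p : Fin a × Fin s =>
      LinearMap.single K (fun _ : Fin a => Fin s → K) p.1 (Pi.single p.2 1)) := by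
    rw [h1]
    refine Submodule.sum_mem _ (fun i _ => ?_)
    refine span_mono ?_ (single_mem_span i (v i))
    rintro _ ⟨t, rfl⟩
    exact ⟨(i, t), rfl⟩
  refine h.mem_cl_of_mem_span ?_ h2
  rintro _ ⟨p, rfl⟩
  apply σ.subset_cl
  exact ⟨p, by simp, rfl⟩

end aux

/-- bound for the rank of the set that is contracted in the block lemma -/
def cB (k u : ℕ) : ℕ := u * k * u

/-- number of blocks needed in the block lemma -/
def nB (k f u : ℕ) : ℕ := phbIter k (u * k + 1) f u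

lemma block0 {a s k f : ℕ} {ρ : RF α} (hρ : ¬ ρ.HasU k) (A : Set α) (hA : ρ.r A ≤ f)
    (ψ : (Fin a → Fin s → K) → α) (h : LMap K (ρ.con A) ψ)
    (hfull : (ρ.con A).r (Set.range ψ) = a * s)
    (ha : nB k f (Fintype.card (Fin s → K)) ≤ a) :
    ∃ (Q : Set α) (i : Fin a), Q ⊆ Set.range ψ ∧ ρ.r Q ≤ cB k (Fintype.card (Fin s → K)) ∧
      LMap K (ρ.con Q) (fun u => ψ (LinearMap.single K (fun _ => Fin s → K) i u)) ∧
      (ρ.con Q).r (Set.range fun u => ψ (LinearMap.single K (fun _ => Fin s → K) i u)) = s ∧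
      (ρ.con (A ∪ Q)).r
        (Set.range fun u => ψ (LinearMap.single K (fun _ => Fin s → K) i u)) = s := by
  classical
  set Z := ZJ ψ Finset.univ with hZ
  have hZsub : Z ⊆ Set.range ψ := by rintro _ ⟨p, _, rfl⟩; exact ⟨_, rfl⟩
  have hZA : (ρ.con A).r Z = a * s := by
    rw [← hfull]
    exact le_antisymm ((ρ.con A).mono hZsub)
      ((ρ.con A).r_le_of_subset_cl (range_subset_cl ψ h))
  have hZr : ρ.r Z = a * s := by
    have h1 := ρ.con_le A Z
    have h2 := r_ZJ_le ψ ρ Finset.univ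
    rw [Finset.card_univ, Fintype.card_fin, ← hZ] at h2
    omega
  set σ := ρ.con Z with hσ
  have hσU : ¬ σ.HasU k := fun hc => hρ hc.of_con
  have hσA : σ.r A ≤ f := by
    have h1 := ρ.con_add A Z
    have h2 := ρ.con_add Z A
    rw [Set.union_comm] at h1
    rw [← hσ] at h2
    omega
  have hycl : ∀ v, ψ v ∈ σ.cl A := by
    intro v
    have h1 := range_subset_cl ψ h ⟨v, rfl⟩
    rw [RF.mem_con_cl] at h1
    rw [hσ, RF.mem_con_cl, Set.union_comm]
    exact h1
  obtain ⟨I', -, hI'card, hI'r⟩ := σ.ph_iter k (Fintype.card (Fin s → K) * k + 1) f hσU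
    (fun (u : Fin s → K) (i : Fin a) => ψ (LinearMap.single K (fun _ => Fin s → K) i u))
    Finset.univ (Finset.univ : Finset (Fin a)) (by
      rw [Finset.card_univ, Finset.card_univ, Fintype.card_fin]
      exact ha) (by
      intro u _
      refine (σ.r_le_of_subset_cl ?_).trans hσA
      rintro _ ⟨i, _, rfl⟩
      exact hycl _)
  have hsub := fun u : Fin s → K => σ.exists_subfamily
    (fun i : Fin a => ψ (LinearMap.single K (fun _ => Fin s → K) i u)) I'
  choose J hJ1 hJ2 hJ3 using hsub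
  have hJ2' : ∀ u, (J u).card ≤ k := fun u => (hJ2 u).trans (hI'r u (Finset.mem_univ u))
  set I0 : Finset (Fin a) := Finset.univ.biUnion J with hI0
  have hI0card : I0.card ≤ Fintype.card (Fin s → K) * k := by
    rw [hI0]
    refine Finset.card_biUnion_le.trans ?_
    refine (Finset.sum_le_sum (fun u _ => hJ2' u)).trans ?_
    rw [Finset.sum_const, Finset.card_univ, smul_eq_mul]
  obtain ⟨i1, hi1I', hi1I0⟩ : ∃ i ∈ I', i ∉ I0 := by
    by_contra hcon
    push Not at hcon
    have := Finset.card_le_card (show I' ⊆ I0 from hcon)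
    omega
  have hJI0 : ∀ u, J u ⊆ I0 := fun u => Finset.subset_biUnion_of_mem J (Finset.mem_univ u)
  set J1 : Finset (Fin a) := I0 ∪ {i1} with hJ1def
  have hJ1card : J1.card = I0.card + 1 := by
    rw [hJ1def, Finset.card_union_of_disjoint (by simpa using hi1I0), Finset.card_singleton]
  set Jc : Finset (Fin a) := Finset.univ \ J1 with hJc
  have hJccard : J1.card + Jc.card = a := by
    have h1 := Finset.card_sdiff_add_card_eq_card (Finset.subset_univ J1)
    rw [Finset.card_univ, Fintype.card_fin, ← hJc] at h1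
    omega
  have hmul : J1.card * s + Jc.card * s = a * s := by rw [← add_mul, hJccard]
  have hmul1 : J1.card * s = I0.card * s + s := by rw [hJ1card]; ring
  have hZsplit : Z = ZJ ψ J1 ∪ ZJ ψ Jc := by
    rw [← ZJ_union, hJc, Finset.union_sdiff_of_subset (Finset.subset_univ J1)]
  set Q := RJ ψ I0 with hQ
  have hRJmono : RJ ψ I0 ⊆ RJ ψ J1 := by
    rintro _ ⟨p, hp, rfl⟩
    exact mem_RJ ψ (Finset.mem_union_left _ hp) _
  have hQr : ρ.r Q ≤ cB k (Fintype.card (Fin s → K)) := by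
    refine (r_RJ_le ψ ρ I0).trans ?_
    rw [cB]
    exact Nat.mul_le_mul_right _ hI0card
  -- the skewness of the other blocks
  have hPA := ρ.con_add A (RJ ψ J1)
  have hPA' : (ρ.con A).r (RJ ψ J1) ≤ J1.card * s :=
    ((ρ.con A).r_le_of_subset_cl (RJ_subset_cl ψ h J1)).trans (r_ZJ_le ψ _ J1)
  have hJcr := r_ZJ_le ψ ρ Jc
  have hskew : ρ.r (RJ ψ J1 ∪ A) + ρ.r (ZJ ψ Jc) ≤ ρ.r (RJ ψ J1 ∪ A ∪ ZJ ψ Jc) := by
    have h1 := ρ.con_add A Z
    have h2 : Z ∪ A ⊆ RJ ψ J1 ∪ A ∪ ZJ ψ Jc := by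
      rw [hZsplit]
      have := ZJ_subset_RJ ψ J1
      intro z
      simp only [Set.mem_union]
      rintro ((hz | hz) | hz)
      · exact Or.inl (Or.inl (this hz))
      · exact Or.inr hz
      · exact Or.inl (Or.inr hz)
    have h3 := ρ.mono h2
    omega
  have hmem : ∀ u : Fin s → K, ψ (LinearMap.single K (fun _ => Fin s → K) i1 u) ∈
      ρ.cl (ZJ ψ {i1} ∪ Q) := by
    intro u
    set y := ψ (LinearMap.single K (fun _ => Fin s → K) i1 u) with hy
    have h1 : y ∈ σ.cl ((fun i : Fin a => ψ (LinearMap.single K (fun _ => Fin s → K) i u)) ''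
        (J u : Set (Fin a))) := hJ3 u ⟨i1, hi1I', rfl⟩
    rw [hσ, RF.mem_con_cl] at h1
    set Y := (fun i : Fin a => ψ (LinearMap.single K (fun _ => Fin s → K) i u)) ''
        (J u : Set (Fin a)) with hYdef
    have hYQ : Y ⊆ RJ ψ I0 := by
      rintro _ ⟨i, hi, rfl⟩
      exact mem_RJ ψ (hJI0 u hi) _
    have hyP : y ∈ RJ ψ J1 := mem_RJ ψ (Finset.mem_union_right _ (Finset.mem_singleton_self i1)) _
    have hS : Y ∪ Z = (Y ∪ ZJ ψ J1) ∪ ZJ ψ Jc := by rw [hZsplit, Set.union_assoc]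
    rw [hS, RF.mem_cl] at h1
    have h2 := ρ.conn_mono (P := insert y (Y ∪ ZJ ψ J1)) (Q := ZJ ψ Jc)
      (P' := RJ ψ J1 ∪ A) (Q' := ZJ ψ Jc) (by
        refine Set.insert_subset (Set.mem_union_left A hyP) ?_
        apply Set.union_subset
        · exact (hYQ.trans hRJmono).trans Set.subset_union_left
        · exact (ZJ_subset_RJ ψ J1).trans Set.subset_union_left) subset_rfl
    rw [Set.insert_union] at h2
    have h3 := ρ.union_le (Y ∪ ZJ ψ J1) (ZJ ψ Jc)
    have h4 : y ∈ ρ.cl (Y ∪ ZJ ψ J1) := by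
      rw [RF.mem_cl_iff_le]
      omega
    refine ρ.cl_mono ?_ h4
    rw [hJ1def, ZJ_union]
    have := ZJ_subset_RJ ψ I0
    intro z
    simp only [Set.mem_union]
    rintro (hz | hz | hz)
    · exact Or.inr (hYQ hz)
    · exact Or.inr (this hz)
    · exact Or.inl hz
  have hup : (ρ.con Q).r (Set.range fun u =>
      ψ (LinearMap.single K (fun _ => Fin s → K) i1 u)) ≤ s := by
    have h1 : (Set.range fun u => ψ (LinearMap.single K (fun _ => Fin s → K) i1 u)) ⊆
        (ρ.con Q).cl (ZJ ψ {i1}) := by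
      rintro _ ⟨u, rfl⟩
      rw [RF.mem_con_cl]
      exact hmem u
    refine ((ρ.con Q).r_le_of_subset_cl h1).trans ?_
    refine (r_ZJ_le ψ _ _).trans ?_
    rw [Finset.card_singleton, one_mul]
  have hlow : s ≤ (ρ.con (A ∪ Q)).r (Set.range fun u =>
      ψ (LinearMap.single K (fun _ => Fin s → K) i1 u)) := by
    have h1 := ρ.con_add (A ∪ Q) (Set.range fun u =>
      ψ (LinearMap.single K (fun _ => Fin s → K) i1 u))
    have h2 : ZJ ψ J1 ∪ A ⊆ (Set.range fun u =>
        ψ (LinearMap.single K (fun _ => Fin s → K) i1 u)) ∪ (A ∪ Q) := by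
      rw [hJ1def, ZJ_union]
      have := ZJ_subset_RJ ψ I0
      intro z
      simp only [Set.mem_union]
      rintro ((hz | hz) | hz)
      · exact Or.inr (Or.inr (this hz))
      · left
        obtain ⟨p, hp, rfl⟩ := hz
        have : p.1 = i1 := by
          rw [Finset.mem_coe, Finset.mem_product, Finset.mem_singleton] at hp
          exact hp.1
        rw [← this]
        exact ⟨_, rfl⟩
      · exact Or.inr (Or.inl hz)
    have h3 := ρ.mono h2
    have h4 := ρ.con_add A (ZJ ψ J1)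
    have h5 := (ρ.con A).union_le (ZJ ψ J1) (ZJ ψ Jc)
    rw [← hZsplit] at h5
    have h6 := r_ZJ_le ψ (ρ.con A) Jc
    have h7 := ρ.con_add A Q
    have h8 : (ρ.con A).r Q ≤ I0.card * s :=
      ((ρ.con A).r_le_of_subset_cl (RJ_subset_cl ψ h I0)).trans (r_ZJ_le ψ _ I0)
    rw [Set.union_comm Q A] at h7
    omega
  have hanti := ρ.con_anti (Set.subset_union_right : Q ⊆ A ∪ Q) (Set.range fun u =>
      ψ (LinearMap.single K (fun _ => Fin s → K) i1 u))
  refine ⟨Q, i1, ?_, hQr, ?_, by omega, by omega⟩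
  · rintro _ ⟨p, _, rfl⟩; exact ⟨_, rfl⟩
  · have h1 : LMap K (ρ.con (A ∪ Q))
        (fun u => ψ (LinearMap.single K (fun _ => Fin s → K) i1 u)) := by
      rw [← RF.con_con]
      exact (h.con Q).comp (LinearMap.single K (fun _ => Fin s → K) i1)
    exact h1.of_con_eq Set.subset_union_right (by omega)

/-- The block lemma. -/
theorem block {k f s : ℕ} {ρ : RF α} (hρ : ¬ ρ.HasU k) {V : Type*} [AddCommGroup V] [Module K V]
    [FiniteDimensional K V] (A : Set α) (hA : ρ.r A ≤ f) (φ : V → α)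
    (h : LMap K (ρ.con A) φ)
    (hr : nB k f (Fintype.card (Fin s → K)) * s ≤ (ρ.con A).r (Set.range φ)) :
    ∃ (Q : Set α) (j : (Fin s → K) →ₗ[K] V), Q ⊆ Set.range φ ∧
      ρ.r Q ≤ cB k (Fintype.card (Fin s → K)) ∧
      LMap K (ρ.con Q) (fun u => φ (j u)) ∧
      (ρ.con Q).r (Set.range fun u => φ (j u)) = s ∧
      (ρ.con (A ∪ Q)).r (Set.range fun u => φ (j u)) = s := by
  obtain ⟨W, -, hW1, hW2, -⟩ := h.exists_full ⊤
  rw [Submodule.top_coe, Set.image_univ] at hW2
  set a := nB k f (Fintype.card (Fin s → K)) with ha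
  have hfin : finrank K (Fin a → Fin s → K) = a * s := by
    rw [finrank_pi_fintype]
    simp
  obtain ⟨ι, hι⟩ : ∃ ι : (Fin a → Fin s → K) →ₗ[K] W, Function.Injective ι := by
    rw [← finrank_le_iff_exists_linearMap]
    omega
  have hrange : Set.range (fun v => φ ((W.subtype ∘ₗ ι) v)) =
      φ '' ((LinearMap.range (W.subtype ∘ₗ ι) : Submodule K V) : Set V) := by
    ext x; simp
  have hdim : finrank K (LinearMap.range (W.subtype ∘ₗ ι)) = a * s := by
    rw [LinearMap.finrank_range_of_inj, hfin]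
    rw [LinearMap.coe_comp]
    exact (Submodule.injective_subtype W).comp hι
  have hle : LinearMap.range (W.subtype ∘ₗ ι) ≤ W := by
    rintro _ ⟨v, rfl⟩
    exact (ι v).2
  obtain ⟨Q, i, hQ1, hQ2, hQ3, hQ4, hQ5⟩ := block0 (s := s) hρ A hA
    (fun v => φ ((W.subtype ∘ₗ ι) v)) (h.comp _) (by
      rw [hrange, h.full_mono hW1 hle, hdim]) le_rfl
  refine ⟨Q, (W.subtype ∘ₗ ι) ∘ₗ LinearMap.single K (fun _ => Fin s → K) i, ?_, hQ2, hQ3, hQ4,
    hQ5⟩
  refine hQ1.trans ?_
  rintro _ ⟨v, rfl⟩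
  exact ⟨_, rfl⟩

end H19PG
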