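import Mathlib

/-!
# The linear algebra behind the characteristic argument (helper file)

If every vector `w` of a vector space over `F₂` is assigned a subspace `G w` of bounded dimension
of a vector space over `F₁`, compatibly with linear combinations, and if the subspaces `G w` do not
all lie in a common subspace of small dimension, then the characteristic `p` of `F₂` is zero
in `F₁`.
-/

set_option linter.unusedSectionVars false

open Module Submodule

namespace H19PG

namespace LA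

variable {F₁ F₂ : Type*} [Field F₁] [Field F₂]
variable {V : Type*} [AddCommGroup V] [Module F₁ V] [FiniteDimensional F₁ V]
variable {W : Type*} [AddCommGroup W] [Module F₂ W]

/-- key disjointness -/
lemma disj {A B C : Submodule F₁ V} {δ : ℕ} (hA : finrank F₁ A ≤ δ) (hB : finrank F₁ B ≤ δ)
    (h : 2 * δ ≤ finrank F₁ (B ⊔ C : Submodule F₁ V)) (hC : C ≤ A ⊔ B) : A ⊓ B = ⊥ := by
  have h1 := Submodule.finrank_sup_add_finrank_inf_eq A B
  have h2 : finrank F₁ (B ⊔ C : Submodule F₁ V) ≤ finrank F₁ (A ⊔ B : Submodule F₁ V) :=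
    Submodule.finrank_mono (sup_le le_sup_right hC)
  have h3 : finrank F₁ (A ⊓ B : Submodule F₁ V) = 0 := by omega
  exact Submodule.finrank_eq_zero.1 h3

lemma rep {p : ℕ} (hp2 : (p : F₂) = 0) (hp1 : (p : F₁) ≠ 0) (H : W → Submodule F₁ V)
    {δ : ℕ} (hδ : 1 ≤ δ) (hH : ∀ w, finrank F₁ (H w) ≤ δ)
    (ha : ∀ (a b : F₂) (w w' : W), H (a • w + b • w') ≤ H w ⊔ H w')
    (w1 w2 w3 : W)
    (h3 : 3 * δ ≤ finrank F₁ (H w1 ⊔ H w2 ⊔ H w3 : Submodule F₁ V)) : False := by
  have hadd : ∀ w w' : W, H (w + w') ≤ H w ⊔ H w' := by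
    intro w w'; simpa using ha 1 1 w w'
  have hsub : ∀ w w' : W, H (w - w') ≤ H w ⊔ H w' := by
    intro w w'
    have := ha 1 (-1) w w'
    rwa [one_smul, neg_one_smul, ← sub_eq_add_neg] at this
  have hsmul : ∀ (n : ℕ) (w : W), H (n • w) ≤ H w := by
    intro n w
    have := ha (n : F₂) 0 w w
    rw [zero_smul, add_zero, sup_idem, Nat.cast_smul_eq_nsmul] at this
    exact this
  have f1 := hH w1
  have f2 := hH w2
  have f3 := hH w3
  have e12 := Submodule.finrank_sup_add_finrank_inf_eq (H w1) (H w2)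
  have e123 := Submodule.finrank_sup_add_finrank_inf_eq (H w1 ⊔ H w2) (H w3)
  have z12 : H w1 ⊓ H w2 = ⊥ := Submodule.finrank_eq_zero.1 (by omega)
  have z123 : (H w1 ⊔ H w2) ⊓ H w3 = ⊥ := Submodule.finrank_eq_zero.1 (by omega)
  have ind : ∀ c1 ∈ H w1, ∀ c2 ∈ H w2, ∀ c3 ∈ H w3, c1 + c2 + c3 = 0 →
      c1 = 0 ∧ c2 = 0 ∧ c3 = 0 := by
    intro c1 hc1 c2 hc2 c3 hc3 h
    have h31 : c3 ∈ (H w1 ⊔ H w2) ⊓ H w3 := by
      refine ⟨?_, hc3⟩
      have : c3 = -(c1 + c2) := by rw [eq_neg_iff_add_eq_zero, add_comm]; exact h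
      rw [this]
      exact Submodule.neg_mem _ (Submodule.add_mem_sup hc1 hc2)
    rw [z123, Submodule.mem_bot] at h31
    rw [h31, add_zero] at h
    have h21 : c1 ∈ H w1 ⊓ H w2 := by
      refine ⟨hc1, ?_⟩
      have : c1 = -c2 := by rw [eq_neg_iff_add_eq_zero]; exact h
      rw [this]
      exact Submodule.neg_mem _ hc2
    rw [z12, Submodule.mem_bot] at h21
    rw [h21, zero_add] at h
    exact ⟨h21, h, h31⟩
  -- pairwise large sums
  have g12 : 2 * δ ≤ finrank F₁ (H w1 ⊔ H w2 : Submodule F₁ V) := by omega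
  have g13 : 2 * δ ≤ finrank F₁ (H w1 ⊔ H w3 : Submodule F₁ V) := by
    have h5 := Submodule.finrank_sup_add_finrank_inf_eq (H w1 ⊔ H w3) (H w2)
    have h6 : H w1 ⊔ H w3 ⊔ H w2 = H w1 ⊔ H w2 ⊔ H w3 := by
      rw [sup_assoc, sup_comm (H w3), ← sup_assoc]
    rw [h6] at h5
    omega
  have g23 : 2 * δ ≤ finrank F₁ (H w2 ⊔ H w3 : Submodule F₁ V) := by
    have h5 := Submodule.finrank_sup_add_finrank_inf_eq (H w1) (H w2 ⊔ H w3)
    rw [← sup_assoc] at h5
    omega
  -- disjointness facts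
  have k13 : H (w1 + w3) ⊓ H w3 = ⊥ := by
    refine disj (C := H w1) (hH _) f3 (by rw [sup_comm]; exact g13) ?_
    have := hsub (w1 + w3) w3
    rwa [add_sub_cancel_right] at this
  have k12 : H (w1 + w2) ⊓ H w1 = ⊥ := by
    refine disj (C := H w2) (hH _) f1 g12 ?_
    have := hsub (w1 + w2) w1
    rwa [add_sub_cancel_left] at this
  have k23 : H (w2 - w3) ⊓ H w2 = ⊥ := by
    refine disj (C := H w3) (hH _) f2 g23 ?_
    have := hsub w2 (w2 - w3)
    rw [sub_sub_cancel] at this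
    rwa [sup_comm]
  -- the base vectors
  obtain ⟨x1, hx1, hx10⟩ : ∃ x ∈ H w1, x ≠ 0 := by
    apply Submodule.exists_mem_ne_zero_of_ne_bot
    intro h0
    have : finrank F₁ (H w1) = 0 := by rw [h0]; simp
    omega
  obtain ⟨x2, hx2, hx12⟩ : ∃ x2 ∈ H w2, x1 + x2 ∈ H (w1 + w2) := by
    have h1 : x1 ∈ H (w1 + w2) ⊔ H w2 := by
      have := hsub (w1 + w2) w2
      rw [add_sub_cancel_right] at this
      exact this hx1
    obtain ⟨y, hy, z, hz, hyz⟩ := Submodule.mem_sup.1 h1
    refine ⟨-z, Submodule.neg_mem _ hz, ?_⟩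
    rw [← hyz]; simpa using hy
  obtain ⟨x3, hx3, hx13⟩ : ∃ x3 ∈ H w3, x1 + x3 ∈ H (w1 + w3) := by
    have h1 : x1 ∈ H (w1 + w3) ⊔ H w3 := by
      have := hsub (w1 + w3) w3
      rw [add_sub_cancel_right] at this
      exact this hx1
    obtain ⟨y, hy, z, hz, hyz⟩ := Submodule.mem_sup.1 h1
    refine ⟨-z, Submodule.neg_mem _ hz, ?_⟩
    rw [← hyz]; simpa using hy
  have hx23 : x2 - x3 ∈ H (w2 - w3) := by
    have h1 : x2 ∈ H (w2 - w3) ⊔ H w3 := by
      have := hadd (w2 - w3) w3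
      rw [sub_add_cancel] at this
      exact this hx2
    obtain ⟨u, hu, t, ht, hut⟩ := Submodule.mem_sup.1 h1
    have h2 : u ∈ H (w1 + w2) ⊔ H (w1 + w3) := by
      have := hsub (w1 + w2) (w1 + w3)
      rw [add_sub_add_left_eq_sub] at this
      exact this hu
    obtain ⟨a, ha', b, hb', hab⟩ := Submodule.mem_sup.1 h2
    obtain ⟨a1, ha1, a2, ha2, haa⟩ := Submodule.mem_sup.1 (hadd w1 w2 ha')
    obtain ⟨b1, hb1, b3, hb3, hbb⟩ := Submodule.mem_sup.1 (hadd w1 w3 hb')
    have h4 := ind (a1 + b1) (Submodule.add_mem _ ha1 hb1) (a2 - x2)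
      (Submodule.sub_mem _ ha2 hx2) (b3 + t) (Submodule.add_mem _ hb3 ht) (by
        rw [← hut, ← hab, ← haa, ← hbb]; abel)
    obtain ⟨h41, h42, h43⟩ := h4
    have h5 : a - (x1 + x2) ∈ H (w1 + w2) ⊓ H w1 := by
      refine ⟨Submodule.sub_mem _ ha' hx12, ?_⟩
      have : a - (x1 + x2) = a1 - x1 := by
        rw [← haa, ← sub_eq_zero.1 h42]; abel
      rw [this]; exact Submodule.sub_mem _ ha1 hx1
    rw [k12, Submodule.mem_bot] at h5
    have h6 : b + (x1 + x3) ∈ H (w1 + w3) ⊓ H w3 := by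
      refine ⟨Submodule.add_mem _ hb' hx13, ?_⟩
      have e1 : a1 = x1 := by
        have : a - (x1 + x2) = a1 - x1 := by
          rw [← haa, ← sub_eq_zero.1 h42]; abel
        rw [this] at h5
        exact sub_eq_zero.1 h5
      have e2 : b1 = -x1 := by
        rw [← e1, eq_neg_iff_add_eq_zero, add_comm]; exact h41
      have : b + (x1 + x3) = b3 + x3 := by
        rw [← hbb, e2]; abel
      rw [this]; exact Submodule.add_mem _ hb3 hx3
    rw [k13, Submodule.mem_bot] at h6
    have h7 : u = x2 - x3 := by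
      rw [← hab, sub_eq_zero.1 h5, eq_neg_of_add_eq_zero_left h6]; abel
    rw [← h7]; exact hu
  -- the induction
  have key : ∀ m : ℕ, x1 + m • x2 ∈ H (w1 + m • w2) := by
    intro m
    induction m with
    | zero => simpa using hx1
    | succ m ih =>
      have s1 : x1 + m • x2 ∈ H (w1 + m • w2 + w3) ⊔ H w3 := by
        have := hsub (w1 + m • w2 + w3) w3
        rw [add_sub_cancel_right] at this
        exact this ih
      obtain ⟨c, hc, d, hd, hcd⟩ := Submodule.mem_sup.1 s1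
      have s2 : c ∈ H (w1 + w3) ⊔ H w2 := by
        have h1 := hadd (w1 + w3) (m • w2)
        have h2 : w1 + w3 + m • w2 = w1 + m • w2 + w3 := by abel
        rw [h2] at h1
        exact (h1.trans (sup_le_sup_left (hsmul m w2) _)) hc
      obtain ⟨e, he, f, hf, hef⟩ := Submodule.mem_sup.1 s2
      obtain ⟨e1, he1, e3, he3, hee⟩ := Submodule.mem_sup.1 (hadd w1 w3 he)
      have h4 := ind (e1 - x1) (Submodule.sub_mem _ he1 hx1) (f - m • x2)
        (Submodule.sub_mem _ hf (Submodule.smul_of_tower_mem _ m hx2)) (e3 + d)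
        (Submodule.add_mem _ he3 hd) (by
          have : x1 = c + d - m • x2 := by rw [hcd]; abel
          rw [this, ← hef, ← hee]; abel)
      obtain ⟨h41, h42, h43⟩ := h4
      have h5 : e - (x1 + x3) ∈ H (w1 + w3) ⊓ H w3 := by
        refine ⟨Submodule.sub_mem _ he hx13, ?_⟩
        have : e - (x1 + x3) = e3 - x3 := by
          rw [← hee, sub_eq_zero.1 h41]; abel
        rw [this]; exact Submodule.sub_mem _ he3 hx3
      rw [k13, Submodule.mem_bot] at h5
      have hc2 : c = x1 + m • x2 + x3 := by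
        rw [← hef, sub_eq_zero.1 h5, sub_eq_zero.1 h42]; abel
      rw [hc2] at hc
      have s3 : x1 + m • x2 + x3 ∈ H (w1 + (m + 1) • w2) ⊔ H (w2 - w3) := by
        have h1 := hsub (w1 + (m + 1) • w2) (w2 - w3)
        have h2 : w1 + (m + 1) • w2 - (w2 - w3) = w1 + m • w2 + w3 := by
          rw [add_smul, one_smul]; abel
        rw [h2] at h1
        exact h1 hc
      obtain ⟨c', hc', u', hu', hcu⟩ := Submodule.mem_sup.1 s3
      obtain ⟨u2, hu2, u3, hu3, huu⟩ := Submodule.mem_sup.1 (hsub w2 w3 hu')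
      obtain ⟨c1, hc1, c2, hc2', hcc⟩ := Submodule.mem_sup.1
        ((hadd w1 ((m + 1) • w2)).trans (sup_le_sup_left (hsmul (m + 1) w2) _) hc')
      have h6 := ind (c1 - x1) (Submodule.sub_mem _ hc1 hx1) (c2 + u2 - m • x2)
        (Submodule.sub_mem _ (Submodule.add_mem _ hc2' hu2)
          (Submodule.smul_of_tower_mem _ m hx2)) (u3 - x3)
        (Submodule.sub_mem _ hu3 hx3) (by
          have : x1 = c' + u' - m • x2 - x3 := by rw [hcu]; abel
          rw [this, ← hcc, ← huu]; abel)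
      obtain ⟨h61, h62, h63⟩ := h6
      have h7 : u' + (x2 - x3) ∈ H (w2 - w3) ⊓ H w2 := by
        refine ⟨Submodule.add_mem _ hu' hx23, ?_⟩
        have : u' + (x2 - x3) = u2 + x2 := by
          rw [← huu, sub_eq_zero.1 h63]; abel
        rw [this]; exact Submodule.add_mem _ hu2 hx2
      rw [k23, Submodule.mem_bot] at h7
      have h8 : c' = x1 + (m + 1) • x2 := by
        have h9 : c' = x1 + m • x2 + x3 - u' := by rw [← hcu]; abel
        rw [h9, eq_neg_of_add_eq_zero_left h7, add_smul, one_smul]; abel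
      rw [← h8]; exact hc'
  have hfin := key p
  have hpw : p • w2 = 0 := by
    rw [← Nat.cast_smul_eq_nsmul F₂, hp2, zero_smul]
  rw [hpw, add_zero] at hfin
  have hpx : p • x2 ∈ H w1 ⊓ H w2 := by
    refine ⟨?_, Submodule.smul_of_tower_mem _ p hx2⟩
    have : p • x2 = (x1 + p • x2) - x1 := by abel
    rw [this]; exact Submodule.sub_mem _ hfin hx1
  rw [z12, Submodule.mem_bot, ← Nat.cast_smul_eq_nsmul F₁, smul_eq_zero] at hpx
  have hx20 : x2 = 0 := by
    rcases hpx with h | h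
    · exact absurd h hp1
    · exact h
  rw [hx20, add_zero] at hx12
  have : x1 ∈ H (w1 + w2) ⊓ H w1 := ⟨hx12, hx1⟩
  rw [k12, Submodule.mem_bot] at this
  exact hx10 this

lemma exists_max {ι : Type*} [Nonempty ι] (f : ι → ℕ) (B : ℕ) (hB : ∀ i, f i ≤ B) :
    ∃ i, ∀ j, f j ≤ f i := by
  have h1 : BddAbove (Set.range f) := ⟨B, by rintro _ ⟨i, rfl⟩; exact hB i⟩
  obtain ⟨i, hi⟩ := Nat.sSup_mem (Set.range_nonempty f) h1
  exact ⟨i, fun j => by rw [hi]; exact le_csSup h1 ⟨j, rfl⟩⟩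

lemma finrank_map_mkQ (P Q : Submodule F₁ V) :
    finrank F₁ (P.map Q.mkQ) + finrank F₁ Q = finrank F₁ (P ⊔ Q : Submodule F₁ V) := by
  have h1 : (P ⊔ Q).map Q.mkQ = P.map Q.mkQ := by
    rw [Submodule.map_sup]
    rw [Submodule.mkQ_map_self, sup_bot_eq]
  rw [← h1]
  have h2 := LinearMap.finrank_range_add_finrank_ker (Q.mkQ.domRestrict (P ⊔ Q))
  rw [LinearMap.range_domRestrict, LinearMap.ker_domRestrict, Submodule.ker_mkQ] at h2
  have h3 : finrank F₁ (Q.comap (P ⊔ Q).subtype) = finrank F₁ Q := by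
    have h4 : (Q.comap (P ⊔ Q).subtype).map (P ⊔ Q).subtype = Q := by
      rw [Submodule.map_comap_subtype]
      exact inf_eq_right.2 le_sup_right
    conv_rhs => rw [← h4]
    exact (Submodule.finrank_map_subtype_eq _ _).symm
  rw [h3] at h2
  exact h2

theorem main {p : ℕ} (hp2 : (p : F₂) = 0) (hp1 : (p : F₁) ≠ 0) (G : W → Submodule F₁ V)
    (T : ℕ) (hT : ∀ w, finrank F₁ (G w) ≤ T)
    (ha : ∀ (a b : F₂) (w w' : W), G (a • w + b • w') ≤ G w ⊔ G w')
    (hb : ∀ Q : Submodule F₁ V, finrank F₁ Q ≤ 2 * T * T → ∃ w, ¬ G w ≤ Q) : False := by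
  have aux : ∀ (n : ℕ) (Q : Submodule F₁ V),
      (∀ w, finrank F₁ (G w ⊔ Q : Submodule F₁ V) ≤ finrank F₁ Q + n) →
      finrank F₁ Q + 2 * n * T ≤ 2 * T * T → False := by
    intro n
    induction n with
    | zero =>
      intro Q h1 h2
      obtain ⟨w, hw⟩ := hb Q (by omega)
      apply hw
      have h3 : Q = G w ⊔ Q := Submodule.eq_of_le_of_finrank_le le_sup_right (by simpa using h1 w)
      rw [h3]; exact le_sup_left
    | succ n ih =>
      intro Q h1 h2
      have hTT : 2 * (n + 1) * T = 2 * n * T + 2 * T := by ring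
      have bound : ∀ (R : Submodule F₁ V) (w : W),
          finrank F₁ (G w ⊔ R : Submodule F₁ V) ≤ T + finrank F₁ R := by
        intro R w
        have := Submodule.finrank_add_le_finrank_add_finrank (G w) R
        have := hT w
        omega
      obtain ⟨w1, hw1⟩ := exists_max (fun w => finrank F₁ (G w ⊔ Q : Submodule F₁ V)) _ (bound Q)
      obtain ⟨w2, hw2⟩ := exists_max (fun w => finrank F₁ (G w ⊔ (G w1 ⊔ Q) : Submodule F₁ V)) _
        (bound (G w1 ⊔ Q))
      obtain ⟨w3, hw3⟩ := exists_max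
        (fun w => finrank F₁ (G w ⊔ (G w2 ⊔ (G w1 ⊔ Q)) : Submodule F₁ V)) _
        (bound (G w2 ⊔ (G w1 ⊔ Q)))
      have b1 := bound Q w1
      have b2 := bound (G w1 ⊔ Q) w2
      have c1 : finrank F₁ Q + 1 ≤ finrank F₁ (G w1 ⊔ Q : Submodule F₁ V) := by
        obtain ⟨w, hw⟩ := hb Q (by omega)
        have h4 := hw1 w
        by_contra hcon
        apply hw
        have h3 : Q = G w ⊔ Q := Submodule.eq_of_le_of_finrank_le le_sup_right (by omega)
        rw [h3]; exact le_sup_left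
      have anti : ∀ (P R S : Submodule F₁ V), R ≤ S →
          finrank F₁ (P ⊔ S : Submodule F₁ V) + finrank F₁ R ≤
            finrank F₁ (P ⊔ R : Submodule F₁ V) + finrank F₁ S := by
        intro P R S hRS
        have h5 := Submodule.finrank_sup_add_finrank_inf_eq (P ⊔ R) S
        have h6 : P ⊔ R ⊔ S = P ⊔ S := by rw [sup_assoc, sup_eq_right.2 hRS]
        rw [h6] at h5
        have h7 : finrank F₁ R ≤ finrank F₁ ((P ⊔ R) ⊓ S : Submodule F₁ V) :=
          Submodule.finrank_mono (le_inf le_sup_right hRS)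
        omega
      have d12 := anti (G w2) Q (G w1 ⊔ Q) le_sup_right
      have d12' := hw1 w2
      have d23 := anti (G w3) (G w1 ⊔ Q) (G w2 ⊔ (G w1 ⊔ Q)) le_sup_right
      have d23' := hw2 w3
      by_cases hcase : finrank F₁ (G w3 ⊔ (G w2 ⊔ (G w1 ⊔ Q)) : Submodule F₁ V) ≤
          finrank F₁ (G w2 ⊔ (G w1 ⊔ Q) : Submodule F₁ V) + n
      · exact ih (G w2 ⊔ (G w1 ⊔ Q)) (fun w => (hw3 w).trans hcase) (by omega)
      · -- the three increments are equal to the maximum
        obtain ⟨δ, hδ⟩ : ∃ δ, finrank F₁ (G w1 ⊔ Q : Submodule F₁ V) = finrank F₁ Q + δ :=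
          ⟨finrank F₁ (G w1 ⊔ Q : Submodule F₁ V) - finrank F₁ Q, by omega⟩
        have hn := h1 w1
        refine rep hp2 hp1 (fun w => (G w).map Q.mkQ) (δ := δ) (by omega) ?_ ?_ w1 w2 w3 ?_
        · intro w
          have h5 := finrank_map_mkQ (G w) Q
          have h6 := hw1 w
          omega
        · intro a b w w'
          rw [← Submodule.map_sup]
          exact Submodule.map_mono (ha a b w w')
        · rw [← Submodule.map_sup, ← Submodule.map_sup]
          have h5 := finrank_map_mkQ (G w1 ⊔ G w2 ⊔ G w3) Q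
          have h6 : G w1 ⊔ G w2 ⊔ G w3 ⊔ Q = G w3 ⊔ (G w2 ⊔ (G w1 ⊔ Q)) := by
            rw [sup_comm (G w1 ⊔ G w2) (G w3), sup_comm (G w1) (G w2)]
            simp only [sup_assoc]
          rw [h6] at h5
          omega
  refine aux T ⊥ ?_ ?_
  · intro w
    rw [sup_bot_eq, finrank_bot]
    have := hT w
    omega
  · rw [finrank_bot]; omega

end LA

end H19PG
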