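import Pool.Agent.H19PG.Generic
import Pool.Agent.H19PG.LA

/-!
# Two linear maps over fields of different characteristic (helper file)
-/

set_option linter.unusedSectionVars false

open Module Submodule

namespace H19PG

variable {α : Type*} [Finite α]
variable {F₁ F₂ : Type*} [Field F₁] [Field F₂]
variable {V₁ : Type*} [AddCommGroup V₁] [Module F₁ V₁] [FiniteDimensional F₁ V₁]
variable {V₂ : Type*} [AddCommGroup V₂] [Module F₂ V₂] [FiniteDimensional F₂ V₂]
variable {ρ : RF α} {φ₁ : V₁ → α} {φ₂ : V₂ → α}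

/-- thresholds -/
def th (k i : ℕ) : ℕ := 3 ^ i * (2 ^ (2 * k) + 2 * k)

lemma th_succ (k i : ℕ) : th k (i + 1) = 3 * th k i := by
  simp only [th, pow_succ]; ring

lemma th_mono (k : ℕ) {i j : ℕ} (h : i ≤ j) : th k i ≤ th k j := by
  simp only [th]
  exact Nat.mul_le_mul_right _ (Nat.pow_le_pow_right (by norm_num) h)

/-- the rank that suffices in the core argument -/
def n₀ (k : ℕ) : ℕ := 2 * th k k * th k k + k + 1

lemma core_aux {p : ℕ} (hp2 : (p : F₂) = 0) (hp1 : (p : F₁) ≠ 0) (k : ℕ)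
    (h₁ : LMap F₁ ρ φ₁) (h₂ : LMap F₂ ρ φ₂)
    (hfull : ρ.r (Set.range φ₁) = finrank F₁ V₁)
    (hcl : Set.range φ₂ ⊆ ρ.cl (Set.range φ₁))
    (hr : n₀ k ≤ ρ.r (Set.range φ₂)) :
    ∀ i ≤ k, ∀ e : ℕ → α, pre e (k - i) ⊆ Set.range φ₂ →
      (∀ P : Submodule F₁ V₁, finrank F₁ P ≤ th k i →
        finrank F₁ P + (k - i) ≤ ρ.r (φ₁ '' P ∪ pre e (k - i))) → ρ.HasU k := by
  intro i
  induction i with
  | zero =>
    intro _ e he hgen
    rw [Nat.sub_zero] at he hgen
    exact hasU_of_generic h₁ e k (th k 0) hfull (he.trans hcl) hgen (by simp [th])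
  | succ i ih =>
    intro hi e he hgen
    obtain ⟨j, hj⟩ : ∃ j, k - (i + 1) = j := ⟨_, rfl⟩
    have hj1 : k - i = j + 1 := by omega
    rw [hj] at he hgen
    by_cases hcase : ∃ v, ∀ P : Submodule F₁ V₁, finrank F₁ P ≤ th k i →
        finrank F₁ P + (j + 1) ≤ ρ.r (φ₁ '' P ∪ insert (φ₂ v) (pre e j))
    · obtain ⟨v, hv⟩ := hcase
      have hpre : pre (Function.update e j (φ₂ v)) (j + 1) = insert (φ₂ v) (pre e j) := by
        rw [pre_succ, Function.update_self]
        congr 1
        apply Set.image_congr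
        intro x hx
        have : x ≠ j := by rw [Set.mem_Iio] at hx; omega
        simp [this]
      refine ih (by omega) (Function.update e j (φ₂ v)) ?_ ?_
      · rw [hj1, hpre]
        exact Set.insert_subset ⟨v, rfl⟩ he
      · rw [hj1, hpre]
        exact hv
    · exfalso
      push Not at hcase
      -- the contraction
      set σ := ρ.con (pre e j) with hσ
      have hrj : ρ.r (pre e j) ≤ j := by
        have := r_pre_add_le ρ e ∅ 0 j
        simpa [ρ.empty'] using this
      have hfullσ : ∀ P : Submodule F₁ V₁, finrank F₁ P ≤ th k (i + 1) →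
          σ.r (φ₁ '' P) = finrank F₁ P := by
        intro P hP
        have h3 := hgen P hP
        have h4 := (h₁.con (pre e j)).r_le_finrank P
        have h5 := ρ.con_add (pre e j) (φ₁ '' P)
        rw [← hσ] at h4 h5
        omega
      have hex : ∀ v, ∃ n, ∃ P : Submodule F₁ V₁, φ₂ v ∈ σ.cl (φ₁ '' P) ∧ finrank F₁ P = n ∧
          n ≤ th k i := by
        intro v
        obtain ⟨P, hP1, hP2⟩ := hcase v
        refine ⟨_, P, ?_, rfl, hP1⟩
        rw [hσ, RF.mem_con_cl, RF.mem_cl_iff_le, ← Set.union_insert]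
        have h3 := hgen P (hP1.trans (th_mono k (by omega)))
        omega
      classical
      choose G hG1 hG2 hG3 using fun v => Nat.find_spec (hex v)
      have hG4 : ∀ v, finrank F₁ (G v) ≤ th k i := fun v => by rw [hG2]; exact hG3 v
      have hmin : ∀ v, ∀ P : Submodule F₁ V₁, φ₂ v ∈ σ.cl (φ₁ '' P) →
          finrank F₁ P ≤ 2 * th k i → G v ≤ P := by
        intro v P hP hP2
        have h3 : finrank F₁ (G v ⊔ P : Submodule F₁ V₁) ≤ th k (i + 1) := by
          have := Submodule.finrank_add_le_finrank_add_finrank (G v) P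
          have := hG4 v
          rw [th_succ]
          omega
        have h4 := (h₁.con (pre e j)).mem_cl_inf (hfullσ _ h3) (hG1 v) hP
        have h5 : finrank F₁ (G v ⊓ P : Submodule F₁ V₁) ≤ finrank F₁ (G v) :=
          Submodule.finrank_mono inf_le_left
        have h6 : Nat.find (hex v) ≤ finrank F₁ (G v ⊓ P : Submodule F₁ V₁) :=
          Nat.find_min' (hex v) ⟨G v ⊓ P, h4, rfl, h5.trans (hG4 v)⟩
        have h7 : G v ⊓ P = G v := Submodule.eq_of_le_of_finrank_le inf_le_left (by
          rw [hG2]; exact h6)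
        rw [← h7]; exact inf_le_right
      refine LA.main hp2 hp1 G (th k i) hG4 ?_ ?_
      · intro a b w w'
        apply hmin
        · have h3 := (h₂.con (pre e j)).lin a b w w'
          refine σ.cl_cl ?_ h3
          rintro z (rfl | hz)
          · exact σ.cl_mono (Set.image_mono (by exact_mod_cast le_sup_left)) (hG1 w)
          · rw [Set.mem_singleton_iff] at hz; rw [hz]
            exact σ.cl_mono (Set.image_mono (by exact_mod_cast le_sup_right)) (hG1 w')
        · have := Submodule.finrank_add_le_finrank_add_finrank (G w) (G w')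
          have := hG4 w
          have := hG4 w'
          omega
      · intro Q hQ
        by_contra hcon
        push Not at hcon
        have h3 : Set.range φ₂ ⊆ σ.cl (φ₁ '' Q) := by
          rintro _ ⟨w, rfl⟩
          exact σ.cl_mono (Set.image_mono (hcon w)) (hG1 w)
        have h4 := σ.r_le_of_subset_cl h3
        have h5 := (h₁.con (pre e j)).r_le_finrank Q
        have h6 := ρ.le_con_add (pre e j) (Set.range φ₂)
        have h7 : th k i ≤ th k k := th_mono k (by omega)
        have h8 : 2 * th k i * th k i ≤ 2 * th k k * th k k :=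
          Nat.mul_le_mul (Nat.mul_le_mul_left 2 h7) h7
        rw [n₀] at hr
        rw [← hσ] at h5 h6
        omega

/-- The core result: the image of the second map is spanned by the image of the first map. -/
theorem core {p : ℕ} (hp2 : (p : F₂) = 0) (hp1 : (p : F₁) ≠ 0) (k : ℕ)
    (h₁ : LMap F₁ ρ φ₁) (h₂ : LMap F₂ ρ φ₂)
    (hcl : Set.range φ₂ ⊆ ρ.cl (Set.range φ₁))
    (hr : n₀ k ≤ ρ.r (Set.range φ₂)) : ρ.HasU k := by
  obtain ⟨P, -, hP1, hP2, hP3⟩ := h₁.exists_full ⊤
  have hrange : Set.range (fun w : P => φ₁ (P.subtype w)) = φ₁ '' P := by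
    ext x; simp
  rw [Submodule.top_coe, Set.image_univ] at hP3
  refine core_aux hp2 hp1 k (h₁.comp P.subtype) h₂ ?_ ?_ hr k le_rfl
    (fun _ => φ₂ 0) ?_ ?_
  · rw [hrange]; exact hP1
  · rw [hrange]; exact hcl.trans (ρ.cl_cl hP3)
  · simp
  · intro Q hQ
    rw [Nat.sub_self, pre_zero, Set.union_empty, add_zero]
    have h3 : ρ.r ((fun w : P => φ₁ (P.subtype w)) '' ((⊤ : Submodule F₁ P) : Set P)) =
        finrank F₁ (⊤ : Submodule F₁ P) := by
      rw [finrank_top, Submodule.top_coe, Set.image_univ, hrange]; exact hP1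
    exact ((h₁.comp P.subtype).full_mono h3 le_top).ge

/-- Local connectivity at least `n₀ k` between the two images suffices. -/
theorem core_conn {p : ℕ} (hp2 : (p : F₂) = 0) (hp1 : (p : F₁) ≠ 0) (k : ℕ)
    (h₁ : LMap F₁ ρ φ₁) (h₂ : LMap F₂ ρ φ₂)
    (hconn : n₀ k + ρ.r (Set.range φ₁ ∪ Set.range φ₂) ≤
      ρ.r (Set.range φ₁) + ρ.r (Set.range φ₂)) : ρ.HasU k := by
  obtain ⟨Z, hZ1, hZ2, hZ3, hZ4⟩ := ρ.exists_augment (Set.range φ₁) (Set.range φ₂)
  apply RF.HasU.of_con (D := Z)
  refine core hp2 hp1 k (h₁.con Z) (h₂.con Z) ?_ ?_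
  · intro x hx
    rw [RF.mem_con_cl, RF.mem_cl_iff_le]
    rw [hZ2]
    exact ρ.mono (Set.insert_subset (Or.inr hx) (Set.union_subset_union_right _ hZ1))
  · have h3 := ρ.con_add Z (Set.range φ₂)
    have h4 : Set.range φ₂ ∪ Z = Set.range φ₂ := Set.union_eq_self_of_subset_right hZ1
    rw [h4] at h3
    omega

end H19PG
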