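import Pool.Agent.H19PG.Small

/-!
# One geometry is a restriction, the other one is a minor (helper file)
-/

set_option linter.unusedSectionVars false

open Module Submodule

namespace H19PG

variable {α : Type*} [Finite α]
variable {K₁ K₂ : Type*} [Field K₁] [Field K₂] [Fintype K₂]
variable {V₁ : Type*} [AddCommGroup V₁] [Module K₁ V₁] [FiniteDimensional K₁ V₁]
variable {V₂ : Type*} [AddCommGroup V₂] [Module K₂ V₂] [FiniteDimensional K₂ V₂]

/-- the size of the free set that is needed -/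
def fF (k u : ℕ) : ℕ := n₀ k + cB k u

/-- a small set misses a spanning subset -/
lemma r_diff_of_small {ν : RF α} {φ₂ : V₂ → α} (h₂ : LMap K₂ ν φ₂) {A : Set α}
    (hA : Small ν (Set.range φ₂) A) : ν.r (Set.range φ₂ \ A) = ν.r (Set.range φ₂) := by
  have h3 := h₂.bipart ⊤ A
  rw [Submodule.top_coe, Set.image_univ] at h3
  rcases h3 with h3 | h3
  · exact absurd hA (by rw [Small, h3]; exact lt_irrefl _)
  · exact h3

/-- a nonzero vector of a full subspace is not a loop -/
lemma r_singleton_of_full {ρ : RF α} {φ : V₂ → α} (h : LMap K₂ ρ φ)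
    {P : Submodule K₂ V₂} (hP : ρ.r (φ '' P) = finrank K₂ P) {v : V₂} (hv : v ∈ P)
    (hv0 : v ≠ 0) : ρ.r {φ v} = 1 := by
  have h1 := h.full_mono hP ((span_singleton_le_iff_mem v P).2 hv)
  rwa [finrank_span_singleton hv0, h.r_span, Set.image_singleton] at h1

/-- a nonzero vector of a full subspace is not in the contracted set -/
lemma not_mem_of_full {ρ : RF α} {A : Set α} {φ : V₂ → α} (h : LMap K₂ (ρ.con A) φ)
    {P : Submodule K₂ V₂} (hP : (ρ.con A).r (φ '' P) = finrank K₂ P) {v : V₂} (hv : v ∈ P)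
    (hv0 : v ≠ 0) : φ v ∉ A := by
  intro hA
  have h1 := r_singleton_of_full h hP hv hv0
  have h2 := ρ.con_add A {φ v}
  rw [Set.singleton_union, Set.insert_eq_of_mem hA] at h2
  omega

/-- the data obtained after contracting the part of `C₂` that is not spanned -/
lemma exists_contract {τ : RF α} {φ₂ : V₂ → α} {C₂ F : Set α} {f : ℕ}
    (h₂ : LMap K₂ (τ.con C₂) φ₂) (hF : τ.r F ≤ f)
    (hm : 2 * f < (τ.con C₂).r (Set.range φ₂))
    (hfree : ∀ A, Small (τ.con C₂) (Set.range φ₂) A → F ⊆ A →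
      f + τ.r Set.univ ≤ τ.r A + τ.r Aᶜ) :
    ∃ (C : Set α) (A : Set α), C ⊆ C₂ ∧ F ⊆ A ∧
      Small (τ.con C₂) (Set.range φ₂) A ∧
      (∀ B, Small (τ.con C₂) (Set.range φ₂) B → F ⊆ B →
        f + (τ.con C).r Set.univ ≤ (τ.con C).r B + (τ.con C).r Bᶜ) ∧
      (τ.con C).r A + (τ.con C).r Aᶜ ≤ f + (τ.con C).r Set.univ ∧
      C₂ ⊆ (τ.con C).cl A := by
  classical
  set ν := τ.con C₂ with hν
  set R := Set.range φ₂ with hR
  -- a maximal contractible subset of `C₂`
  let P : Set (Set α) := {C | C ⊆ C₂ ∧ ∀ B, Small ν R B → F ⊆ B →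
        f + (τ.con C).r Set.univ ≤ (τ.con C).r B + (τ.con C).r Bᶜ}
  obtain ⟨C, hC, hmax⟩ := Set.exists_max_image P (fun C => C.ncard) (Set.toFinite P)
    ⟨∅, Set.empty_subset _, by simpa using hfree⟩
  set σ := τ.con C with hσ
  have hσν : σ.con C₂ = ν := by
    rw [hσ, RF.con_con, Set.union_eq_self_of_subset_left hC.1]
  -- small sets of small connectivity have small rank in `ν`
  have hsmallr : ∀ A, Small ν R A → σ.r A + σ.r Aᶜ ≤ f + σ.r Set.univ → ν.r (R ∩ A) ≤ f := by
    intro A hA hA'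
    have h1 := σ.minor_conn A C₂ R
    rw [hσν] at h1
    have h2 : ν.r (R \ A) = ν.r R := r_diff_of_small h₂ hA
    omega
  have hFsmall : Small ν R F := by
    rw [Small]
    have h1 := ν.mono (Set.inter_subset_right : R ∩ F ⊆ F)
    have h2 := τ.con_le C₂ F
    rw [← hν] at h2
    omega
  have hFle : σ.r F + σ.r Fᶜ ≤ f + σ.r Set.univ := by
    have h1 := τ.con_le C F
    have h2 := σ.mono (Set.subset_univ Fᶜ)
    rw [← hσ] at h1
    omega
  obtain ⟨A, hA1, hA2, hA3, hA4⟩ := exists_largest σ (Small ν R)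
    (fun A B h1 h2 => h1.mono h2) f F (by
      intro A B hA hB hA' hB'
      have h1 := hsmallr A hA hA'
      have h2 := hsmallr B hB hB'
      rw [Small, Set.inter_union_distrib_left]
      have h3 := ν.union_le (R ∩ A) (R ∩ B)
      omega) hC.2 F hFsmall subset_rfl hFle
  refine ⟨C, A, hC.1, hA2, hA1, hC.2, hA3, ?_⟩
  intro e he
  by_cases heC : e ∈ C
  · rw [RF.mem_con_cl]
    exact τ.subset_cl _ (Or.inr heC)
  -- the maximality of `C`
  have hnot : insert e C ∉ P := by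
    intro hc
    have := hmax _ hc
    rw [Set.ncard_insert_of_notMem heC] at this
    omega
  have h3 : ¬ ∀ B, Small ν R B → F ⊆ B →
        f + (τ.con (insert e C)).r Set.univ ≤
          (τ.con (insert e C)).r B + (τ.con (insert e C)).r Bᶜ := by
    intro hc
    exact hnot ⟨Set.insert_subset he hC.1, hc⟩
  push Not at h3
  obtain ⟨B, hB1, hB2, hB3⟩ := h3
  have hcon : τ.con (insert e C) = σ.con {e} := by
    rw [hσ, RF.con_con, Set.union_singleton]
  rw [hcon] at hB3
  have c1 := σ.con_add {e} B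
  have c2 := σ.con_add {e} Bᶜ
  have c3 := σ.con_add {e} Set.univ
  rw [Set.univ_union] at c3
  rw [Set.union_singleton] at c1 c2
  have c4 := hC.2 B hB1 hB2
  rw [← hσ] at c4
  have c5 : σ.r {e} ≤ 1 := by
    have := σ.r_le_ncard {e}
    rwa [Set.ncard_singleton] at this
  have m1 := σ.mono (Set.subset_insert e B)
  have m2 := σ.mono (Set.subset_insert e Bᶜ)
  by_cases heB : e ∈ B
  · exact σ.subset_cl _ (hA4 B hB1 hB2 (by omega) heB)
  · refine σ.cl_mono (hA4 B hB1 hB2 (by omega)) ?_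
    rw [RF.mem_cl_iff_le]
    have heB' : e ∈ Bᶜ := heB
    rw [Set.insert_eq_of_mem heB'] at c2
    omega

/-- The main step. -/
theorem final {p : ℕ} (hp2 : (p : K₂) = 0) (hp1 : (p : K₁) ≠ 0) (k u : ℕ)
    (hu : Fintype.card (Fin (n₀ k) → K₂) = u)
    {τ : RF α} {x1 : V₁ → α} {φ₂ : V₂ → α} {C₂ : Set α} (h₁ : LMap K₁ τ x1)
    (h₂ : LMap K₂ (τ.con C₂) φ₂) (h0 : τ.r {φ₂ 0} = 0) (D : Submodule K₁ V₁)
    (hD : finrank K₁ D ≤ fF k u)
    (hfree : ∀ A, Small (τ.con C₂) (Set.range φ₂) A → x1 '' D ⊆ A →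
      fF k u + τ.r Set.univ ≤ τ.r A + τ.r Aᶜ)
    (hm : 2 * fF k u < (τ.con C₂).r (Set.range φ₂))
    (hm2 : nB k (fF k u) u * n₀ k + fF k u ≤ (τ.con C₂).r (Set.range φ₂)) : τ.HasU k := by
  by_contra hU
  set F := x1 '' (D : Set V₁) with hF
  have hτF : τ.r F ≤ fF k u := (h₁.r_le_finrank D).trans hD
  obtain ⟨C, A, hCC, hFA, hAsm, hfree2, hAle, hcl⟩ := exists_contract h₂ hτF hm hfree
  set f := fF k u with hf
  set σ := τ.con C with hσ
  set ν := τ.con C₂ with hν
  set R := Set.range φ₂ with hR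
  have hσν : σ.con C₂ = ν := by
    rw [hσ, RF.con_con, Set.union_eq_self_of_subset_left hCC]
  have hνA : ν.con A = σ.con A := by
    rw [← hσν, RF.con_con, Set.union_comm, con_eq_of_subset_cl σ hcl]
  have hUσ : ¬ σ.HasU k := fun hc => hU hc.of_con
  -- the rank of `F`
  have hFsm : Small ν R F := hAsm.mono hFA
  have hσF : σ.r F = f := by
    have h1 := hfree2 F hFsm subset_rfl
    have h2 := σ.mono (Set.subset_univ Fᶜ)
    have h3 := τ.con_le C F
    rw [← hσ] at h3
    omega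
  -- linking `F` to the complement of `A`
  obtain ⟨L, hL1, hL2, hL3, hL4⟩ := RF.linking F Aᶜ
    (Set.disjoint_left.2 fun x hx hx' => hx' (hFA hx)) f _ σ Set.univ rfl (Set.subset_univ _)
    (Set.subset_univ _) (by
      intro A' hA1 _ hA2
      have hsub : A' ⊆ A := by
        intro x hx
        by_contra hxA
        exact Set.disjoint_left.1 hA2 hx hxA
      have h1 := hfree2 A' (hAsm.mono hsub) hA1
      rwa [Set.compl_eq_univ_sdiff] at h1)
  have hLA : L ⊆ A := by
    intro x hx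
    by_contra hxA
    exact (hL1 hx).2 (Or.inr hxA)
  have hFLA : F ∪ L ⊆ A := Set.union_subset hFA hLA
  -- the rank of `R` in `σ.con A`
  have hRA : ν.r R ≤ (σ.con A).r R + f := by
    have h1 := σ.minor_conn A C₂ (A ∪ R)
    rw [hσν] at h1
    have h2 : (A ∪ R) ∩ A = A := Set.inter_eq_self_of_subset_right Set.subset_union_left
    have h3 : (A ∪ R) \ A = R \ A := Set.union_sdiff_left
    have h4 := r_diff_of_small h₂ hAsm
    rw [← hR] at h4
    have h5 := ν.con_add A R
    rw [hνA] at h5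
    rw [h2, h3, h4] at h1
    rw [Set.union_comm R A] at h5
    omega
  have h₂A : LMap K₂ (σ.con A) φ₂ := by rw [← hνA]; exact h₂.con A
  obtain ⟨P, -, hP1, hP2, -⟩ := h₂A.exists_full ⊤
  rw [Submodule.top_coe, Set.image_univ, ← hR] at hP2
  have hyr : Set.range (fun w : P => φ₂ (P.subtype w)) = φ₂ '' P := by
    ext x; simp
  have h0σ : ∀ X : Set α, φ₂ 0 ∈ σ.cl X := by
    intro X
    have h1 : φ₂ 0 ∈ σ.cl ∅ := by
      rw [RF.mem_cl, σ.empty']
      have := τ.con_le C {φ₂ 0}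
      rw [← hσ] at this
      simp only [insert_empty_eq]
      omega
    exact σ.cl_mono (Set.empty_subset _) h1
  have hyB : φ₂ '' P ⊆ σ.cl Aᶜ := by
    rintro _ ⟨v, hv, rfl⟩
    by_cases hv0 : v = 0
    · rw [hv0]; exact h0σ _
    · exact σ.subset_cl _ (not_mem_of_full h₂A hP1 hv hv0)
  -- ranks in `σ.con (F ∪ L)` and in `σ.con A` agree on the closure of `B`
  have hsame : ∀ X ⊆ σ.cl Aᶜ, (σ.con (F ∪ L)).r X = (σ.con A).r X := by
    intro X hX
    refine σ.con_r_eq_of_eq hFLA hX ?_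
    have h1 := σ.con_add (F ∪ L) (σ.cl Aᶜ)
    have h2 := σ.con_add A (σ.cl Aᶜ)
    have h3 : σ.r (σ.cl Aᶜ ∪ (F ∪ L)) ≤ σ.r (F ∪ Aᶜ ∪ L) := by
      apply σ.r_le_of_subset_cl
      apply Set.union_subset
      · apply σ.cl_mono
        exact Set.subset_union_right.trans Set.subset_union_left
      · refine (Set.union_subset_union_left L Set.subset_union_left).trans (σ.subset_cl _)
    have h4 : σ.r Set.univ ≤ σ.r (σ.cl Aᶜ ∪ A) := by
      apply σ.mono
      intro x _
      by_cases hx : x ∈ A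
      · exact Or.inr hx
      · exact Or.inl (σ.subset_cl _ hx)
    omega
  -- the third matroid
  set ρ₃ := σ.con L with hρ₃
  have hρ₃F : ρ₃.con F = σ.con (F ∪ L) := by rw [hρ₃, RF.con_con, Set.union_comm]
  have hUρ₃ : ¬ ρ₃.HasU k := fun hc => hUσ hc.of_con
  have hyL : LMap K₂ (ρ₃.con F) (fun w : P => φ₂ (P.subtype w)) := by
    rw [hρ₃F]
    refine (h₂A.comp P.subtype).of_con_eq hFLA ?_
    rw [hyr, hsame _ hyB]
  have hρ₃Fr : ρ₃.r F = f := by
    have h1 := σ.con_add L F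
    rw [← hρ₃] at h1
    omega
  obtain ⟨Q, j, hQ1, hQ2, hQ3, hQ4, hQ5⟩ := block (s := n₀ k) hUρ₃ F hρ₃Fr.le
    (fun w : P => φ₂ (P.subtype w)) hyL (by
      rw [hyr, hρ₃F, hsame _ hyB, hu, hP2]
      omega)
  rw [hu] at hQ2
  set ρ₄ := ρ₃.con Q with hρ₄
  set x2 : (Fin (n₀ k) → K₂) → α := fun v => φ₂ (P.subtype (j v)) with hx2
  have hρ₄F : ρ₃.con (F ∪ Q) = ρ₄.con F := by
    rw [hρ₄, RF.con_con ρ₃ Q F, Set.union_comm F Q]
  rw [hρ₄F] at hQ5
  have hfull : (ρ₄.con F).r (x2 '' ((⊤ : Submodule K₂ (Fin (n₀ k) → K₂)) : Set _)) =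
      finrank K₂ (⊤ : Submodule K₂ (Fin (n₀ k) → K₂)) := by
    rw [Submodule.top_coe, Set.image_univ, hQ5, finrank_top]
    simp
  have hx2F : ∀ v, v ≠ 0 → x2 v ∉ F := fun v hv =>
    not_mem_of_full (hQ3.con F) hfull (mem_top) hv
  have hjv : ∀ v, v ≠ 0 → (P.subtype (j v)) ≠ 0 := by
    intro v hv hcon
    have h1 := r_singleton_of_full (hQ3.con F) hfull mem_top hv
    have h2 : x2 v = φ₂ 0 := by rw [hx2]; simp only [hcon]
    rw [h2] at h1
    have h3 : (ρ₄.con F).r {φ₂ 0} ≤ σ.r {φ₂ 0} :=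
      (ρ₄.con_le F _).trans ((ρ₃.con_le Q _).trans (σ.con_le L _))
    have h4 := h0σ ∅
    rw [RF.mem_cl, σ.empty', insert_empty_eq] at h4
    omega
  set T := x2 '' {v | v ≠ 0} with hT
  have hTB : T ⊆ Aᶜ := by
    rintro _ ⟨v, hv, rfl⟩
    exact not_mem_of_full h₂A hP1 (j v).2 (hjv v hv)
  have hTR : T ⊆ R := by
    rintro _ ⟨v, hv, rfl⟩
    exact ⟨_, rfl⟩
  have hTcl : ∀ ρ' : RF α, ρ'.r {φ₂ 0} = 0 → Set.range x2 ⊆ ρ'.cl T := by
    rintro ρ' h' _ ⟨v, rfl⟩
    by_cases hv : v = 0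
    · have h1 : x2 v = φ₂ 0 := by rw [hx2, hv]; simp
      rw [h1]
      refine ρ'.cl_mono (Set.empty_subset _) ?_
      rw [RF.mem_cl, ρ'.empty', insert_empty_eq, h']
    · exact ρ'.subset_cl _ ⟨v, hv, rfl⟩
  have h0ρ : ∀ C' : Set α, (ρ₄.con C').r {φ₂ 0} = 0 := by
    intro C'
    have h3 : (ρ₄.con C').r {φ₂ 0} ≤ σ.r {φ₂ 0} :=
      (ρ₄.con_le C' _).trans ((ρ₃.con_le Q _).trans (σ.con_le L _))
    have h4 := h0σ ∅
    rw [RF.mem_cl, σ.empty', insert_empty_eq] at h4
    omega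
  have hTr : ρ₄.r T = n₀ k := by
    apply le_antisymm
    · rw [← hQ4]
      apply ρ₄.mono
      rintro _ ⟨v, hv, rfl⟩
      exact ⟨_, rfl⟩
    · rw [← hQ4]
      apply ρ₄.r_le_of_subset_cl
      have := h0ρ ∅
      rw [RF.con_empty] at this
      exact hTcl ρ₄ this
  set G := F ∪ Aᶜ with hG
  have hTG : T ⊆ G := hTB.trans Set.subset_union_right
  have hQcl : Q ⊆ ρ₃.cl G := by
    refine (hQ1.trans ?_).trans (σ.cl_subset_con_cl L G)
    rw [hyr]
    exact hyB.trans (σ.cl_mono Set.subset_union_right)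
  obtain ⟨C', hC1, hC2, hC3, hC4⟩ := RF.linking F T
    (Set.disjoint_left.2 (by
      rintro x hx ⟨v, hv, rfl⟩
      exact hx2F v hv hx)) (n₀ k) _ ρ₄ G rfl Set.subset_union_left hTG (by
    intro X hX1 hX2 hX3
    have hX' : X \ A ⊆ σ.cl Aᶜ := (fun x hx => σ.subset_cl _ hx.2)
    have hXL : X ∪ L = (X \ A) ∪ (F ∪ L) := by
      ext x
      simp only [Set.mem_union, Set.mem_sdiff]
      constructor
      · rintro (hx | hx)
        · rcases hX2 hx with h | h
          · exact Or.inr (Or.inl h)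
          · exact Or.inl ⟨hx, h⟩
        · exact Or.inr (Or.inr hx)
      · rintro (hx | hx | hx)
        · exact Or.inl hx.1
        · exact Or.inl (hX1 hx)
        · exact Or.inr hx
    have hXA : (X \ A) ∪ A = A ∪ X := by
      ext x
      simp only [Set.mem_union, Set.mem_sdiff]
      tauto
    have hs := hsame _ hX'
    by_cases hX : Small ν R (A ∪ X)
    · have h1 := hfree2 (A ∪ X) hX (hFA.trans Set.subset_union_left)
      have h2 : (A ∪ X)ᶜ = G \ X := by
        ext x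
        simp only [Set.mem_union, Set.mem_sdiff, Set.mem_compl_iff, hG]
        constructor
        · tauto
        · rintro ⟨h | h, h'⟩
          · exact absurd (hX1 h) h'
          · tauto
      rw [h2] at h1
      have h3 := σ.con_add L X
      have h4 := σ.con_add (F ∪ L) (X \ A)
      have h5 := σ.con_add A (X \ A)
      rw [← hρ₃] at h3
      rw [← hXL] at h4
      rw [hXA] at h5
      have h6 := σ.con_add L (G \ X)
      rw [← hρ₃] at h6
      have hGX : G \ X ⊆ Aᶜ := by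
        rw [← h2]
        exact Set.compl_subset_compl.2 Set.subset_union_left
      have h7 := σ.conn_mono (P := G \ X) (Q := L) (P' := Aᶜ) (Q' := L) hGX subset_rfl
      have h8 := σ.con_add L G
      rw [← hρ₃] at h8
      have h9 := ρ₃.con_add Q X
      have h10 := ρ₃.con_add Q (G \ X)
      have h11 := ρ₃.con_add Q G
      rw [← hρ₄] at h9 h10 h11
      have h12 := ρ₃.mono (Set.subset_union_left : X ⊆ X ∪ Q)
      have h13 := ρ₃.mono (Set.subset_union_left : G \ X ⊆ (G \ X) ∪ Q)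
      have h14 := ρ₃.r_union_of_subset_cl hQcl
      have h15 : f = n₀ k + cB k u := rfl
      omega
    · have h1 : R ⊆ ν.cl (R ∩ (A ∪ X)) := by
        apply ν.subset_cl_of_r_union_le
        rw [Small, not_lt] at hX
        rw [Set.union_eq_self_of_subset_left Set.inter_subset_left]
        exact hX
      have h2 : R ⊆ (σ.con A).cl (X \ A) := by
        rw [← hνA]
        intro x hx
        rw [RF.mem_con_cl, hXA]
        exact ν.cl_mono Set.inter_subset_right (h1 hx)
      have h3 := (σ.con A).r_union_of_subset_cl (hTR.trans h2)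
      have h4 : T ⊆ (σ.con (F ∪ L)).cl (X \ A) := by
        apply RF.subset_cl_of_r_union_le
        rw [hs, hsame _ (Set.union_subset hX' (hTB.trans (σ.subset_cl _))), h3]
      have h5 : T ⊆ ρ₄.cl X := by
        refine Set.Subset.trans ?_ (ρ₃.cl_subset_con_cl Q X)
        intro x hx
        have h6 := h4 hx
        rw [RF.mem_con_cl, ← hXL] at h6
        rw [hρ₃, RF.mem_con_cl]
        exact h6
      have h6 := ρ₄.r_union_of_subset_cl h5
      have h7 := ρ₄.submod (X := X ∪ T) (Y := G \ X) (U := G) (I := T)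
        (by intro x hx; simp only [Set.mem_union, Set.mem_sdiff]; tauto)
        Set.subset_union_right
        (fun x hx => ⟨hTG hx, fun hxX => Set.disjoint_left.1 hX3 hxX hx⟩)
      omega)
  have hFr : Set.range (fun w : D => x1 (D.subtype w)) = F := by
    ext x; simp [hF]
  have hL1 : LMap K₁ (ρ₄.con C') (fun w : D => x1 (D.subtype w)) :=
    (((((h₁.con C).con L).con Q).con C').comp D.subtype)
  have hL2 : LMap K₂ (ρ₄.con C') x2 := hQ3.con C'
  apply hUρ₃
  have hU4 : ρ₄.HasU k := by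
    apply RF.HasU.of_con (D := C')
    refine core_conn hp2 hp1 k hL1 hL2 ?_
    rw [hFr]
    have h1 := ρ₄.con_add C' F
    have h2 := ρ₄.con_add C' T
    have h3 := ρ₄.con_add C' (F ∪ T)
    have h4 : (ρ₄.con C').r (F ∪ Set.range x2) ≤ (ρ₄.con C').r (F ∪ T) := by
      apply (ρ₄.con C').r_le_of_subset_cl
      apply Set.union_subset
      · exact Set.subset_union_left.trans ((ρ₄.con C').subset_cl _)
      · exact (hTcl _ (h0ρ C')).trans ((ρ₄.con C').cl_mono Set.subset_union_right)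
    have h5 : (ρ₄.con C').r T ≤ (ρ₄.con C').r (Set.range x2) := by
      apply (ρ₄.con C').mono
      rintro _ ⟨v, hv, rfl⟩
      exact ⟨_, rfl⟩
    omega
  exact hU4.of_con

end H19PG
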