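import Pool.Agent.H19PG.Main

/-!
# Rank functions of finite matroids (helper file)
-/

set_option linter.unusedSectionVars false

open Module Submodule
open scoped Matroid

namespace H19PG

variable {α : Type*}

/-- the rank of a contraction -/
lemma contract_eRk (M : Matroid α) {C X : Set α} (hC : C ⊆ M.E) (hX : X ⊆ M.E)
    (hd : Disjoint X C) : (M ／ C).eRk X + M.eRk C = M.eRk (X ∪ C) := by
  obtain ⟨I, hI⟩ := M.exists_isBasis C
  have hXC : X ⊆ (M ／ C).E := by
    rw [Matroid.contract_ground]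
    exact fun x hx => ⟨hX hx, Set.disjoint_left.1 hd hx⟩
  obtain ⟨J, hJ⟩ := (M ／ C).exists_isBasis X
  have h1 := hI.contract_indep_iff.1 hJ.indep
  have h2 : M.IsBasis (J ∪ I) (X ∪ C) := by
    refine h1.1.isBasis_of_forall_insert (Set.union_subset_union hJ.subset hI.subset) ?_
    intro e he
    rw [Matroid.Dep, and_comm]
    refine ⟨Set.insert_subset (Set.union_subset hX hC he.1) h1.1.subset_ground, ?_⟩
    intro hind
    rcases he.1 with heX | heC
    · apply he.2
      left
      apply hJ.mem_of_insert_indep heX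
      rw [hI.contract_indep_iff, Set.insert_union]
      refine ⟨hind, ?_⟩
      rw [Set.disjoint_insert_right]
      exact ⟨Set.disjoint_left.1 hd heX, h1.2⟩
    · apply he.2
      right
      apply hI.mem_of_insert_indep heC
      exact hind.subset (Set.insert_subset_insert Set.subset_union_right)
  rw [← hJ.encard_eq_eRk, ← hI.encard_eq_eRk, ← h2.encard_eq_eRk, Set.encard_union_eq]
  exact (h1.2.symm.mono_right hI.subset)

/-- the subset of the ground set that corresponds to a set of `Option M.E` -/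
def toG (M : Matroid α) (X : Set (Option M.E)) : Set α := Subtype.val '' (some ⁻¹' X)

lemma toG_subset (M : Matroid α) (X : Set (Option M.E)) : toG M X ⊆ M.E := by
  rintro _ ⟨a, _, rfl⟩
  exact a.2

lemma mem_toG {M : Matroid α} {X : Set (Option M.E)} {a : α} :
    a ∈ toG M X ↔ ∃ h : a ∈ M.E, some ⟨a, h⟩ ∈ X := by
  constructor
  · rintro ⟨b, hb, rfl⟩
    exact ⟨b.2, hb⟩
  · rintro ⟨h, ha⟩
    exact ⟨⟨a, h⟩, ha, rfl⟩

lemma mem_toG' {M : Matroid α} {X : Set (Option M.E)} {a : α} (h : a ∈ M.E) :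
    a ∈ toG M X ↔ some ⟨a, h⟩ ∈ X := by
  rw [mem_toG]; exact ⟨fun ⟨_, h⟩ => h, fun h' => ⟨h, h'⟩⟩

lemma toG_union (M : Matroid α) (X Y : Set (Option M.E)) :
    toG M (X ∪ Y) = toG M X ∪ toG M Y := by
  rw [toG, Set.preimage_union, Set.image_union]; rfl

lemma toG_inter (M : Matroid α) (X Y : Set (Option M.E)) :
    toG M (X ∩ Y) = toG M X ∩ toG M Y := by
  ext a
  simp only [mem_toG, Set.mem_inter_iff]
  constructor
  · rintro ⟨h, h1, h2⟩; exact ⟨⟨h, h1⟩, ⟨h, h2⟩⟩
  · rintro ⟨⟨h, h1⟩, ⟨_, h2⟩⟩; exact ⟨h, h1, h2⟩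

lemma toG_mono (M : Matroid α) {X Y : Set (Option M.E)} (h : X ⊆ Y) : toG M X ⊆ toG M Y :=
  Set.image_mono (Set.preimage_mono h)

lemma toG_univ (M : Matroid α) : toG M Set.univ = M.E := by
  ext a; simp [mem_toG]

lemma toG_compl (M : Matroid α) (X : Set (Option M.E)) : toG M Xᶜ = M.E \ toG M X := by
  ext a
  simp only [mem_toG, Set.mem_sdiff, Set.mem_compl_iff]
  constructor
  · rintro ⟨h, h1⟩; exact ⟨h, fun ⟨_, h2⟩ => h1 h2⟩
  · rintro ⟨h, h1⟩; exact ⟨h, fun h2 => h1 ⟨h, h2⟩⟩

lemma toG_insert_none (M : Matroid α) (X : Set (Option M.E)) :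
    toG M (insert none X) = toG M X := by
  ext a; simp [mem_toG]

lemma toG_insert_some (M : Matroid α) (X : Set (Option M.E)) (a : M.E) :
    toG M (insert (some a) X) = insert (a : α) (toG M X) := by
  ext b
  simp only [mem_toG, Set.mem_insert_iff, Option.some.injEq]
  constructor
  · rintro ⟨h, h1 | h1⟩
    · left; rw [← h1]
    · right; exact ⟨h, h1⟩
  · rintro (rfl | ⟨h, h1⟩)
    · exact ⟨a.2, Or.inl rfl⟩
    · exact ⟨h, Or.inr h1⟩

/-- the preimage of a set of elements -/
def ofG (M : Matroid α) (X : Set α) : Set (Option M.E) := {x | ∃ a : M.E, x = some a ∧ (a : α) ∈ X}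

lemma toG_ofG (M : Matroid α) {X : Set α} (h : X ⊆ M.E) : toG M (ofG M X) = X := by
  ext a
  simp only [mem_toG, ofG, Set.mem_ofPred_eq]
  constructor
  · rintro ⟨_, b, hb, hbX⟩
    rw [Option.some.injEq] at hb
    rw [← hb] at hbX
    exact hbX
  · intro ha
    exact ⟨h ha, ⟨a, h ha⟩, rfl, ha⟩

section
variable (M : Matroid α) [M.Finite]

lemma eRk_lt_top (X : Set α) : M.eRk X < ⊤ := by
  rw [Matroid.eRk_lt_top_iff]
  exact Matroid.RankFinite.isRkFinite X

/-- the rank function of a finite matroid, on the type `Option M.E`, where `none` is an additional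
loop -/
noncomputable def rf : RF (Option M.E) where
  r X := (M.eRk (toG M X)).toNat
  empty' := by simp [toG]
  mono' := by
    intro X Y h
    exact ENat.toNat_le_toNat (M.eRk_mono (toG_mono M h)) (eRk_lt_top M _).ne
  sub' := by
    intro X Y
    have h1 := M.eRk_inter_add_eRk_union_le (toG M X) (toG M Y)
    rw [← toG_inter, ← toG_union] at h1
    have e : ∀ Z, ((M.eRk (toG M Z)).toNat : ℕ∞) = M.eRk (toG M Z) :=
      fun Z => ENat.natCast_toNat (eRk_lt_top M _).ne
    rw [← e (X ∩ Y), ← e (X ∪ Y), ← e X, ← e Y] at h1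
    have h2 : (M.eRk (toG M (X ∩ Y))).toNat + (M.eRk (toG M (X ∪ Y))).toNat ≤
      (M.eRk (toG M X)).toNat + (M.eRk (toG M Y)).toNat := by exact_mod_cast h1
    omega
  ins' := by
    intro e X
    cases e with
    | none => rw [toG_insert_none]; omega
    | some a =>
      rw [toG_insert_some]
      have h1 := M.eRk_insert_le_add_one (a : α) (toG M X)
      have e : ∀ Z, ((M.eRk Z).toNat : ℕ∞) = M.eRk Z :=
        fun Z => ENat.natCast_toNat (eRk_lt_top M _).ne
      rw [← e (insert (a : α) (toG M X)), ← e (toG M X)] at h1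
      exact_mod_cast h1

lemma rf_r (X : Set (Option M.E)) : (((rf M).r X : ℕ) : ℕ∞) = M.eRk (toG M X) :=
  ENat.natCast_toNat (eRk_lt_top M _).ne

lemma rf_none : (rf M).r {none} = 0 := by
  have h4 : (({none} : Set (Option M.E))) = insert none ∅ := by simp
  have h5 : toG M (insert none ∅) = ∅ := by rw [toG_insert_none]; simp [toG]
  have h6 := rf_r M {none}
  rw [h4, h5, Matroid.eRk_empty] at h6
  rw [h4]
  exact_mod_cast h6

/-- contraction, in terms of rank functions -/
lemma rf_con {C : Set α} (hC : C ⊆ M.E) {X : Set (Option M.E)} (hX : Disjoint (toG M X) C) :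
    ((((rf M).con (ofG M C)).r X : ℕ) : ℕ∞) = (M ／ C).eRk (toG M X) := by
  have h1 := (rf M).con_add (ofG M C) X
  have h2 := contract_eRk M hC (toG_subset M X) hX
  have e1 := rf_r M (X ∪ ofG M C)
  have e2 := rf_r M (ofG M C)
  rw [toG_union, toG_ofG M hC] at e1
  rw [toG_ofG M hC] at e2
  rw [← e1, ← e2, ← h1, Nat.cast_add] at h2
  exact ((ENat.add_left_injective_of_ne_top (ENat.natCast_ne_top _)) h2).symm

end

open scoped LinearAlgebra.Projectivization

section PG

variable {K : Type*} [Field K] [Finite K] {V : Type*} [AddCommGroup V] [Module K V]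
  [FiniteDimensional K V]

/-- the rank function of a projective geometry -/
lemma pg_eRk {N : Matroid α} {f : ℙ K V → α} (hf : Function.Injective f)
    (hind : ∀ T, N.Indep (f '' T) ↔ LinearIndepOn K (fun p : ℙ K V => p.rep) T)
    (hE : Set.range f = N.E) (T : Set (ℙ K V)) :
    N.eRk (f '' T) = finrank K (span K ((fun p : ℙ K V => p.rep) '' T)) := by
  have hV : Finite V := Module.finite_of_finite K
  obtain ⟨T', hT'T, -, hspan, hli⟩ := exists_linearIndepOn_extension (K := K)
    (v := fun p : ℙ K V => p.rep) (linearIndepOn_empty K _) (Set.empty_subset T)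
  have hE' : ∀ S, f '' S ⊆ N.E := fun S => by
    rw [← hE]; exact Set.image_subset_range _ _
  have hbas : N.IsBasis (f '' T') (f '' T) := by
    refine ((hind T').2 hli).isBasis_of_forall_insert (Set.image_mono hT'T) ?_
    rintro _ ⟨⟨p, hp, rfl⟩, hpT'⟩
    rw [← Set.image_insert_eq, Matroid.Dep, hind]
    refine ⟨fun hc => ?_, hE' _⟩
    rw [linearIndepOn_insert (fun h => hpT' ⟨p, h, rfl⟩)] at hc
    exact hc.2 (hspan ⟨p, hp, rfl⟩)
  have hspan' : span K ((fun p : ℙ K V => p.rep) '' T) = span K ((fun p : ℙ K V => p.rep) '' T') :=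
    le_antisymm (span_le.2 hspan) (span_mono (Set.image_mono hT'T))
  have hP : Finite (ℙ K V) := by
    unfold Projectivization
    infer_instance
  have hT'f : Fintype T' := (Set.toFinite T').fintype
  rw [← hbas.encard_eq_eRk, hf.encard_image, hspan']
  have h1 := finrank_span_eq_card hli
  have h2 : Set.range (fun x : T' => (fun p : ℙ K V => p.rep) x) =
      (fun p : ℙ K V => p.rep) '' T' := by
    rw [Set.image_eq_range]
  rw [h2] at h1
  rw [h1, ← Set.coe_fintypeCard]

/-- the linear map that belongs to a minor that is a projective geometry -/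
noncomputable def phi (M : Matroid α) {f : ℙ K V → α} (hfE : ∀ p, f p ∈ M.E) (v : V) :
    Option M.E := by
  classical
  exact if h : v = 0 then none else some ⟨f (Projectivization.mk K v h), hfE _⟩

lemma phi_zero (M : Matroid α) {f : ℙ K V → α} (hfE : ∀ p, f p ∈ M.E) :
    phi M hfE 0 = none := by
  simp [phi]

lemma phi_of_ne (M : Matroid α) {f : ℙ K V → α} (hfE : ∀ p, f p ∈ M.E) {v : V} (hv : v ≠ 0) :
    phi M hfE v = some ⟨f (Projectivization.mk K v hv), hfE _⟩ := by
  simp [phi, hv]

lemma toG_phi (M : Matroid α) {f : ℙ K V → α} (hfE : ∀ p, f p ∈ M.E) (S : Set V) :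
    toG M (phi M hfE '' S) = f '' {p | ∃ v ∈ S, ∃ h : v ≠ 0, p = Projectivization.mk K v h} := by
  ext a
  rw [mem_toG]
  constructor
  · rintro ⟨h, v, hv, hva⟩
    by_cases hv0 : v = 0
    · rw [hv0, phi_zero] at hva
      exact absurd hva (by simp)
    · rw [phi_of_ne M hfE hv0, Option.some.injEq] at hva
      exact ⟨_, ⟨v, hv, hv0, rfl⟩, congrArg Subtype.val hva⟩
  · rintro ⟨_, ⟨v, hv, hv0, rfl⟩, rfl⟩
    exact ⟨hfE _, v, hv, phi_of_ne M hfE hv0⟩

lemma toG_phi_ne (M : Matroid α) {f : ℙ K V → α} (hfE : ∀ p, f p ∈ M.E) :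
    toG M (phi M hfE '' {v | v ≠ 0}) = Set.range f := by
  rw [toG_phi, ← Set.image_univ]
  congr 1
  ext p
  simp only [Set.mem_univ, iff_true]
  exact ⟨p.rep, p.rep_nonzero, p.rep_nonzero, p.mk_rep.symm⟩

lemma toG_phi_range (M : Matroid α) {f : ℙ K V → α} (hfE : ∀ p, f p ∈ M.E) :
    toG M (Set.range (phi M hfE)) = Set.range f := by
  rw [← Set.image_univ, toG_phi, ← Set.image_univ]
  congr 1
  ext p
  simp only [Set.mem_univ, iff_true]
  exact ⟨p.rep, trivial, p.rep_nonzero, p.mk_rep.symm⟩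

lemma span_rep (S : Set V) :
    span K ((fun p : ℙ K V => p.rep) '' {p | ∃ v ∈ S, ∃ h : v ≠ 0, p = Projectivization.mk K v h}) =
      span K S := by
  apply le_antisymm
  · rw [span_le]
    rintro _ ⟨_, ⟨v, hv, hv0, rfl⟩, rfl⟩
    obtain ⟨a, ha⟩ := Projectivization.exists_smul_eq_mk_rep K v hv0
    simp only
    rw [← ha]
    exact Submodule.smul_mem _ _ (subset_span hv)
  · rw [span_le]
    intro v hv
    by_cases hv0 : v = 0
    · rw [hv0]; exact Submodule.zero_mem _
    obtain ⟨a, ha⟩ := Projectivization.exists_smul_eq_mk_rep K v hv0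
    have h1 : v = (a⁻¹ : Kˣ) • (Projectivization.mk K v hv0).rep := by
      rw [← ha, inv_smul_smul]
    rw [h1]
    exact Submodule.smul_mem _ _ (subset_span ⟨_, ⟨v, hv, hv0, rfl⟩, rfl⟩)

section minor

variable (M : Matroid α) [M.Finite] {C D : Set α} (hC : C ⊆ M.E) {f : ℙ K V → α}
  (hf : Function.Injective f)
  (hind : ∀ T, (M ／ C ＼ D).Indep (f '' T) ↔ LinearIndepOn K (fun p : ℙ K V => p.rep) T)
  (hE : Set.range f = (M ／ C ＼ D).E) (hfE : ∀ p, f p ∈ M.E)

include hC hf hind hE

lemma rank_phi (S : Set V) :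
    ((rf M).con (ofG M C)).r (phi M hfE '' S) = finrank K (span K S) := by
  have hsub : toG M (phi M hfE '' S) ⊆ (M ／ C ＼ D).E := by
    rw [toG_phi, ← hE]; exact Set.image_subset_range _ _
  have hdisj : Disjoint (toG M (phi M hfE '' S)) C := by
    rw [Set.disjoint_left]
    intro a ha haC
    have := hsub ha
    rw [Matroid.delete_ground, Matroid.contract_ground] at this
    exact this.1.2 haC
  have h1 := rf_con M hC hdisj
  have h2 : (M ／ C ＼ D).eRk (toG M (phi M hfE '' S)) = (M ／ C).eRk (toG M (phi M hfE '' S)) := by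
    rw [Matroid.delete_eq_restrict]
    exact (M ／ C).restrict_eRk_eq hsub
  rw [← h2, toG_phi, pg_eRk hf hind hE, span_rep] at h1
  exact_mod_cast h1

lemma lmap_phi : LMap K ((rf M).con (ofG M C)) (phi M hfE) where
  zero := by
    have := rank_phi M hC hf hind hE hfE ({0} : Set V)
    rw [Set.image_singleton] at this
    rw [this]
    simp
  lin a b v w := by
    rw [RF.mem_cl]
    have h1 := rank_phi M hC hf hind hE hfE ({v, w} : Set V)
    have h2 := rank_phi M hC hf hind hE hfE (insert (a • v + b • w) {v, w} : Set V)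
    rw [Set.image_insert_eq, Set.image_pair] at h2
    rw [Set.image_pair] at h1
    rw [h1, h2, span_insert_eq_span]
    exact Submodule.add_mem _ (Submodule.smul_mem _ _ (subset_span (by simp)))
      (Submodule.smul_mem _ _ (subset_span (by simp)))

end minor

end PG

/-- a uniform minor -/
lemma exists_minor (M : Matroid α) [M.Finite] (k : ℕ) (h : (rf M).HasU (k + 1)) :
    ∃ N : Matroid α, N ≤m M ∧ N.E.encard = 2 * k ∧ ∀ I ⊆ N.E, N.Indep I ↔ I.encard ≤ k := by
  classical
  obtain ⟨C, x, hx⟩ := h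
  set ρ := rf M with hρ
  have hone : ∀ i, (ρ.con C).r {x i} = 1 := by
    intro i
    have := hx {i}
    simpa using this
  have hnone : ∀ i, x i ≠ none := by
    intro i hi
    have h1 := hone i
    rw [hi] at h1
    have h2 := ρ.con_le C {none}
    have h3 : ρ.r {none} = 0 := rf_none M
    omega
  have hinC : ∀ i, x i ∉ C := by
    intro i hi
    have h1 := hone i
    have h2 := ρ.con_add C {x i}
    rw [Set.singleton_union, Set.insert_eq_of_mem hi] at h2
    omega
  choose y hy using fun i => Option.ne_none_iff_exists'.1 (hnone i)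
  have hxinj : 1 ≤ k → Function.Injective x := by
    intro hk i j hij
    by_contra hne
    have h1 := hx {i, j}
    rw [Finset.card_pair hne, Finset.coe_pair, Set.image_pair, ← hij, Set.pair_eq_singleton,
      hone] at h1
    omega
  have htoG : ∀ A : Set (Fin (2 * (k + 1))), toG M (x '' A) = (fun i => (y i : α)) '' A := by
    intro A
    ext a
    rw [mem_toG]
    constructor
    · rintro ⟨ha, i, hi, hia⟩
      refine ⟨i, hi, ?_⟩
      rw [hy i, Option.some.injEq] at hia
      exact congrArg Subtype.val hia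
    · rintro ⟨i, hi, rfl⟩
      exact ⟨(y i).2, i, hi, hy i⟩
  let e : Fin (2 * k) ↪ Fin (2 * (k + 1)) :=
    ⟨fun i => ⟨i.1 + 1, by have := i.2; omega⟩, by
      intro i j hij
      have := congrArg Fin.val hij
      simp only at this
      apply Fin.ext
      omega⟩
  have he0 : ∀ i, e i ≠ ⟨0, by omega⟩ := by
    intro i hi
    have h1 : i.1 + 1 = 0 := congrArg Fin.val hi
    omega
  set o : Fin (2 * (k + 1)) := ⟨0, by omega⟩ with ho
  set z : Fin (2 * k) → α := fun i => (y (e i) : α) with hz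
  have hk1 : ∀ i : Fin (2 * k), 1 ≤ k := fun i => by have := i.2; omega
  have hzinj : Function.Injective z := by
    intro i j hij
    have h1 : y (e i) = y (e j) := Subtype.ext hij
    have h2 : x (e i) = x (e j) := by rw [hy, hy, h1]
    exact e.injective (hxinj (hk1 i) h2)
  set CM := toG M (C ∪ {x o}) with hCM
  set S := Set.range z with hS
  have hSE : S ⊆ M.E \ CM := by
    rintro _ ⟨i, rfl⟩
    refine ⟨(y (e i)).2, ?_⟩
    rw [hCM, mem_toG' (y (e i)).2]
    rintro (h1 | h1)
    · exact hinC (e i) (by rw [hy]; exact h1)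
    · rw [Set.mem_singleton_iff] at h1
      have h2 : x (e i) = x o := by rw [← h1]; exact hy _
      exact he0 i (hxinj (hk1 i) h2)
  have hN : M ／ CM ＼ ((M ／ CM).E \ S) = (M ／ CM) ↾ S := Matroid.delete_compl hSE
  refine ⟨M ／ CM ＼ ((M ／ CM).E \ S), M.contract_delete_isMinor _ _, ?_, ?_⟩
  · rw [hN, Matroid.restrict_ground_eq, hS, ← Set.image_univ, hzinj.encard_image,
      Set.encard_univ]
    simp
  intro I hI
  rw [hN, Matroid.restrict_ground_eq] at hI
  rw [hN, Matroid.restrict_indep_iff, and_iff_left hI]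
  set J : Finset (Fin (2 * k)) := Finset.univ.filter (fun i => z i ∈ I) with hJ
  have hIJ : I = z '' (J : Set (Fin (2 * k))) := by
    ext a
    constructor
    · intro ha
      obtain ⟨i, rfl⟩ := hI ha
      exact ⟨i, by simpa [hJ] using ha, rfl⟩
    · rintro ⟨i, hi, rfl⟩
      simpa [hJ] using hi
  have hIcard : I.encard = (J.card : ℕ∞) := by
    rw [hIJ, hzinj.encard_image, Set.encard_coe_eq_coe_finsetCard]
  have hCME : CM ⊆ M.E := toG_subset M _
  have hdis : Disjoint I CM := by
    rw [Set.disjoint_left]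
    intro a ha haC
    exact (hSE (hI ha)).2 haC
  have hr := contract_eRk M hCME (hI.trans (hSE.trans Set.sdiff_subset)) hdis
  have h1 : M.eRk CM = ((ρ.r C + 1 : ℕ) : ℕ∞) := by
    rw [hCM, ← rf_r, ← hρ]
    have h2 := ρ.con_add C {x o}
    rw [hone, Set.union_comm] at h2
    rw [← h2, add_comm]
  have h2 : M.eRk (I ∪ CM) = ((min (J.card + 1) (k + 1) + ρ.r C : ℕ) : ℕ∞) := by
    have h3 := hx (insert o (J.map e))
    rw [Finset.card_insert_of_notMem (by
      rw [Finset.mem_map]
      rintro ⟨i, _, hi⟩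
      exact he0 i hi), Finset.card_map] at h3
    have h4 := ρ.con_add C (x '' ((insert o (J.map e) : Finset _) : Set (Fin (2 * (k + 1)))))
    rw [h3] at h4
    rw [h4, rf_r, toG_union, htoG, hCM, toG_union]
    congr 1
    have h5 : toG M {x o} = {(y o : α)} := by
      rw [← Set.image_singleton, htoG, Set.image_singleton]
    rw [h5, Finset.coe_insert, Set.image_insert_eq, Finset.coe_map, Set.image_image, hIJ]
    ext a
    simp only [Set.mem_union, Set.mem_insert_iff, Set.mem_singleton_iff]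
    tauto
  rw [h1, h2] at hr
  have hr' : (M ／ CM).eRk I = ((min J.card k : ℕ) : ℕ∞) := by
    have h3 : ((min (J.card + 1) (k + 1) + ρ.r C : ℕ) : ℕ∞) =
        ((min J.card k : ℕ) : ℕ∞) + ((ρ.r C + 1 : ℕ) : ℕ∞) := by
      norm_cast
      omega
    rw [h3] at hr
    exact (ENat.add_left_injective_of_ne_top (ENat.natCast_ne_top _)) hr
  have hIfin : I.Finite := M.ground_finite.subset (hI.trans (hSE.trans Set.sdiff_subset))
  rw [Matroid.indep_iff_eRk_eq_encard_of_finite hIfin, hr', hIcard]
  norm_cast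
  omega

end H19PG
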