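import Pool.Agent.H19PG.MainSet2
import Pool.Agent.H19PG.Trans

/-!
# The main theorem: the final form for rank functions (helper file)
-/

set_option linter.unusedSectionVars false

open Module Submodule

namespace H19PG

variable {α : Type*} [Finite α]
variable {K₁ K₂ : Type*} [Field K₁] [Field K₂] [Fintype K₁] [Fintype K₂]
variable {V₁ : Type*} [AddCommGroup V₁] [Module K₁ V₁] [FiniteDimensional K₁ V₁]
variable {V₂ : Type*} [AddCommGroup V₂] [Module K₂ V₂] [FiniteDimensional K₂ V₂]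

/-- the order of the separations, and the rank of the second geometry -/
def tF (k q₁ q₂ : ℕ) : ℕ := tA k q₁ q₂ + mB k q₁ q₂

/-- the bound for the rank of the first geometry -/
def bF (k c q₁ q₂ : ℕ) : ℕ :=
  nA k c q₁ q₂ + nA k 0 q₁ q₂ + nA k (mB k q₁ q₂ + c) q₁ q₂ + mB k q₁ q₂ + c + 1

/-- The final form of the main theorem for rank functions. -/
theorem main_three {p : ℕ} (hp2 : (p : K₂) = 0) (hp1 : (p : K₁) ≠ 0) (k c : ℕ)
    (ρ : RF α) (C C₁ C₂ : Set α) (φ₁ : V₁ → α) (φ₂ : V₂ → α)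
    (h₁ : LMap K₁ (ρ.con C₁) φ₁) (h₂ : LMap K₂ (ρ.con C₂) φ₂)
    (h01 : ρ.r {φ₁ 0} = 0) (h02 : ρ.r {φ₂ 0} = 0)
    (hr : bF k c (Fintype.card K₁) (Fintype.card K₂) ≤ (ρ.con (C ∪ C₁)).r (Set.range φ₁))
    (hm : tF k (Fintype.card K₁) (Fintype.card K₂) ≤ (ρ.con (C ∪ C₂)).r (Set.range φ₂))
    (hag : Agree ρ C₁ C₂ (Set.range φ₁) (Set.range φ₂)
      (tF k (Fintype.card K₁) (Fintype.card K₂)))
    (h : (ρ.con C).r (Set.range φ₁) ≤ (ρ.con (C ∪ C₁)).r (Set.range φ₁) + c ∨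
      (ρ.con C).r C₁ + (ρ.con C).r C₂ ≤ (ρ.con C).r (C₁ ∪ C₂) + c ∨
      (bF k c (Fintype.card K₁) (Fintype.card K₂) ≤ (ρ.con (C ∪ C₂)).r (Set.range φ₂) ∧
      ∃ X, (ρ.con (C ∪ C₁)).r (Set.range φ₁ ∩ Xᶜ) = 0 ∧
        (ρ.con (C ∪ C₂)).r (Set.range φ₂ ∩ X) = 0 ∧
        (ρ.con C).r X + (ρ.con C).r Xᶜ ≤ c + (ρ.con C).r Set.univ)) : ρ.HasU k := by
  rw [bF] at hr
  rw [tF] at hag hm
  rcases h with h | h | ⟨hm2, X, hX1, hX2, h⟩
  · exact main_set hp2 hp1 k c ρ C C₁ C₂ φ₁ φ₂ h₁ h₂ h01 h02 h (by omega) (by omega)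
      (hag.le (by omega))
  · exact main_cc hp2 hp1 k c ρ C C₁ C₂ φ₁ φ₂ h₁ h₂ h01 h02 h (by omega) (by omega)
      (by omega) (hag.le (by omega))
  · rw [bF] at hm2
    exact main_kappa hp2 hp1 k c ρ C C₁ C₂ X φ₁ φ₂ h₁ h₂ h01 h02 (by rw [Small, hX1]; omega)
      (by rw [Small, hX2]; omega) h (by omega) (by omega) (hag.le (by omega))

section translation

open scoped LinearAlgebra.Projectivization

variable {β : Type*} (M : Matroid β) [M.Finite]

lemma eRk_eq_rf {S : Set (Option M.E)} {X : Set β} (h : toG M S = X) :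
    M.eRk X = ((rf M).r S : ℕ) := by
  rw [← h, rf_r]

variable {K : Type*} [Field K] [Finite K] {V : Type*} [AddCommGroup V] [Module K V]
  [FiniteDimensional K V]

/-- elements of a projective geometry inside a set that contains none of them -/
lemma rf_range_inter (A : Set (Option M.E)) {f : ℙ K V → β} (hfE : ∀ p, f p ∈ M.E)
    {Y : Set (Option M.E)} (hY : Disjoint (toG M Y) (Set.range f)) :
    ((rf M).con A).r (Set.range (phi M hfE) ∩ Y) = 0 := by
  have h1 : Set.range (phi M hfE) ∩ Y ⊆ {none} := by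
    rintro _ ⟨⟨v, rfl⟩, hv⟩
    by_cases h0 : v = 0
    · rw [h0, phi_zero]; exact Set.mem_singleton _
    · exfalso
      have h5 : f (Projectivization.mk K v h0) ∈ toG M Y := by
        rw [mem_toG]
        refine ⟨hfE _, ?_⟩
        rw [← phi_of_ne M hfE h0]
        exact hv
      exact Set.disjoint_left.1 hY h5 ⟨_, rfl⟩
  have h2 := (rf M).con_le A (Set.range (phi M hfE) ∩ Y)
  have h3 := (rf M).mono h1
  have h4 := rf_none M
  omega

end translation

end H19PG
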