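import Mathlib

/-!
# A functional that does not vanish on any subspace of a small family (helper file)
-/

set_option linter.unusedSectionVars false

open Module Submodule

namespace H19PG

variable {F : Type*} [Field F] {V : Type*} [AddCommGroup V] [Module F V] [FiniteDimensional F V]

lemma exists_indep {ι : Type*} [DecidableEq ι] (s : Finset ι) (Γ : ι → Submodule F V) (n : ℕ)
    (hn : s.card ≤ n) (h : ∀ i ∈ s, n ≤ finrank F (Γ i)) :
    ∃ g : ι → V, (∀ i ∈ s, g i ∈ Γ i) ∧ LinearIndepOn F g (s : Set ι) := by
  induction s using Finset.induction_on with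
  | empty => exact ⟨fun _ => 0, by simp, by simp⟩
  | @insert a s has ih =>
    rw [Finset.card_insert_of_notMem has] at hn
    obtain ⟨g, hg1, hg2⟩ := ih (by omega) (fun i hi => h i (Finset.mem_insert_of_mem hi))
    have h1 : finrank F (span F (g '' (s : Set ι))) < finrank F (Γ a) := by
      have h2 := h a (Finset.mem_insert_self a s)
      have h3 : finrank F (span F (g '' (s : Set ι))) ≤ s.card := by
        classical
        have := finrank_span_finset_le_card (R := F) (s.image g)
        rw [Finset.coe_image] at this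
        exact this.trans Finset.card_image_le
      omega
    obtain ⟨v, hv1, hv2⟩ : ∃ v ∈ Γ a, v ∉ span F (g '' (s : Set ι)) := by
      by_contra hcon
      push Not at hcon
      have : Γ a ≤ span F (g '' (s : Set ι)) := hcon
      have := Submodule.finrank_mono this
      omega
    have himg : Function.update g a v '' (s : Set ι) = g '' (s : Set ι) := by
      apply Set.image_congr
      intro i hi
      have : i ≠ a := by rintro rfl; exact has hi
      simp [this]
    refine ⟨Function.update g a v, ?_, ?_⟩
    · intro i hi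
      by_cases hia : i = a
      · subst hia; simpa using hv1
      · have hi' : i ∈ s := Finset.mem_of_mem_insert_of_ne hi hia
        simpa [hia] using hg1 i hi'
    · rw [Finset.coe_insert]
      apply LinearIndepOn.insert
      · refine hg2.congr ?_
        intro i hi
        have : i ≠ a := by rintro rfl; exact has hi
        simp [this]
      · rw [himg]
        simpa using hv2

lemma exists_functional_of_indep {ι : Type*} {g : ι → V} (hg : LinearIndependent F g) :
    ∃ l : V →ₗ[F] F, ∀ i, l (g i) = 1 := by
  obtain ⟨l, hl⟩ := LinearMap.exists_extend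
    ((Finsupp.linearCombination F (fun _ : ι => (1 : F))) ∘ₗ (hg.repr : _ →ₗ[F] _))
  refine ⟨l, fun i => ?_⟩
  have h1 := LinearMap.congr_fun hl ⟨g i, subset_span ⟨i, rfl⟩⟩
  rw [LinearMap.comp_apply, LinearMap.comp_apply] at h1
  have h2 : (hg.repr : _ →ₗ[F] _) ⟨g i, subset_span ⟨i, rfl⟩⟩ = Finsupp.single i 1 :=
    hg.repr_eq_single i _ rfl
  rw [h2] at h1
  simpa using h1

lemma exists_functional {ι : Type*} [DecidableEq ι] (s : Finset ι) (Γ : ι → Submodule F V)
    (h : ∀ i ∈ s, s.card ≤ finrank F (Γ i)) :
    ∃ l : V →ₗ[F] F, ∀ i ∈ s, ∃ v ∈ Γ i, l v ≠ 0 := by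
  obtain ⟨g, hg1, hg2⟩ := exists_indep s Γ s.card le_rfl h
  obtain ⟨l, hl⟩ := exists_functional_of_indep (g := fun i : (s : Set ι) => g i) hg2
  refine ⟨l, fun i hi => ⟨g i, hg1 i hi, ?_⟩⟩
  rw [hl ⟨i, hi⟩]
  exact one_ne_zero

end H19PG
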