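import Pool.Agent.H19PG.Lin
import Pool.Agent.H19PG.Func

/-!
# A generic set of size `k` gives a `U_{k,2k}`-minor (helper file)
-/

set_option linter.unusedSectionVars false

open Module Submodule

namespace H19PG

variable {α : Type*}

/-- the first `i` elements of a sequence -/
def pre (e : ℕ → α) (i : ℕ) : Set α := e '' Set.Iio i

@[simp] lemma pre_zero (e : ℕ → α) : pre e 0 = ∅ := by simp [pre]

lemma pre_succ (e : ℕ → α) (i : ℕ) : pre e (i + 1) = insert (e i) (pre e i) := by
  ext x
  simp only [pre, Set.mem_image, Set.mem_Iio, Set.mem_insert_iff]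
  constructor
  · rintro ⟨j, hj, rfl⟩
    rcases Nat.lt_succ_iff_lt_or_eq.1 hj with h | rfl
    · exact Or.inr ⟨j, h, rfl⟩
    · exact Or.inl rfl
  · rintro (rfl | ⟨j, hj, rfl⟩)
    · exact ⟨i, by omega, rfl⟩
    · exact ⟨j, by omega, rfl⟩

lemma pre_mono (e : ℕ → α) {i j : ℕ} (h : i ≤ j) : pre e i ⊆ pre e j := by
  apply Set.image_mono
  intro x hx
  simp only [Set.mem_Iio] at *
  omega

lemma r_pre_add_le (ρ : RF α) (e : ℕ → α) (X : Set α) (i j : ℕ) :
    ρ.r (X ∪ pre e (i + j)) ≤ ρ.r (X ∪ pre e i) + j := by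
  induction j with
  | zero => simp
  | succ j ih =>
    have h1 : X ∪ pre e (i + (j + 1)) = insert (e (i + j)) (X ∪ pre e (i + j)) := by
      rw [← add_assoc, pre_succ, Set.union_insert]
    rw [h1]
    have := ρ.ins' (e (i + j)) (X ∪ pre e (i + j))
    omega

namespace LMap

variable {F : Type*} [Field F] {V : Type*} [AddCommGroup V] [Module F V] [FiniteDimensional F V]
variable {ρ : RF α} {φ : V → α} [Finite α]

/-- the support of an element of the closure of a full subspace -/
lemma exists_support (h : LMap F ρ φ) {K : Submodule F V} (hK : ρ.r (φ '' K) = finrank F K)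
    {e : α} (he : e ∈ ρ.cl (φ '' K)) :
    ∃ Γ ≤ K, e ∈ ρ.cl (φ '' Γ) ∧ ∀ P ≤ K, e ∈ ρ.cl (φ '' P) → Γ ≤ P := by
  classical
  have hex : ∃ n, ∃ P : Submodule F V, P ≤ K ∧ e ∈ ρ.cl (φ '' P) ∧ finrank F P = n :=
    ⟨_, K, le_rfl, he, rfl⟩
  obtain ⟨Γ, hΓ1, hΓ2, hΓ3⟩ := Nat.find_spec hex
  refine ⟨Γ, hΓ1, hΓ2, ?_⟩
  intro P hP heP
  have h1 : ρ.r (φ '' ((Γ ⊔ P : Submodule F V) : Set V)) = finrank F (Γ ⊔ P : Submodule F V) :=
    h.full_mono hK (sup_le hΓ1 hP)
  have h2 := h.mem_cl_inf h1 hΓ2 heP
  have h3 : Nat.find hex ≤ finrank F (Γ ⊓ P : Submodule F V) :=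
    Nat.find_min' hex ⟨Γ ⊓ P, inf_le_left.trans hΓ1, h2, rfl⟩
  have h4 : Γ ⊓ P = Γ := Submodule.eq_of_le_of_finrank_le inf_le_left (by omega)
  rw [← h4]; exact inf_le_right

end LMap

variable {F : Type*} [Field F] {V : Type*} [AddCommGroup V] [Module F V] [FiniteDimensional F V]

/-- intersection of kernels -/
def ker' (l : ℕ → V →ₗ[F] F) (I : Finset ℕ) : Submodule F V := ⨅ i ∈ I, LinearMap.ker (l i)

lemma mem_ker' {l : ℕ → V →ₗ[F] F} {I : Finset ℕ} {v : V} :
    v ∈ ker' l I ↔ ∀ i ∈ I, l i v = 0 := by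
  simp [ker', Submodule.mem_iInf]

lemma ker'_insert (l : ℕ → V →ₗ[F] F) (I : Finset ℕ) (t : ℕ) :
    ker' l (insert t I) = ker' l I ⊓ LinearMap.ker (l t) := by
  ext v
  simp only [mem_ker', Submodule.mem_inf, LinearMap.mem_ker, Finset.mem_insert, forall_eq_or_imp]
  tauto

lemma ker'_congr {l l' : ℕ → V →ₗ[F] F} {I : Finset ℕ} (h : ∀ i ∈ I, l i = l' i) :
    ker' l I = ker' l' I := by
  ext v
  simp only [mem_ker']
  constructor
  · intro h1 i hi; rw [← h i hi]; exact h1 i hi
  · intro h1 i hi; rw [h i hi]; exact h1 i hi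

lemma finrank_inf_ker (K : Submodule F V) (l : V →ₗ[F] F) :
    finrank F K ≤ finrank F (K ⊓ LinearMap.ker l : Submodule F V) + 1 := by
  have h1 := Submodule.finrank_sup_add_finrank_inf_eq K (LinearMap.ker l)
  have h2 := LinearMap.finrank_range_add_finrank_ker l
  have h3 : finrank F (LinearMap.range l) ≤ 1 := by
    have := Submodule.finrank_le (LinearMap.range l)
    simpa using this
  have h4 := Submodule.finrank_le (K ⊔ LinearMap.ker l)
  omega

lemma finrank_ker' (l : ℕ → V →ₗ[F] F) (I : Finset ℕ) :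
    finrank F V ≤ finrank F (ker' l I) + I.card := by
  induction I using Finset.induction_on with
  | empty =>
    have : ker' l ∅ = ⊤ := by ext v; simp [mem_ker']
    rw [this, finrank_top]; simp
  | @insert a s has ih =>
    rw [ker'_insert, Finset.card_insert_of_notMem has]
    have := finrank_inf_ker (ker' l s) (l a)
    omega

variable {ρ : RF α} {φ : V → α} [Finite α]

/-- the invariant of the construction -/
def Inv (ρ : RF α) (φ : V → α) (e : ℕ → α) (k t : ℕ) (l : ℕ → V →ₗ[F] F) (x : ℕ → V) : Prop :=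
  (∀ i < t, ∀ j < t, l i (x j) = if i = j then 1 else 0) ∧
  (finrank F (ker' l (Finset.range t)) + t ≤ finrank F V) ∧
  ∀ I ⊆ Finset.range t, I.card ≤ k →
    ρ.r (φ '' (ker' l I) ∪ pre e I.card) = finrank F (ker' l I) + I.card

lemma step (h : LMap F ρ φ) (e : ℕ → α) (k N : ℕ)
    (hfull : ρ.r (Set.range φ) = finrank F V)
    (he : pre e k ⊆ ρ.cl (Set.range φ))
    (hgen : ∀ P : Submodule F V, finrank F P ≤ N →
      finrank F P + k ≤ ρ.r (φ '' P ∪ pre e k))
    (t : ℕ) (ht : 2 ^ t + t + 1 ≤ N + 1) (hd : 2 ^ t + 1 + t ≤ finrank F V)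
    (l : ℕ → V →ₗ[F] F) (x : ℕ → V) (hinv : Inv ρ φ e k t l x) :
    ∃ (l' : ℕ → V →ₗ[F] F) (x' : ℕ → V), Inv ρ φ e k (t + 1) l' x' := by
  classical
  obtain ⟨hdual, hdim, hinv⟩ := hinv
  -- prefix genericity
  have hgen' : ∀ i ≤ k, ∀ P : Submodule F V, finrank F P ≤ N →
      ρ.r (φ '' P ∪ pre e i) = finrank F P + i := by
    intro i hi P hP
    have h1 := hgen P hP
    have h2 := r_pre_add_le ρ e (φ '' P) i (k - i)
    rw [Nat.add_sub_cancel' hi] at h2
    have h3 := r_pre_add_le ρ e (φ '' P) 0 i
    rw [zero_add, pre_zero, Set.union_empty] at h3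
    have h4 := h.r_le_finrank P
    omega
  have hrE : ∀ i ≤ k, ρ.r (pre e i) = i := by
    intro i hi
    have h1 := hgen' i hi ⊥ (by simp)
    have h3 := ρ.mono (Set.subset_union_right : pre e i ⊆ φ '' (⊥ : Submodule F V) ∪ pre e i)
    have h4 := r_pre_add_le ρ e ∅ 0 i
    rw [zero_add, pre_zero, Set.union_empty, Set.empty_union, ρ.empty'] at h4
    have h5 := ρ.union_le (φ '' (⊥ : Submodule F V)) (pre e i)
    have h6 := h.r_le_finrank ⊥
    rw [finrank_bot] at h6 h1
    omega
  -- everything has rank at most `d`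
  have hle : ∀ (P : Submodule F V) (i : ℕ), i ≤ k → ρ.r (φ '' P ∪ pre e i) ≤ finrank F V := by
    intro P i hi
    rw [← hfull]
    apply ρ.r_le_of_subset_cl
    apply Set.union_subset
    · exact (Set.image_subset_range φ P).trans (ρ.subset_cl _)
    · exact (pre_mono e hi).trans he
  -- the supports
  have hsupp : ∀ I : Finset ℕ, I ⊆ Finset.range t → I.card < k →
      ∃ Γ : Submodule F V, N < finrank F Γ ∧ ∀ P ≤ ker' l I,
        (¬ Γ ≤ P) → ρ.r (φ '' P ∪ pre e (I.card + 1)) = finrank F P + (I.card + 1) := by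
    intro I hI hIk
    have h1 := hinv I hI hIk.le
    have hEi := hrE I.card hIk.le
    have hfullK : (ρ.con (pre e I.card)).r (φ '' (ker' l I)) = finrank F (ker' l I) := by
      have := ρ.con_add (pre e I.card) (φ '' (ker' l I))
      omega
    have hmem : e I.card ∈ (ρ.con (pre e I.card)).cl (φ '' (ker' l I)) := by
      rw [RF.mem_con_cl, RF.mem_cl_iff_le, ← Set.union_insert, ← pre_succ]
      have h2 := hle (ker' l I) (I.card + 1) hIk
      have h3 := finrank_ker' l I
      omega
    obtain ⟨Γ, hΓ1, hΓ2, hΓ3⟩ := (h.con (pre e I.card)).exists_support hfullK hmem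
    refine ⟨Γ, ?_, ?_⟩
    · by_contra hcon
      push Not at hcon
      have h2 := hgen' (I.card + 1) hIk Γ hcon
      have h3 := hgen' I.card hIk.le Γ hcon
      rw [RF.mem_con_cl, RF.mem_cl, ← Set.union_insert, ← pre_succ] at hΓ2
      omega
    · intro P hP hΓP
      have h2 : e I.card ∉ (ρ.con (pre e I.card)).cl (φ '' P) := fun hc => hΓP (hΓ3 P hP hc)
      have h3 : (ρ.con (pre e I.card)).r (φ '' P) = finrank F P :=
        (h.con (pre e I.card)).full_mono hfullK hP
      have h4 := ρ.con_add (pre e I.card) (φ '' P)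
      rw [RF.mem_con_cl, RF.not_mem_cl, ← Set.union_insert, ← pre_succ] at h2
      omega
  choose! Γ hΓ1 hΓ2 using hsupp
  -- the family of subspaces to be avoided
  let fam : Option (Finset ℕ) → Submodule F V := fun o =>
    match o with
    | none => ker' l (Finset.range t)
    | some I => if I.card < k then Γ I else ⊤
  let s : Finset (Option (Finset ℕ)) := insert none (((Finset.range t).powerset).image some)
  have hs : s.card ≤ 2 ^ t + 1 := by
    refine (Finset.card_insert_le _ _).trans ?_
    refine Nat.succ_le_succ ?_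
    refine Finset.card_image_le.trans ?_
    rw [Finset.card_powerset, Finset.card_range]
  obtain ⟨f, hf⟩ := exists_functional s fam (by
    intro o ho
    refine hs.trans ?_
    rcases o with _ | I
    · have := finrank_ker' l (Finset.range t)
      rw [Finset.card_range] at this
      show _ ≤ finrank F (ker' l (Finset.range t))
      omega
    · have hI : I ⊆ Finset.range t := by
        simp only [s, Finset.mem_insert, Finset.mem_image, Finset.mem_powerset] at ho
        rcases ho with ho | ⟨J, hJ, hJI⟩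
        · exact absurd ho (by simp)
        · have : J = I := by simpa using hJI
          rwa [this] at hJ
      by_cases hc : I.card < k
      · have := hΓ1 I hI hc
        have e1 : fam (some I) = Γ I := if_pos hc
        rw [e1]
        omega
      · have e1 : fam (some I) = ⊤ := if_neg hc
        rw [e1, finrank_top]
        omega)
  obtain ⟨y, hy1, hy2⟩ := hf none (by simp [s])
  have hy1 : y ∈ ker' l (Finset.range t) := hy1
  set z : V := (f y)⁻¹ • y with hz
  have hfz : f z = 1 := by
    rw [hz, map_smul, smul_eq_mul, inv_mul_cancel₀ hy2]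
  have hzker : ∀ i < t, l i z = 0 := by
    intro i hi
    rw [hz, map_smul, mem_ker'.1 hy1 i (Finset.mem_range.2 hi), smul_zero]
  set l' : ℕ → V →ₗ[F] F := Function.update l t f with hl'
  have hl't : l' t = f := by simp [hl']
  have hl'i : ∀ i, i ≠ t → l' i = l i := by intro i hi; simp [hl', hi]
  set x' : ℕ → V := fun j => if j = t then z else x j - f (x j) • z with hx'
  refine ⟨l', x', ?_, ?_, ?_⟩
  · intro i hi j hj
    by_cases hit : i = t
    · subst hit
      rw [hl't]
      by_cases hjt : j = i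
      · subst hjt; simp [hx', hfz]
      · rw [if_neg (fun h => hjt h.symm)]
        simp [hx', hjt, hfz]
    · rw [hl'i i hit]
      have hi' : i < t := by omega
      by_cases hjt : j = t
      · subst hjt
        rw [if_neg hit]
        simp only [hx', if_pos rfl]
        exact hzker i hi'
      · have hj' : j < t := by omega
        simp only [hx', if_neg hjt, map_sub, map_smul, hzker i hi', smul_zero, sub_zero]
        exact hdual i hi' j hj'
  · rw [Finset.range_add_one, ker'_insert, hl't]
    have h1 : ker' l' (Finset.range t) = ker' l (Finset.range t) :=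
      ker'_congr (fun i hi => hl'i i (by rw [Finset.mem_range] at hi; omega))
    rw [h1]
    have h2 : finrank F (ker' l (Finset.range t) ⊓ LinearMap.ker f : Submodule F V) <
        finrank F (ker' l (Finset.range t)) := by
      apply Submodule.finrank_lt_finrank_of_lt
      refine lt_of_le_of_ne inf_le_left ?_
      intro heq
      have : y ∈ ker' l (Finset.range t) ⊓ LinearMap.ker f := by rw [heq]; exact hy1
      exact hy2 (LinearMap.mem_ker.1 this.2)
    omega
  · intro I hI hIk
    by_cases hIt : t ∈ I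
    · obtain ⟨J, hJt, hJI⟩ : ∃ J, t ∉ J ∧ insert t J = I :=
        ⟨I.erase t, by simp, Finset.insert_erase hIt⟩
      subst hJI
      have hJr : J ⊆ Finset.range t := by
        intro j hj
        have h1 := Finset.mem_range.1 (hI (Finset.mem_insert_of_mem hj))
        have h2 : j ≠ t := by rintro rfl; exact hJt hj
        rw [Finset.mem_range]; omega
      rw [Finset.card_insert_of_notMem hJt] at hIk ⊢
      have h1 : ker' l' J = ker' l J :=
        ker'_congr (fun i hi => hl'i i (by rintro rfl; exact hJt hi))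
      rw [ker'_insert, h1, hl't]
      refine hΓ2 J hJr (by omega) _ inf_le_left ?_
      intro hcon
      obtain ⟨v, hv1, hv2⟩ := hf (some J) (by simp [s, hJr])
      have hv1 : v ∈ Γ J := by
        have : fam (some J) = Γ J := if_pos (by omega)
        rwa [this] at hv1
      exact hv2 (LinearMap.mem_ker.1 (hcon hv1).2)
    · have hIr : I ⊆ Finset.range t := by
        intro j hj
        have h1 := Finset.mem_range.1 (hI hj)
        have h2 : j ≠ t := by rintro rfl; exact hIt hj
        rw [Finset.mem_range]; omega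
      have h1 : ker' l' I = ker' l I :=
        ker'_congr (fun i hi => hl'i i (by rintro rfl; exact hIt hi))
      rw [h1]
      exact hinv I hIr hIk

lemma mem_span_of_ker' {t : ℕ} {l : ℕ → V →ₗ[F] F} {x : ℕ → V}
    (hdual : ∀ i < t, ∀ j < t, l i (x j) = if i = j then 1 else 0)
    {J : Finset ℕ} (hJ : J ⊆ Finset.range t) {v : V} (hv : v ∈ ker' l (Finset.range t \ J)) :
    v ∈ ker' l (Finset.range t) ⊔ span F (x '' (J : Set ℕ)) := by
  have h1 : v - ∑ j ∈ J, l j v • x j ∈ ker' l (Finset.range t) := by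
    rw [mem_ker']
    intro i hi
    rw [map_sub, map_sum]
    have hit := Finset.mem_range.1 hi
    have h2 : ∀ j ∈ J, l i (l j v • x j) = if i = j then l j v else 0 := by
      intro j hj
      rw [map_smul, hdual i hit j (Finset.mem_range.1 (hJ hj)), smul_eq_mul, mul_ite, mul_one,
        mul_zero]
    rw [Finset.sum_congr rfl h2, Finset.sum_ite_eq]
    by_cases hiJ : i ∈ J
    · rw [if_pos hiJ, sub_self]
    · rw [if_neg hiJ, sub_zero]
      exact mem_ker'.1 hv i (Finset.mem_sdiff.2 ⟨hi, hiJ⟩)
  have h2 : ∑ j ∈ J, l j v • x j ∈ span F (x '' (J : Set ℕ)) :=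
    Submodule.sum_mem _ (fun j hj => Submodule.smul_mem _ _ (subset_span ⟨j, hj, rfl⟩))
  have h3 := Submodule.add_mem_sup h1 h2
  rwa [sub_add_cancel] at h3

theorem hasU_of_generic (h : LMap F ρ φ) (e : ℕ → α) (k N : ℕ)
    (hfull : ρ.r (Set.range φ) = finrank F V)
    (he : pre e k ⊆ ρ.cl (Set.range φ))
    (hgen : ∀ P : Submodule F V, finrank F P ≤ N →
      finrank F P + k ≤ ρ.r (φ '' P ∪ pre e k))
    (hN : 2 ^ (2 * k) + 2 * k ≤ N) : ρ.HasU k := by
  classical
  rcases Nat.eq_zero_or_pos k with rfl | hk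
  · refine ⟨∅, fun i => i.elim0, ?_⟩
    intro J
    have : J = ∅ := by
      ext i; exact i.elim0
    subst this
    simp [ρ.empty']
  -- everything has rank at most `d`
  have hle : ∀ (P : Submodule F V) (i : ℕ), i ≤ k → ρ.r (φ '' P ∪ pre e i) ≤ finrank F V := by
    intro P i hi
    rw [← hfull]
    apply ρ.r_le_of_subset_cl
    apply Set.union_subset
    · exact (Set.image_subset_range φ P).trans (ρ.subset_cl _)
    · exact (pre_mono e hi).trans he
  have hd : N < finrank F V := by
    by_contra hcon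
    push Not at hcon
    have h1 := hgen ⊤ (by rw [finrank_top]; exact hcon)
    have h2 := hle ⊤ k le_rfl
    rw [finrank_top] at h1
    omega
  have hinv : ∀ t ≤ 2 * k, ∃ (l : ℕ → V →ₗ[F] F) (x : ℕ → V), Inv ρ φ e k t l x := by
    intro t
    induction t with
    | zero =>
      intro _
      have h0 : ∀ l : ℕ → V →ₗ[F] F, ker' l ∅ = ⊤ := by intro l; ext v; simp [mem_ker']
      refine ⟨fun _ => 0, fun _ => 0, ?_, ?_, ?_⟩
      · intro i hi; omega
      · rw [Finset.range_zero, h0, finrank_top]; omega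
      · intro I hI _
        rw [Finset.range_zero, Finset.subset_empty] at hI
        subst hI
        rw [h0, finrank_top, Finset.card_empty, pre_zero, Set.union_empty, add_zero, ← hfull,
          Submodule.top_coe, Set.image_univ]
    | succ t ih =>
      intro ht
      obtain ⟨l, x, hlx⟩ := ih (by omega)
      have h1 : 2 ^ t ≤ 2 ^ (2 * k) := Nat.pow_le_pow_right (by norm_num) (by omega)
      exact step h e k N hfull he hgen t (by omega) (by omega) l x hlx
  obtain ⟨l, x, hdual, hdim, hstar⟩ := hinv (2 * k) le_rfl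
  set K := ker' l (Finset.range (2 * k)) with hK
  let g : Fin (2 * k) → α := fun i => φ (x i)
  refine ⟨φ '' K ∪ pre e k, g, ?_⟩
  -- upper bound for `C`
  have hC : ρ.r (φ '' K ∪ pre e k) + k ≤ finrank F V := by
    have h1 := r_pre_add_le ρ e (φ '' K) 0 k
    rw [zero_add, pre_zero, Set.union_empty] at h1
    have h2 := h.r_le_finrank K
    omega
  -- sets of size at least `k` are spanning
  have hbig : ∀ J : Finset (Fin (2 * k)), k ≤ J.card →
      ρ.r (g '' (J : Set (Fin (2 * k))) ∪ (φ '' K ∪ pre e k)) =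
        finrank F V := by
    intro J hJ
    set J' : Finset ℕ := J.map Fin.valEmbedding with hJ'
    have hJ'r : J' ⊆ Finset.range (2 * k) := by
      intro j hj
      rw [hJ', Finset.mem_map] at hj
      obtain ⟨i, _, rfl⟩ := hj
      rw [Finset.mem_range]; exact i.2
    have himg : g '' (J : Set (Fin (2 * k))) =
        φ '' (x '' (J' : Set ℕ)) := by
      rw [hJ', Finset.coe_map, Set.image_image, Set.image_image]
      rfl
    have hcard : (Finset.range (2 * k) \ J').card ≤ k := by
      rw [Finset.card_sdiff_of_subset hJ'r, Finset.card_range, hJ', Finset.card_map]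
      omega
    have h1 := hstar (Finset.range (2 * k) \ J') Finset.sdiff_subset hcard
    have h2 := finrank_ker' l (Finset.range (2 * k) \ J')
    have h3 : φ '' (ker' l (Finset.range (2 * k) \ J')) ⊆
        ρ.cl (φ '' K ∪ φ '' (x '' (J' : Set ℕ))) := by
      refine (Set.image_mono (fun v hv => mem_span_of_ker' hdual hJ'r hv)).trans ?_
      refine (h.sup_subset_cl _ _).trans (ρ.cl_cl ?_)
      apply Set.union_subset
      · exact Set.subset_union_left.trans (ρ.subset_cl _)
      · exact (h.span_subset_cl _).trans (ρ.cl_mono Set.subset_union_right)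
    have h4 : φ '' (ker' l (Finset.range (2 * k) \ J')) ∪ pre e (Finset.range (2 * k) \ J').card ⊆
        ρ.cl (φ '' (x '' (J' : Set ℕ)) ∪ (φ '' K ∪ pre e k)) := by
      apply Set.union_subset
      · refine h3.trans (ρ.cl_mono ?_)
        intro z; simp only [Set.mem_union]; tauto
      · refine ((pre_mono e hcard).trans ?_).trans (ρ.subset_cl _)
        intro z; simp only [Set.mem_union]; tauto
    have h5 := ρ.r_le_of_subset_cl h4
    rw [himg]
    apply le_antisymm
    · rw [← hfull]
      apply ρ.r_le_of_subset_cl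
      refine Set.union_subset ?_ (Set.union_subset ?_ he)
      · exact (Set.image_subset_range _ _).trans (ρ.subset_cl _)
      · exact (Set.image_subset_range _ _).trans (ρ.subset_cl _)
    · omega
  -- adding elements one at a time
  have hadd : ∀ J J₁ : Finset (Fin (2 * k)), J ⊆ J₁ →
      ρ.r (g '' (J₁ : Set (Fin (2 * k))) ∪ (φ '' K ∪ pre e k)) ≤
      ρ.r (g '' (J : Set (Fin (2 * k))) ∪ (φ '' K ∪ pre e k)) +
        (J₁.card - J.card) := by
    intro J J₁ hJ
    have h1 := ρ.union_le (g '' (J : Set (Fin (2 * k))) ∪ (φ '' K ∪ pre e k))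
      (g '' ((J₁ \ J : Finset (Fin (2 * k))) : Set (Fin (2 * k))))
    have h2 := ρ.r_le_ncard
      (g '' ((J₁ \ J : Finset (Fin (2 * k))) : Set (Fin (2 * k))))
    have h3 := Set.ncard_image_le (f := g)
      (s := ((J₁ \ J : Finset (Fin (2 * k))) : Set (Fin (2 * k)))) (Finset.finite_toSet _)
    rw [Set.ncard_coe_finset, Finset.card_sdiff_of_subset hJ] at h3
    have h4 := ρ.mono (X := g '' (J₁ : Set (Fin (2 * k))) ∪
        (φ '' K ∪ pre e k))
      (Y := g '' (J : Set (Fin (2 * k))) ∪ (φ '' K ∪ pre e k) ∪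
        (g '' ((J₁ \ J : Finset (Fin (2 * k))) : Set (Fin (2 * k))))) (by
      rintro z (⟨i, hi, rfl⟩ | hz)
      · by_cases hiJ : i ∈ J
        · exact Or.inl (Or.inl ⟨i, hiJ, rfl⟩)
        · exact Or.inr ⟨i, by simpa using ⟨hi, hiJ⟩, rfl⟩
      · exact Or.inl (Or.inr hz))
    omega
  have hC' : finrank F V = ρ.r (φ '' K ∪ pre e k) + k := by
    obtain ⟨J₁, -, hJ₁⟩ := Finset.exists_subset_card_eq
      (s := (Finset.univ : Finset (Fin (2 * k)))) (n := k) (by simp; omega)
    have h1 := hbig J₁ hJ₁.ge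
    have h2 := hadd ∅ J₁ (Finset.empty_subset _)
    simp only [Finset.coe_empty, Set.image_empty, Set.empty_union, Finset.card_empty,
      Nat.sub_zero] at h2
    omega
  intro J
  have h0 := ρ.con_add (φ '' K ∪ pre e k) (g '' (J : Set (Fin (2 * k))))
  rcases le_total k J.card with hJ | hJ
  · have h1 := hbig J hJ
    rw [min_eq_right hJ]
    omega
  · rw [min_eq_left hJ]
    obtain ⟨J₁, hJJ₁, -, hJ₁⟩ := Finset.exists_subsuperset_card_eq
      (s := J) (t := Finset.univ) (n := k) (Finset.subset_univ _) hJ (by simp; omega)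
    have h1 := hbig J₁ hJ₁.ge
    have h2 := hadd J J₁ hJJ₁
    have h3 := hadd ∅ J (Finset.empty_subset _)
    simp only [Finset.coe_empty, Set.image_empty, Set.empty_union, Finset.card_empty,
      Nat.sub_zero] at h3
    omega

end H19PG
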