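import Pool.Agent.H19PG.RF

/-!
# Tutte's linking theorem, with both sides preserved (helper file)
-/

set_option linter.unusedSectionVars false

namespace H19PG

namespace RF

variable {α : Type*} [Finite α]

theorem linking (S T : Set α) (hST : Disjoint S T) (n : ℕ) :
    ∀ (m : ℕ) (ρ : RF α) (E : Set α), (E \ (S ∪ T)).ncard = m → S ⊆ E → T ⊆ E →
    (∀ A, S ⊆ A → A ⊆ E → Disjoint A T → n + ρ.r E ≤ ρ.r A + ρ.r (E \ A)) →
    ∃ C, C ⊆ E \ (S ∪ T) ∧ ρ.r (S ∪ C) = ρ.r S + ρ.r C ∧ ρ.r (T ∪ C) = ρ.r T + ρ.r C ∧
      n + ρ.r (S ∪ T ∪ C) ≤ ρ.r S + ρ.r T + ρ.r C := by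
  intro m
  induction m with
  | zero =>
    intro ρ E hm hS hT h
    have hE : E \ (S ∪ T) = ∅ := (Set.ncard_eq_zero (Set.toFinite _)).1 hm
    have hE' : E = S ∪ T :=
      Set.Subset.antisymm (Set.sdiff_eq_empty.1 hE) (Set.union_subset hS hT)
    have h1 := h S subset_rfl hS hST
    have h2 : E \ S = T := by
      rw [hE', Set.union_sdiff_left]
      exact hST.symm.sdiff_eq_left
    rw [h2, hE'] at h1
    refine ⟨∅, Set.empty_subset _, ?_, ?_, ?_⟩
    · simp [ρ.empty']
    · simp [ρ.empty']
    · simpa [ρ.empty'] using h1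
  | succ m ih =>
    intro ρ E hm hS hT h
    obtain ⟨e, heE, heST⟩ : (E \ (S ∪ T)).Nonempty := by
      rw [← Set.ncard_pos (Set.toFinite _)]; omega
    have heS : e ∉ S := fun hc => heST (Or.inl hc)
    have heT : e ∉ T := fun hc => heST (Or.inr hc)
    have hcard : ((E \ {e}) \ (S ∪ T)).ncard = m := by
      have h1 : (E \ {e}) \ (S ∪ T) = (E \ (S ∪ T)) \ {e} := by
        ext x; simp only [Set.mem_sdiff]; tauto
      have hmem : e ∈ E \ (S ∪ T) := ⟨heE, heST⟩
      rw [h1, Set.ncard_sdiff_singleton_of_mem hmem, hm]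
      rfl
    have hS' : S ⊆ E \ {e} := fun x hx => ⟨hS hx, by rintro rfl; exact heS hx⟩
    have hT' : T ⊆ E \ {e} := fun x hx => ⟨hT hx, by rintro rfl; exact heT hx⟩
    have hsub : (E \ {e}) \ (S ∪ T) ⊆ E \ (S ∪ T) := fun x hx => ⟨hx.1.1, hx.2⟩
    by_cases hdel : ∀ A, S ⊆ A → A ⊆ E \ {e} → Disjoint A T →
        n + ρ.r (E \ {e}) ≤ ρ.r A + ρ.r ((E \ {e}) \ A)
    · obtain ⟨C, hC1, hC2, hC3, hC4⟩ := ih ρ (E \ {e}) hcard hS' hT' hdel
      exact ⟨C, hC1.trans hsub, hC2, hC3, hC4⟩
    · push Not at hdel
      obtain ⟨A₀, hA1, hA2, hA3, hA4⟩ := hdel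
      have hEe := ρ.mono (Set.sdiff_subset : E \ {e} ⊆ E)
      have hE1 : insert e (E \ {e}) = E := by
        rw [Set.insert_sdiff_singleton, Set.insert_eq_of_mem heE]
      have heA : e ∉ A₀ := fun hc => (hA2 hc).2 rfl
      -- `e` is not spanned by `S` or by `T`
      have heclS : e ∉ ρ.cl S := by
        intro hc
        have h1 := ρ.cl_mono hA1 hc
        rw [mem_cl] at h1
        have h2 := h (insert e A₀) (hA1.trans (Set.subset_insert _ _))
          (Set.insert_subset heE (hA2.trans Set.sdiff_subset))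
          (by rw [Set.disjoint_insert_left]; exact ⟨heT, hA3⟩)
        have h3 : E \ insert e A₀ = (E \ {e}) \ A₀ := by
          ext x; simp only [Set.mem_sdiff, Set.mem_insert_iff, Set.mem_singleton_iff]; tauto
        rw [h3, h1] at h2
        omega
      have heclT : e ∉ ρ.cl T := by
        intro hc
        have hTA : T ⊆ (E \ {e}) \ A₀ := fun x hx => ⟨hT' hx, fun hxA =>
          Set.disjoint_left.1 hA3 hxA hx⟩
        have h1 := ρ.cl_mono hTA hc
        rw [mem_cl] at h1
        have h2 := h A₀ hA1 (hA2.trans Set.sdiff_subset) hA3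
        have h3 : E \ A₀ = insert e ((E \ {e}) \ A₀) := by
          ext x; simp only [Set.mem_sdiff, Set.mem_insert_iff, Set.mem_singleton_iff]
          constructor
          · intro hx
            by_cases hxe : x = e
            · exact Or.inl hxe
            · exact Or.inr ⟨⟨hx.1, hxe⟩, hx.2⟩
          · rintro (rfl | hx)
            · exact ⟨heE, heA⟩
            · exact ⟨hx.1.1, hx.2⟩
        rw [h3, h1] at h2
        omega
      have hS1 := not_mem_cl.1 heclS
      have hT1 := not_mem_cl.1 heclT
      have he1 : ρ.r {e} = 1 := by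
        have h1 : e ∉ ρ.cl ∅ := fun hc => heclS (ρ.cl_mono (Set.empty_subset _) hc)
        rw [not_mem_cl, ρ.empty'] at h1
        simpa using h1
      obtain ⟨C, hC1, hC2, hC3, hC4⟩ := ih (ρ.con {e}) (E \ {e}) hcard hS' hT' (by
        intro A hB1 hB2 hB3
        by_contra hcon
        push Not at hcon
        have c1 := ρ.con_add {e} (E \ {e})
        have c2 := ρ.con_add {e} A
        have c3 := ρ.con_add {e} ((E \ {e}) \ A)
        rw [Set.union_singleton] at c1 c2 c3
        rw [hE1] at c1
        have heA' : e ∉ A := fun hc => (hB2 hc).2 rfl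
        have u1 := ρ.submod (X := A₀) (Y := insert e A) (U := insert e (A₀ ∪ A)) (I := A₀ ∩ A)
          (by intro x; simp only [Set.mem_union, Set.mem_insert_iff]; tauto)
          Set.inter_subset_left (Set.inter_subset_right.trans (Set.subset_insert _ _))
        have u2 := ρ.submod (X := (E \ {e}) \ A₀) (Y := insert e ((E \ {e}) \ A))
          (U := E \ (A₀ ∩ A)) (I := E \ insert e (A₀ ∪ A))
          (by
            intro x hx
            simp only [Set.mem_union, Set.mem_insert_iff, Set.mem_sdiff, Set.mem_inter_iff,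
              Set.mem_singleton_iff] at *
            tauto)
          (by
            intro x hx
            simp only [Set.mem_union, Set.mem_insert_iff, Set.mem_sdiff,
              Set.mem_singleton_iff] at *
            tauto)
          (by
            intro x hx
            simp only [Set.mem_union, Set.mem_insert_iff, Set.mem_sdiff,
              Set.mem_singleton_iff] at *
            tauto)
        have v1 := h (A₀ ∩ A) (Set.subset_inter hA1 hB1)
          (Set.inter_subset_left.trans (hA2.trans Set.sdiff_subset))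
          (hA3.mono_left Set.inter_subset_left)
        have v2 := h (insert e (A₀ ∪ A)) (hA1.trans (Set.subset_union_left.trans
          (Set.subset_insert _ _)))
          (Set.insert_subset heE (Set.union_subset (hA2.trans Set.sdiff_subset)
            (hB2.trans Set.sdiff_subset)))
          (by rw [Set.disjoint_insert_left]; exact ⟨heT, Set.disjoint_union_left.2 ⟨hA3, hB3⟩⟩)
        omega)
      have d1 := ρ.con_add {e} C
      have d2 := ρ.con_add {e} (S ∪ C)
      have d3 := ρ.con_add {e} (T ∪ C)
      have d4 := ρ.con_add {e} (S ∪ T ∪ C)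
      have d5 := ρ.con_add {e} S
      have d6 := ρ.con_add {e} T
      rw [Set.union_assoc] at d2 d3
      rw [Set.union_assoc (S ∪ T) C {e}] at d4
      rw [Set.union_singleton] at d5 d6
      refine ⟨C ∪ {e}, ?_, ?_, ?_, ?_⟩
      · apply Set.union_subset (hC1.trans hsub)
        rw [Set.singleton_subset_iff]
        exact ⟨heE, heST⟩
      · omega
      · omega
      · omega

end RF

end H19PG
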