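import Pool.Agent.H19PG.Final

/-!
# The main theorem, for rank functions (helper file)
-/

set_option linter.unusedSectionVars false

open Module Submodule

namespace H19PG

variable {α : Type*} [Finite α]

/-- a set of bounded rank in a projective geometry has bounded size -/
lemma LMap.ncard_le {K : Type*} [Field K] [Fintype K] {V : Type*} [AddCommGroup V] [Module K V]
    [FiniteDimensional K V] {ρ : RF α} {φ : V → α} (h : LMap K ρ φ)
    (hfull : ρ.r (Set.range φ) = finrank K V) {X : Set α} (hX : X ⊆ Set.range φ) {d : ℕ}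
    (hd : ρ.r X ≤ d) : X.ncard ≤ Fintype.card K ^ d := by
  have hV : Finite V := Module.finite_of_finite K
  have h1 : φ '' (φ ⁻¹' X) = X := Set.image_preimage_eq_of_subset hX
  have h2 : ρ.r (φ '' ((span K (φ ⁻¹' X) : Submodule K V) : Set V)) = ρ.r X := by
    rw [h.r_span, h1]
  have h3 : ρ.r (φ '' ((⊤ : Submodule K V) : Set V)) = finrank K (⊤ : Submodule K V) := by
    rw [Submodule.top_coe, Set.image_univ, finrank_top]; exact hfull
  have h4 := h.full_mono h3 (le_top : span K (φ ⁻¹' X) ≤ ⊤)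
  have h5 : X.ncard ≤ (φ ⁻¹' X).ncard := by
    conv_lhs => rw [← h1]
    exact Set.ncard_image_le (Set.toFinite _)
  have h6 : (φ ⁻¹' X).ncard ≤ ((span K (φ ⁻¹' X) : Submodule K V) : Set V).ncard :=
    Set.ncard_le_ncard subset_span (Set.toFinite _)
  have h7 : ((span K (φ ⁻¹' X) : Submodule K V) : Set V).ncard =
      Fintype.card K ^ finrank K (span K (φ ⁻¹' X) : Submodule K V) := by
    rw [← Nat.card_coe_set_eq]
    have := Module.natCard_eq_pow_finrank (K := K) (V := (span K (φ ⁻¹' X) : Submodule K V))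
    rw [Nat.card_eq_fintype_card (α := K)] at this
    exact this
  have h8 : Fintype.card K ^ finrank K (span K (φ ⁻¹' X) : Submodule K V) ≤
      Fintype.card K ^ d :=
    Nat.pow_le_pow_right Fintype.card_pos (by omega)
  omega

/-- the bound for `n` -/
def bound (k c q₁ q₂ : ℕ) : ℕ :=
  let u := q₂ ^ n₀ k
  let f := fF k u
  let u₁ := q₁ ^ f
  let c₁ := cB k u₁
  nB k c u₁ * f + (f + c₁ + q₁ ^ (f + c₁) + q₂ ^ (f + c₁)) + (2 * f + c₁ + 1) +
    (nB k f u * n₀ k + f + c₁)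

variable {K₁ K₂ : Type*} [Field K₁] [Field K₂] [Fintype K₁] [Fintype K₂]
variable {V₁ : Type*} [AddCommGroup V₁] [Module K₁ V₁] [FiniteDimensional K₁ V₁]
variable {V₂ : Type*} [AddCommGroup V₂] [Module K₂ V₂] [FiniteDimensional K₂ V₂]

/-- The block lemma for the first geometry. -/
lemma first_block {k c f n : ℕ} {ρ : RF α} (hU : ¬ ρ.HasU k) {C₁ : Set α} {φ₁ : V₁ → α}
    (h₁ : LMap K₁ (ρ.con C₁) φ₁) (hr : (ρ.con C₁).r (Set.range φ₁) = n)
    (hc : ρ.r (Set.range φ₁) ≤ n + c)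
    (hn : nB k c (Fintype.card (Fin f → K₁)) * f ≤ n) :
    ∃ (Q : Set α) (j : (Fin f → K₁) →ₗ[K₁] V₁), Q ⊆ Set.range φ₁ ∧
      ρ.r Q ≤ cB k (Fintype.card (Fin f → K₁)) ∧
      LMap K₁ (ρ.con Q) (fun u => φ₁ (j u)) ∧
      ((ρ.con Q).con C₁).r (Set.range fun u => φ₁ (j u)) = f := by
  obtain ⟨Z, hZ1, hZ2, hZ3, -⟩ := ρ.exists_augment (Set.range φ₁) C₁
  have hUZ : ¬ (ρ.con Z).HasU k := fun hh => hU hh.of_con
  have hZC : (ρ.con Z).con C₁ = ρ.con C₁ := by
    rw [RF.con_con, Set.union_eq_self_of_subset_left hZ1]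
  have hA : (ρ.con Z).r C₁ ≤ c := by
    have h1 := ρ.con_add Z C₁
    rw [Set.union_eq_self_of_subset_right hZ1] at h1
    have h2 := ρ.con_add C₁ (Set.range φ₁)
    omega
  obtain ⟨Q, j, hQ1, hQ2, hQ3, hQ4, hQ5⟩ := block (s := f) hUZ C₁ hA φ₁ (by rwa [hZC])
    (by rw [hZC, hr]; exact hn)
  have hskew : ∀ X ⊆ Set.range φ₁, (ρ.con Z).r X = ρ.r X := by
    intro X hX
    have h1 := ρ.con_add Z X
    have h2 := ρ.conn_mono (P := X) (Q := Z) (P' := Set.range φ₁) (Q' := Z) hX subset_rfl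
    have h3 := ρ.con_le Z X
    omega
  have hx1 : (Set.range fun u => φ₁ (j u)) ⊆ Set.range φ₁ := by
    rintro _ ⟨u, rfl⟩; exact ⟨_, rfl⟩
  refine ⟨Q, j, hQ1, ?_, ?_, ?_⟩
  · rw [← hskew Q hQ1]; exact hQ2
  · have h1 : LMap K₁ (ρ.con (Z ∪ Q)) (fun u => φ₁ (j u)) := by
      rw [← RF.con_con]; exact hQ3
    refine h1.of_con_eq Set.subset_union_right ?_
    have h2 := ρ.con_add Q (Set.range fun u => φ₁ (j u))
    have h3 := (ρ.con Z).con_add Q (Set.range fun u => φ₁ (j u))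
    have h4 := hskew _ (Set.union_subset hx1 hQ1)
    have h5 := hskew Q hQ1
    rw [RF.con_con] at h3
    omega
  · refine Eq.trans ?_ hQ5
    rw [RF.con_con, RF.con_con]
    congr 2
    rw [← Set.union_assoc, Set.union_eq_self_of_subset_left hZ1, Set.union_comm]

/-- The main theorem, in terms of rank functions. -/
theorem main {p : ℕ} (hp2 : (p : K₂) = 0) (hp1 : (p : K₁) ≠ 0) (k c n : ℕ)
    (hn : bound k c (Fintype.card K₁) (Fintype.card K₂) ≤ n)
    (ρ : RF α) (C₁ C₂ : Set α) (φ₁ : V₁ → α) (φ₂ : V₂ → α)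
    (h₁ : LMap K₁ (ρ.con C₁) φ₁) (h₂ : LMap K₂ (ρ.con C₂) φ₂)
    (h0 : ρ.r {φ₂ 0} = 0)
    (hd1 : finrank K₁ V₁ = n + 1) (hd2 : finrank K₂ V₂ = n + 1)
    (hr1 : (ρ.con C₁).r (Set.range φ₁) = n + 1) (hr2 : (ρ.con C₂).r (Set.range φ₂) = n + 1)
    (hc : ρ.r (Set.range φ₁) ≤ n + 1 + c)
    (hE : Disjoint (φ₁ '' {v | v ≠ 0}) (φ₂ '' {v | v ≠ 0}))
    (hint : ∀ X, φ₁ '' {v | v ≠ 0} ⊆ X → Disjoint X (φ₂ '' {v | v ≠ 0}) →
      n + ρ.r Set.univ ≤ ρ.r X + ρ.r Xᶜ) : ρ.HasU k := by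
  by_contra hU
  rw [bound] at hn
  set q₁ := Fintype.card K₁ with hq₁
  set q₂ := Fintype.card K₂ with hq₂
  set u := q₂ ^ n₀ k with hu
  set f := fF k u with hf
  set u₁ := q₁ ^ f with hu₁
  set c₁ := cB k u₁ with hc₁
  have hu' : Fintype.card (Fin (n₀ k) → K₂) = u := by simp [hu, hq₂]
  have hu₁' : Fintype.card (Fin f → K₁) = u₁ := by simp [hu₁, hq₁]
  obtain ⟨Q, j, hQ1, hQ2, hQ3, hQ4⟩ := first_block (f := f) hU h₁ hr1 hc
    (by rw [hu₁']; omega)
  rw [hu₁', ← hc₁] at hQ2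
  set τ := ρ.con Q with hτ
  set ν := τ.con C₂ with hν
  have hUτ : ¬ τ.HasU k := fun hh => hU hh.of_con
  have hCQ₁ : (ρ.con C₁).con Q = τ.con C₁ := by
    rw [hτ, RF.con_con, RF.con_con, Set.union_comm]
  have hCQ₂ : (ρ.con C₂).con Q = ν := by
    rw [hν, hτ, RF.con_con, RF.con_con, Set.union_comm]
  have h₁' : LMap K₁ (τ.con C₁) φ₁ := by rw [← hCQ₁]; exact h₁.con Q
  have h₂' : LMap K₂ ν φ₂ := by rw [← hCQ₂]; exact h₂.con Q
  have hx1 : (Set.range fun u => φ₁ (j u)) ⊆ Set.range φ₁ := by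
    rintro _ ⟨u, rfl⟩; exact ⟨_, rfl⟩
  set E₁ := φ₁ '' {v | v ≠ 0} with hE₁
  set E₂ := φ₂ '' {v | v ≠ 0} with hE₂
  have hE₁r : E₁ ⊆ Set.range φ₁ := Set.image_subset_range _ _
  have hE₂r : E₂ ⊆ Set.range φ₂ := Set.image_subset_range _ _
  -- small sets that contain the block have large connectivity
  have hkey : ∀ A, Small ν (Set.range φ₂) A → (Set.range fun u => φ₁ (j u)) ⊆ A →
      f + τ.r Set.univ ≤ τ.r A + τ.r Aᶜ := by
    intro A hA1 hA2
    by_contra hcon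
    push Not at hcon
    have m1 := τ.minor_conn A C₁ (Set.range φ₁)
    have b1 := h₁'.bipart ⊤ A
    rw [Submodule.top_coe, Set.image_univ] at b1
    have x1le : f ≤ (τ.con C₁).r (Set.range φ₁ ∩ A) := by
      rw [← hQ4]
      exact (τ.con C₁).mono (Set.subset_inter hx1 hA2)
    have a1 : (τ.con C₁).r (Set.range φ₁ \ A) < f := by
      rcases b1 with b1 | b1 <;> omega
    have m2 := τ.minor_conn A C₂ (Set.range φ₂)
    have b2 := r_diff_of_small h₂' hA1
    have a2 : ν.r (Set.range φ₂ ∩ A) < f := by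
      rw [← hν] at m2
      omega
    have c1 : (E₁ \ A).ncard ≤ q₁ ^ (f + c₁) := by
      refine h₁.ncard_le (by rw [hr1, hd1]) (Set.sdiff_subset.trans hE₁r) ?_
      have g1 := (ρ.con C₁).le_con_add Q (E₁ \ A)
      have g2 := ρ.con_anti (Set.empty_subset C₁) Q
      rw [RF.con_empty] at g2
      rw [hCQ₁] at g1
      have g3 := (τ.con C₁).mono (Set.sdiff_subset_sdiff_left hE₁r : E₁ \ A ⊆ Set.range φ₁ \ A)
      omega
    have c2 : (E₂ ∩ A).ncard ≤ q₂ ^ (f + c₁) := by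
      refine h₂.ncard_le (by rw [hr2, hd2]) (Set.inter_subset_left.trans hE₂r) ?_
      have g1 := (ρ.con C₂).le_con_add Q (E₂ ∩ A)
      have g2 := ρ.con_anti (Set.empty_subset C₂) Q
      rw [RF.con_empty] at g2
      rw [hCQ₂] at g1
      have g3 := ν.mono (Set.inter_subset_inter_left A hE₂r)
      omega
    have hA' := hint ((A ∪ E₁) \ E₂)
      (fun x hx => ⟨Or.inr hx, fun hx2 => Set.disjoint_left.1 hE hx hx2⟩)
      Set.disjoint_sdiff_left
    have r1 : ρ.r ((A ∪ E₁) \ E₂) ≤ ρ.r A + (E₁ \ A).ncard := by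
      have g1 := ρ.mono (X := (A ∪ E₁) \ E₂) (Y := A ∪ (E₁ \ A))
        (by intro x; simp only [Set.mem_union, Set.mem_sdiff]; tauto)
      have g2 := ρ.union_le A (E₁ \ A)
      have g3 := ρ.r_le_ncard (E₁ \ A)
      omega
    have r2 : ρ.r ((A ∪ E₁) \ E₂)ᶜ ≤ ρ.r Aᶜ + (E₂ ∩ A).ncard := by
      have g1 := ρ.mono (X := ((A ∪ E₁) \ E₂)ᶜ) (Y := Aᶜ ∪ (E₂ ∩ A))
        (by intro x; simp only [Set.mem_union, Set.mem_sdiff, Set.mem_compl_iff,
          Set.mem_inter_iff]; tauto)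
      have g2 := ρ.union_le Aᶜ (E₂ ∩ A)
      have g3 := ρ.r_le_ncard (E₂ ∩ A)
      omega
    have r3 := ρ.le_con_add Q A
    have r4 := ρ.le_con_add Q Aᶜ
    have r5 := ρ.con_add Q Set.univ
    rw [Set.univ_union] at r5
    rw [← hτ] at r3 r4 r5
    omega
  -- the rank of the second geometry
  have hνr : n + 1 ≤ ν.r (Set.range φ₂) + c₁ := by
    have g1 := (ρ.con C₂).le_con_add Q (Set.range φ₂)
    have g2 := ρ.con_anti (Set.empty_subset C₂) Q
    rw [RF.con_empty] at g2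
    rw [hCQ₂] at g1
    omega
  -- a free subspace
  obtain ⟨D, hD1, hD2⟩ := exists_free (K := K₁) τ (φ := fun u => φ₁ (j u))
    (Small ν (Set.range φ₂)) (fun A B h1 h2 => h1.mono h2) f (by
      intro A B hA hB hA' hB'
      have hsm : ∀ A, Small ν (Set.range φ₂) A → τ.r A + τ.r Aᶜ ≤ f + τ.r Set.univ →
          ν.r (Set.range φ₂ ∩ A) ≤ f := by
        intro A hA hA'
        have m2 := τ.minor_conn A C₂ (Set.range φ₂)
        have b2 := r_diff_of_small h₂' hA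
        rw [← hν] at m2
        omega
      have g1 := hsm A hA hA'
      have g2 := hsm B hB hB'
      rw [Small, Set.inter_union_distrib_left]
      have g3 := ν.union_le (Set.range φ₂ ∩ A) (Set.range φ₂ ∩ B)
      omega) hkey
  refine hUτ (final hp2 hp1 k u hu' hQ3 h₂' ?_ D hD1 hD2 ?_ ?_)
  · have := ρ.con_le Q {φ₂ 0}
    rw [← hτ] at this
    omega
  · rw [← hf, ← hν]; omega
  · rw [← hf, ← hν]; omega

end H19PG
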