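import Pool.Agent.H19PG.Agree2

/-!
# The main theorem: a set is contracted (helper file)
-/

set_option linter.unusedSectionVars false

open Module Submodule

namespace H19PG

variable {α : Type*} [Finite α]
variable {K₁ K₂ : Type*} [Field K₁] [Field K₂] [Fintype K₁] [Fintype K₂]
variable {V₁ : Type*} [AddCommGroup V₁] [Module K₁ V₁] [FiniteDimensional K₁ V₁]
variable {V₂ : Type*} [AddCommGroup V₂] [Module K₂ V₂] [FiniteDimensional K₂ V₂]

/-- the rank of the first geometry -/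
def nA (k c q₁ q₂ : ℕ) : ℕ :=
  rA k (c + tA k q₁ q₂) q₁ q₂ + rA k c q₁ q₂ + (2 * tA k q₁ q₂ + 1)

/-- the rank of the second geometry -/
def mB (k q₁ q₂ : ℕ) : ℕ := mA k q₁ q₂ + (2 * tA k q₁ q₂ + 1)

/-- A separation whose small side spans the contracted set gives a part of the first geometry
that is nearly a restriction. -/
lemma near_part {σ : RF α} {C C₁ : Set α} {φ₁ : V₁ → α} {t c : ℕ}
    (h₁ : LMap K₁ (σ.con C₁) φ₁) (h0 : σ.r {φ₁ 0} = 0)
    (hc : (σ.con C).r (Set.range φ₁) ≤ (σ.con (C ∪ C₁)).r (Set.range φ₁) + c)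
    {B : Set α} (hB : Small (σ.con C₁) (Set.range φ₁) B)
    (hBt : σ.r B + σ.r Bᶜ ≤ t + σ.r Set.univ) (hCB : C ⊆ σ.cl B) :
    ∃ W : Submodule K₁ V₁, (σ.con C₁).r (Set.range φ₁) ≤ (σ.con C₁).r (φ₁ '' W) + t ∧
      σ.r (φ₁ '' W) ≤ (σ.con C₁).r (φ₁ '' W) + (c + t) := by
  obtain ⟨W, -, hW2, hW3, -⟩ := (h₁.con B).exists_full ⊤
  rw [Submodule.top_coe, Set.image_univ] at hW3
  have hY : φ₁ '' (W : Set V₁) ⊆ Set.range φ₁ := Set.image_subset_range _ _
  refine ⟨W, ?_, ?_⟩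
  · have m1 := σ.minor_conn B C₁ (B ∪ Set.range φ₁)
    have e1 : (B ∪ Set.range φ₁) ∩ B = B := by
      ext x; simp only [Set.mem_inter_iff, Set.mem_union]; tauto
    have e2 : (B ∪ Set.range φ₁) \ B = Set.range φ₁ \ B := by
      ext x; simp only [Set.mem_sdiff, Set.mem_union]; tauto
    rw [e1, e2, r_diff_of_small h₁ hB, Set.union_comm] at m1
    have m2 := (σ.con C₁).con_add B (Set.range φ₁)
    have m3 := (σ.con C₁).con_le B (φ₁ '' W)
    omega
  · -- the nonzero vectors of `W` are outside `B`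
    set Y := φ₁ '' (W : Set V₁) with hYdef
    have hYB : Y \ {φ₁ 0} ⊆ Bᶜ := by
      rintro _ ⟨⟨v, hv, rfl⟩, hv0⟩
      refine not_mem_of_full (h₁.con B) hW2 hv ?_
      rintro rfl
      exact hv0 rfl
    have n1 : σ.r Y ≤ σ.r (Y \ {φ₁ 0}) := by
      have g1 := σ.mono (X := Y) (Y := (Y \ {φ₁ 0}) ∪ {φ₁ 0})
        (by intro x; simp only [Set.mem_union, Set.mem_sdiff]; tauto)
      have g2 := σ.union_le (Y \ {φ₁ 0}) {φ₁ 0}
      omega
    have n2 := σ.conn_mono (P := Y \ {φ₁ 0}) (Q := B) (P' := Bᶜ) (Q' := B) hYB subset_rfl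
    rw [Set.compl_union_self] at n2
    have n3 : σ.r ((Y \ {φ₁ 0}) ∪ B) ≤ (σ.con C).r Y + σ.r B := by
      have g1 := (σ.con C).con_le B (Y \ {φ₁ 0})
      rw [RF.con_con, Set.union_comm, con_eq_of_subset_cl σ hCB] at g1
      have g2 := σ.con_add B (Y \ {φ₁ 0})
      have g3 := (σ.con C).mono (Set.sdiff_subset : Y \ {φ₁ 0} ⊆ Y)
      omega
    have n4 := (σ.con C).conn_mono (P := Y) (Q := C₁) (P' := Set.range φ₁) (Q' := C₁) hY
      subset_rfl
    have n5 := (σ.con C).con_add C₁ Y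
    have n6 := (σ.con C).con_add C₁ (Set.range φ₁)
    rw [RF.con_con] at n5 n6
    have n7 := σ.con_anti (Set.subset_union_right : C₁ ⊆ C ∪ C₁) Y
    omega

/-- The main theorem: the contraction of a set `C` keeps a part of both geometries, and makes
the first one nearly a restriction. -/
theorem main_set {p : ℕ} (hp2 : (p : K₂) = 0) (hp1 : (p : K₁) ≠ 0) (k c : ℕ)
    (ρ : RF α) (C C₁ C₂ : Set α) (φ₁ : V₁ → α) (φ₂ : V₂ → α)
    (h₁ : LMap K₁ (ρ.con C₁) φ₁) (h₂ : LMap K₂ (ρ.con C₂) φ₂)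
    (h01 : ρ.r {φ₁ 0} = 0) (h02 : ρ.r {φ₂ 0} = 0)
    (hc : (ρ.con C).r (Set.range φ₁) ≤ (ρ.con (C ∪ C₁)).r (Set.range φ₁) + c)
    (hr : nA k c (Fintype.card K₁) (Fintype.card K₂) ≤
      (ρ.con (C ∪ C₁)).r (Set.range φ₁))
    (hm : mB k (Fintype.card K₁) (Fintype.card K₂) ≤ (ρ.con (C ∪ C₂)).r (Set.range φ₂))
    (hag : Agree ρ C₁ C₂ (Set.range φ₁) (Set.range φ₂)
      (tA k (Fintype.card K₁) (Fintype.card K₂))) : ρ.HasU k := by
  classical
  rw [nA] at hr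
  rw [mB] at hm
  set q₁ := Fintype.card K₁ with hq₁
  set q₂ := Fintype.card K₂ with hq₂
  set t := tA k q₁ q₂ with ht
  set R₁ := Set.range φ₁ with hR₁
  set R₂ := Set.range φ₂ with hR₂
  -- a maximal subset that can be contracted
  let P : Set (Set α) := {C' | C' ⊆ C ∧ Agree (ρ.con C') C₁ C₂ R₁ R₂ t}
  obtain ⟨C', hC', hmax⟩ := Set.exists_max_image P (fun C => C.ncard) (Set.toFinite P)
    ⟨∅, Set.empty_subset _, by simpa using hag⟩
  obtain ⟨hC'C, hag'⟩ := hC'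
  set σ := ρ.con C' with hσ
  have hσC : σ.con C = ρ.con C := by
    rw [hσ, RF.con_con, Set.union_eq_self_of_subset_left hC'C]
  have hσCC : ∀ D, σ.con (C ∪ D) = ρ.con (C ∪ D) := by
    intro D
    rw [← RF.con_con, hσC, RF.con_con]
  have h₁' : LMap K₁ (σ.con C₁) φ₁ := by
    have : σ.con C₁ = (ρ.con C₁).con C' := by
      rw [hσ, RF.con_con, RF.con_con, Set.union_comm]
    rw [this]; exact h₁.con C'
  have h₂' : LMap K₂ (σ.con C₂) φ₂ := by
    have : σ.con C₂ = (ρ.con C₂).con C' := by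
      rw [hσ, RF.con_con, RF.con_con, Set.union_comm]
    rw [this]; exact h₂.con C'
  have h01' : σ.r {φ₁ 0} = 0 := by
    have := ρ.con_le C' {φ₁ 0}
    rw [← hσ] at this
    omega
  have h02' : σ.r {φ₂ 0} = 0 := by
    have := ρ.con_le C' {φ₂ 0}
    rw [← hσ] at this
    omega
  have hr1 : (ρ.con (C ∪ C₁)).r R₁ ≤ (σ.con C₁).r R₁ := by
    rw [← hσCC]; exact σ.con_anti Set.subset_union_right R₁
  have hr2 : (ρ.con (C ∪ C₂)).r R₂ ≤ (σ.con C₂).r R₂ := by
    rw [← hσCC]; exact σ.con_anti Set.subset_union_right R₂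
  have hc' : (σ.con C).r R₁ ≤ (σ.con (C ∪ C₁)).r R₁ + c := by
    rw [hσC, hσCC]; exact hc
  -- a part of the first geometry that is nearly a restriction suffices
  have hfin : ∀ (W : Submodule K₁ V₁) (c' : ℕ), rA k c' q₁ q₂ ≤ (σ.con C₁).r (φ₁ '' W) →
      σ.r (φ₁ '' W) ≤ (σ.con C₁).r (φ₁ '' W) + c' → ρ.HasU k := by
    intro W c' g1 g2
    refine (main_agree hp2 hp1 k c' σ C₁ C₂ φ₁ φ₂ h₁' h₂' h02' W g1 g2 ?_ hag').of_con
    rw [← hq₁, ← hq₂, ← hR₂]
    omega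
  by_cases hCC : C ⊆ C'
  · have hCeq : C' = C := Set.Subset.antisymm hC'C hCC
    have e1 : σ.con C₁ = ρ.con (C ∪ C₁) := by rw [hσ, RF.con_con, hCeq]
    refine hfin ⊤ c ?_ ?_
    · rw [Submodule.top_coe, Set.image_univ, ← hR₁, e1]; omega
    · rw [Submodule.top_coe, Set.image_univ, ← hR₁, e1, hσ, hCeq]; exact hc
  -- separations from maximality
  have hsep : ∀ e ∈ C, e ∉ C' → ∃ X, Small (σ.con C₁) R₁ X ∧ Small (σ.con C₂) R₂ Xᶜ ∧
      σ.r X + σ.r Xᶜ ≤ t + σ.r Set.univ ∧ e ∈ σ.cl X := by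
    intro e he heC'
    have hnot : insert e C' ∉ P := by
      intro hcon
      have := hmax _ hcon
      rw [Set.ncard_insert_of_notMem heC'] at this
      omega
    have h3 : ¬ Agree (ρ.con (insert e C')) C₁ C₂ R₁ R₂ t := fun hcon =>
      hnot ⟨Set.insert_subset he hC'C, hcon⟩
    have hcon : ρ.con (insert e C') = σ.con {e} := by
      rw [hσ, RF.con_con, Set.union_singleton]
    rw [hcon, Agree] at h3
    push Not at h3
    obtain ⟨X, hX1, hX2, hX3⟩ := h3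
    have hcomm : ∀ D : Set α, (σ.con {e}).con D = (σ.con D).con {e} := by
      intro D
      rw [RF.con_con σ {e} D, RF.con_con σ D {e}, Set.union_comm]
    rw [hcomm] at hX1 hX2
    have s2 : Small (σ.con C₂) R₂ X := hX1.of_con
    have s1 : Small (σ.con C₁) R₁ Xᶜ := hX2.of_con
    have c0 := hag' X s2 s1
    have c1 := σ.con_add {e} X
    have c2 := σ.con_add {e} Xᶜ
    have c3 := σ.con_add {e} Set.univ
    rw [Set.univ_union] at c3
    rw [Set.union_singleton] at c1 c2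
    have c5 : σ.r {e} ≤ 1 := by
      have := σ.r_le_ncard {e}
      rwa [Set.ncard_singleton] at this
    have m1 := σ.mono (Set.subset_insert e X)
    have m2 := σ.mono (Set.subset_insert e Xᶜ)
    refine ⟨Xᶜ, s1, by rw [compl_compl]; exact s2, by rw [compl_compl]; omega, ?_⟩
    rw [RF.mem_cl_iff_le]
    omega
  obtain ⟨e₀, he₀, he₀'⟩ := Set.not_subset.1 hCC
  obtain ⟨X₀, x1, x2, x3, -⟩ := hsep e₀ he₀ he₀'
  obtain ⟨B, hB1, hB2, hB3, hB4⟩ := exists_largest_tight h₁' h₂' (t := t)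
    (by rw [← hR₁]; omega) (by rw [← hR₂]; omega) hag' X₀ x1 x2 x3
  have hCB : C ⊆ σ.cl B := by
    intro e he
    by_cases heC' : e ∈ C'
    · rw [hσ, RF.mem_con_cl]
      exact ρ.subset_cl _ (Or.inr heC')
    · obtain ⟨X, y1, y2, y3, y4⟩ := hsep e he heC'
      exact σ.cl_mono (hB4 X y1 y2 y3) y4
  obtain ⟨W, hW1, hW2⟩ := near_part h₁' h01' hc' hB1 hB3 hCB
  refine hfin W (c + t) ?_ hW2
  rw [← hR₁] at hW1
  omega

end H19PG
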