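import Pool.Agent.H19PG.MainSet

/-!
# The main theorem: four versions (helper file)
-/

set_option linter.unusedSectionVars false

open Module Submodule

namespace H19PG

variable {α : Type*} [Finite α]
variable {K₁ K₂ : Type*} [Field K₁] [Field K₂] [Fintype K₁] [Fintype K₂]
variable {V₁ : Type*} [AddCommGroup V₁] [Module K₁ V₁] [FiniteDimensional K₁ V₁]
variable {V₂ : Type*} [AddCommGroup V₂] [Module K₂ V₂] [FiniteDimensional K₂ V₂]

lemma Agree.symm {ρ : RF α} {C₁ C₂ R₁ R₂ : Set α} {t : ℕ} (h : Agree ρ C₁ C₂ R₁ R₂ t) :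
    Agree ρ C₂ C₁ R₂ R₁ t := by
  intro X h1 h2
  have := h Xᶜ h2 (by rwa [compl_compl])
  rw [compl_compl] at this
  omega

lemma Agree.le {ρ : RF α} {C₁ C₂ R₁ R₂ : Set α} {t t' : ℕ} (h : Agree ρ C₁ C₂ R₁ R₂ t)
    (ht : t' ≤ t) : Agree ρ C₁ C₂ R₁ R₂ t' := by
  intro X h1 h2
  have := h X h1 h2
  omega

/-- passing to a subspace -/
lemma Agree.sub {ρ : RF α} {C₁ C₂ R₂ : Set α} {φ₁ : V₁ → α} {t : ℕ}
    (h₁ : LMap K₁ (ρ.con C₁) φ₁) (h : Agree ρ C₁ C₂ (Set.range φ₁) R₂ t)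
    (W : Submodule K₁ V₁) (hW : t ≤ (ρ.con C₁).r (φ₁ '' W)) :
    Agree ρ C₁ C₂ (φ₁ '' W) R₂ t := by
  intro X h1 h2
  by_contra hcon
  push Not at hcon
  have hns : ¬ Small (ρ.con C₁) (Set.range φ₁) Xᶜ := by
    intro hs
    have := h X h1 hs
    omega
  rw [Small, not_lt] at hns
  have m1 := ρ.minor_conn X C₁ (Set.range φ₁)
  have e1 : Set.range φ₁ ∩ Xᶜ = Set.range φ₁ \ X := rfl
  rw [e1] at hns
  have b1 := h₁.bipart W X
  rcases b1 with b1 | b1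
  · have m2 := (ρ.con C₁).mono
      (Set.inter_subset_inter_left X (Set.image_subset_range φ₁ (W : Set V₁)))
    omega
  · have e2 : φ₁ '' (W : Set V₁) ∩ Xᶜ = φ₁ '' (W : Set V₁) \ X := rfl
    rw [Small, e2] at h2
    omega

/-- local connectivity after a contraction -/
lemma cc_aux (σ : RF α) {D C₁ C₂ : Set α} {c m : ℕ} (hD : D ⊆ C₁)
    (hc : σ.r C₁ + σ.r C₂ ≤ σ.r (C₁ ∪ C₂) + c) (hm : ((σ.con D).con C₂).r C₁ ≤ m) :
    (σ.con D).r C₁ ≤ m + c := by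
  have g1 := (σ.con D).con_add C₂ C₁
  have k1 := σ.con_add D C₁
  have k2 := σ.con_add D C₂
  have k3 := σ.con_add D (C₁ ∪ C₂)
  have e4 : C₁ ∪ D = C₁ := Set.union_eq_self_of_subset_right hD
  have e5 : C₁ ∪ C₂ ∪ D = C₁ ∪ C₂ := by
    rw [Set.union_right_comm, e4]
  rw [e4] at k1
  rw [e5] at k3
  have k4 := σ.union_le C₂ D
  omega

/-- The version in which the two contracted sets have bounded local connectivity. -/
theorem main_cc {p : ℕ} (hp2 : (p : K₂) = 0) (hp1 : (p : K₁) ≠ 0) (k c : ℕ)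
    (ρ : RF α) (C C₁ C₂ : Set α) (φ₁ : V₁ → α) (φ₂ : V₂ → α)
    (h₁ : LMap K₁ (ρ.con C₁) φ₁) (h₂ : LMap K₂ (ρ.con C₂) φ₂)
    (h01 : ρ.r {φ₁ 0} = 0) (h02 : ρ.r {φ₂ 0} = 0)
    (hc : (ρ.con C).r C₁ + (ρ.con C).r C₂ ≤ (ρ.con C).r (C₁ ∪ C₂) + c)
    (hr0 : nA k 0 (Fintype.card K₁) (Fintype.card K₂) ≤ (ρ.con (C ∪ C₁)).r (Set.range φ₁))
    (hr : nA k (mB k (Fintype.card K₁) (Fintype.card K₂) + c) (Fintype.card K₁)
      (Fintype.card K₂) ≤ (ρ.con (C ∪ C₁)).r (Set.range φ₁))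
    (hm : mB k (Fintype.card K₁) (Fintype.card K₂) ≤ (ρ.con (C ∪ C₂)).r (Set.range φ₂))
    (hag : Agree ρ C₁ C₂ (Set.range φ₁) (Set.range φ₂)
      (tA k (Fintype.card K₁) (Fintype.card K₂))) : ρ.HasU k := by
  classical
  have hset := fun (C' : Set α) (c' : ℕ) => main_set hp2 hp1 k c' ρ C' C₁ C₂ φ₁ φ₂ h₁ h₂ h01 h02
  obtain ⟨m, hmdef⟩ : ∃ m, m = mB k (Fintype.card K₁) (Fintype.card K₂) := ⟨_, rfl⟩
  rw [← hmdef] at hm hr
  simp only [← hmdef] at hset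
  clear hmdef
  set R₁ := Set.range φ₁ with hR₁
  set R₂ := Set.range φ₂ with hR₂
  let P : Set (Set α) := {D | D ⊆ C₁ ∧ m ≤ (ρ.con ((C ∪ C₂) ∪ D)).r R₂}
  obtain ⟨D, hD, hmax⟩ := Set.exists_max_image P (fun C => C.ncard) (Set.toFinite P)
    ⟨∅, Set.empty_subset _, by simpa using hm⟩
  obtain ⟨hD1, hD2⟩ := hD
  set ν := ρ.con ((C ∪ C₂) ∪ D) with hν
  have eD : C ∪ D ∪ C₁ = C ∪ C₁ := by
    rw [Set.union_assoc, Set.union_eq_self_of_subset_left hD1]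
  have eD2 : C ∪ D ∪ C₂ = (C ∪ C₂) ∪ D := by
    ext x; simp only [Set.mem_union]; tauto
  by_cases hall : C₁ ⊆ D
  · refine hset (C ∪ D) 0 ?_ ?_ ?_ hag
    · rw [eD, Set.Subset.antisymm hD1 hall]; omega
    · rw [eD]; exact hr0
    · rw [eD2]; exact hD2
  · -- the remaining elements are spanned by the second geometry
    have hspan : C₁ ⊆ ν.cl R₂ := by
      intro e he
      by_cases heD : e ∈ D
      · rw [hν, RF.mem_con_cl]
        exact ρ.subset_cl _ (Or.inr (Or.inr heD))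
      · by_contra hecl
        have hnot : insert e D ∉ P := by
          intro hcon
          have := hmax _ hcon
          rw [Set.ncard_insert_of_notMem heD] at this
          omega
        apply hnot
        refine ⟨Set.insert_subset he hD1, ?_⟩
        have e1 : (C ∪ C₂) ∪ insert e D = ((C ∪ C₂) ∪ D) ∪ {e} := by
          ext x; simp only [Set.mem_union, Set.mem_insert_iff, Set.mem_singleton_iff]; tauto
        rw [e1, ← RF.con_con, ← hν]
        have g1 := ν.con_add {e} R₂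
        have g2 : ν.r {e} ≤ 1 := by
          have := ν.r_le_ncard {e}
          rwa [Set.ncard_singleton] at this
        have g3 := RF.not_mem_cl.1 hecl
        rw [Set.union_singleton] at g1
        omega
    have hνm : ν.r R₂ ≤ m := by
      obtain ⟨e, he, heD⟩ := Set.not_subset.1 hall
      have hnot : insert e D ∉ P := by
        intro hcon
        have := hmax _ hcon
        rw [Set.ncard_insert_of_notMem heD] at this
        omega
      have h3 : ¬ m ≤ (ρ.con ((C ∪ C₂) ∪ insert e D)).r R₂ := fun hcon =>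
        hnot ⟨Set.insert_subset he hD1, hcon⟩
      have e1 : (C ∪ C₂) ∪ insert e D = ((C ∪ C₂) ∪ D) ∪ {e} := by
        ext x; simp only [Set.mem_union, Set.mem_insert_iff, Set.mem_singleton_iff]; tauto
      rw [e1, ← RF.con_con, ← hν] at h3
      have g1 := ν.con_add {e} R₂
      have g2 : ν.r {e} ≤ 1 := by
        have := ν.r_le_ncard {e}
        rwa [Set.ncard_singleton] at this
      have g3 := ν.mono (Set.subset_union_left : R₂ ⊆ R₂ ∪ {e})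
      omega
    have hC1 : ν.r C₁ ≤ m := (ν.r_le_of_subset_cl hspan).trans hνm
    -- the rank of the first contracted set
    have hC1' : (ρ.con (C ∪ D)).r C₁ ≤ m + c := by
      rw [← RF.con_con]
      refine cc_aux (ρ.con C) hD1 hc ?_
      rw [RF.con_con, RF.con_con, ← Set.union_assoc, eD2]
      exact hC1
    refine hset (C ∪ D) (m + c) ?_ ?_ ?_ hag
    · have g1 := (ρ.con (C ∪ D)).le_con_add C₁ R₁
      rw [RF.con_con] at g1
      omega
    · rw [eD]; exact hr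
    · rw [eD2]; exact hD2

/-- the part of the first geometry on the side `X` of a separation -/
lemma exists_side {σ : RF α} {C₁ X : Set α} {φ₁ : V₁ → α} {g : ℕ}
    (h₁ : LMap K₁ (σ.con C₁) φ₁) (hX : Small (σ.con C₁) (Set.range φ₁) Xᶜ)
    (hXg : σ.r X + σ.r Xᶜ ≤ g + σ.r Set.univ) :
    ∃ W : Submodule K₁ V₁, (σ.con C₁).r (Set.range φ₁) ≤ (σ.con C₁).r (φ₁ '' W) + g ∧
      φ₁ '' W \ {φ₁ 0} ⊆ X := by
  have h1 := r_inter_lt h₁ hX (t := g) (by rw [compl_compl]; omega)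
  obtain ⟨W, -, hW2, hW3, -⟩ := (h₁.con (Set.range φ₁ ∩ Xᶜ)).exists_full ⊤
  rw [Submodule.top_coe, Set.image_univ] at hW3
  refine ⟨W, ?_, ?_⟩
  · have g1 := (σ.con C₁).con_le (Set.range φ₁ ∩ Xᶜ) (φ₁ '' W)
    have g2 := (σ.con C₁).le_con_add (Set.range φ₁ ∩ Xᶜ) (Set.range φ₁)
    omega
  · rintro _ ⟨⟨v, hv, rfl⟩, hv0⟩
    have hv0' : v ≠ 0 := by
      rintro rfl
      exact hv0 rfl
    have h2 := not_mem_of_full (h₁.con (Set.range φ₁ ∩ Xᶜ)) hW2 hv hv0'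
    by_contra hcon
    exact h2 ⟨⟨v, rfl⟩, hcon⟩

/-- The version with a separation of bounded order. -/
theorem main_kappa {p : ℕ} (hp2 : (p : K₂) = 0) (hp1 : (p : K₁) ≠ 0) (k g : ℕ)
    (ρ : RF α) (C C₁ C₂ X : Set α) (φ₁ : V₁ → α) (φ₂ : V₂ → α)
    (h₁ : LMap K₁ (ρ.con C₁) φ₁) (h₂ : LMap K₂ (ρ.con C₂) φ₂)
    (h01 : ρ.r {φ₁ 0} = 0) (h02 : ρ.r {φ₂ 0} = 0)
    (hX1 : Small (ρ.con (C ∪ C₁)) (Set.range φ₁) Xᶜ)
    (hX2 : Small (ρ.con (C ∪ C₂)) (Set.range φ₂) X)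
    (hXg : (ρ.con C).r X + (ρ.con C).r Xᶜ ≤ g + (ρ.con C).r Set.univ)
    (hr : nA k g (Fintype.card K₁) (Fintype.card K₂) + g ≤
      (ρ.con (C ∪ C₁)).r (Set.range φ₁))
    (hm : mB k (Fintype.card K₁) (Fintype.card K₂) + g ≤ (ρ.con (C ∪ C₂)).r (Set.range φ₂))
    (hag : Agree ρ C₁ C₂ (Set.range φ₁) (Set.range φ₂)
      (tA k (Fintype.card K₁) (Fintype.card K₂))) : ρ.HasU k := by
  set σ := ρ.con C with hσ
  have e1 : ρ.con (C ∪ C₁) = σ.con C₁ := by rw [hσ, RF.con_con]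
  have e2 : ρ.con (C ∪ C₂) = σ.con C₂ := by rw [hσ, RF.con_con]
  have h₁' : LMap K₁ (σ.con C₁) φ₁ := by
    have : σ.con C₁ = (ρ.con C₁).con C := by
      rw [hσ, RF.con_con, RF.con_con, Set.union_comm]
    rw [this]; exact h₁.con C
  have h₂' : LMap K₂ (σ.con C₂) φ₂ := by
    have : σ.con C₂ = (ρ.con C₂).con C := by
      rw [hσ, RF.con_con, RF.con_con, Set.union_comm]
    rw [this]; exact h₂.con C
  rw [e1] at hX1 hr
  rw [e2] at hX2 hm
  have htn : tA k (Fintype.card K₁) (Fintype.card K₂) ≤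
      nA k g (Fintype.card K₁) (Fintype.card K₂) := by
    rw [nA]; omega
  have hset := fun (V : Type _) (_ : AddCommGroup V) (_ : Module K₁ V)
    (_ : FiniteDimensional K₁ V) (φ : V → α) (C' : Set α) (h : LMap K₁ (ρ.con C₁) φ)
    (h0 : ρ.r {φ 0} = 0) => main_set hp2 hp1 k g ρ C' C₁ C₂ φ φ₂ h h₂ h0 h02
  obtain ⟨m, hmdef⟩ : ∃ m, m = mB k (Fintype.card K₁) (Fintype.card K₂) := ⟨_, rfl⟩
  obtain ⟨n, hndef⟩ : ∃ n, n = nA k g (Fintype.card K₁) (Fintype.card K₂) := ⟨_, rfl⟩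
  obtain ⟨t, htdef⟩ : ∃ t, t = tA k (Fintype.card K₁) (Fintype.card K₂) := ⟨_, rfl⟩
  simp only [← hmdef, ← hndef, ← htdef] at hset hm hr hag htn
  clear hmdef hndef htdef
  obtain ⟨W, hW1, hW2⟩ := exists_side h₁' hX1 hXg
  have hrange : Set.range (fun w : W => φ₁ (W.subtype w)) = φ₁ '' W := by
    ext x; constructor
    · rintro ⟨w, rfl⟩; exact ⟨w, w.2, rfl⟩
    · rintro ⟨w, hw, rfl⟩; exact ⟨⟨w, hw⟩, rfl⟩
  have e3 : C ∪ C₁ ∩ X ∪ C₁ = C ∪ C₁ := by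
    ext x; simp only [Set.mem_union, Set.mem_inter_iff]; tauto
  refine hset W inferInstance inferInstance inferInstance (fun w => φ₁ (W.subtype w))
    (C ∪ (C₁ ∩ X)) (h₁.comp W.subtype) (by simpa using h01) ?_ ?_ ?_ ?_
  · rw [hrange, e3, e1]
    set τ := σ.con (C₁ ∩ X) with hτ
    have e4 : ρ.con (C ∪ C₁ ∩ X) = τ := by rw [hτ, hσ, RF.con_con]
    have e5 : σ.con C₁ = τ.con (C₁ \ X) := by
      rw [hτ, RF.con_con σ (C₁ ∩ X) (C₁ \ X), Set.inter_union_sdiff]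
    rw [e4, e5]
    have g1 := σ.minor_conn X (C₁ ∩ X) Set.univ
    rw [Set.univ_inter, ← hτ, ← Set.compl_eq_univ_sdiff] at g1
    have g2 := τ.conn_mono (P := φ₁ '' W \ {φ₁ 0}) (Q := C₁ \ X) (P' := X) (Q' := Xᶜ) hW2
      (fun x hx => hx.2)
    rw [Set.union_compl_self] at g2
    have g3 := τ.con_add (C₁ \ X) (φ₁ '' W)
    have g4 := τ.mono (X := φ₁ '' W \ {φ₁ 0} ∪ C₁ \ X) (Y := φ₁ '' W ∪ C₁ \ X)
      (Set.union_subset_union_left _ Set.sdiff_subset)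
    have g5 := τ.mono (X := φ₁ '' W) (Y := φ₁ '' W \ {φ₁ 0} ∪ {φ₁ 0})
      (by intro x; simp only [Set.mem_union, Set.mem_sdiff]; tauto)
    have g6 := τ.union_le (φ₁ '' W \ {φ₁ 0}) {φ₁ 0}
    have g7 := σ.con_le (C₁ ∩ X) {φ₁ 0}
    have g8 := ρ.con_le C {φ₁ 0}
    rw [← hσ] at g8
    rw [← hτ] at g7
    omega
  · rw [hrange, e3, e1]
    omega
  · have e6 : ρ.con (C ∪ C₁ ∩ X ∪ C₂) = (σ.con C₂).con (C₁ ∩ X) := by
      rw [hσ, RF.con_con, RF.con_con]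
      congr 1
      ext x; simp only [Set.mem_union, Set.mem_inter_iff]; tauto
    rw [e6]
    have g1 := (σ.con C₂).con_anti (Set.inter_subset_right : C₁ ∩ X ⊆ X) (Set.range φ₂)
    have g2 := (σ.con C₂).con_add X (Set.range φ₂)
    have g3 := σ.minor_conn X C₂ (X ∪ Set.range φ₂)
    have e7 : (X ∪ Set.range φ₂) ∩ X = X := by
      ext x; simp only [Set.mem_inter_iff, Set.mem_union]; tauto
    have e8 : (X ∪ Set.range φ₂) \ X = Set.range φ₂ \ X := by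
      ext x; simp only [Set.mem_sdiff, Set.mem_union]; tauto
    rw [e7, e8, r_diff_of_small h₂' hX2, Set.union_comm] at g3
    omega
  · rw [hrange]
    refine hag.sub h₁ W ?_
    have g1 := ρ.con_anti (Set.subset_union_right : C₁ ⊆ C ∪ C₁) (φ₁ '' W)
    rw [e1] at g1
    omega

end H19PG
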