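import Pool.Agent.H19PG.Four

/-!
# The main theorem for matroids (helper file)
-/

open Module Submodule
open scoped Matroid LinearAlgebra.Projectivization

namespace H19PG.Mat

universe u

/-- `N` is isomorphic to the projective geometry `PG(n, K)`: its elements correspond to the
one-dimensional subspaces of `K ^ (n + 1)`, and a set of elements is independent if and only if
the nonzero vectors chosen from the corresponding subspaces are linearly independent. -/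
def IsPG (K : Type) [Field K] (n : ℕ) {α : Type u} (N : Matroid α) : Prop :=
  ∃ f : ℙ K (Fin (n + 1) → K) → α, Function.Injective f ∧ Set.range f = N.E ∧
    ∀ T : Set (ℙ K (Fin (n + 1) → K)),
      N.Indep (f '' T) ↔ LinearIndepOn K (fun p : ℙ K (Fin (n + 1) → K) => p.rep) T

/-- The minors `N₁` and `N₂` of `M` have disjoint ground sets and are `t`-interconnected in `M`. -/
def Interconnected (t : ℕ) {α : Type u} (M N₁ N₂ : Matroid α) : Prop :=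
  Disjoint N₁.E N₂.E ∧
    ∀ X, N₁.E ⊆ X → X ⊆ M.E \ N₂.E → M.eRank + t ≤ M.eRk X + M.eRk (M.E \ X)

/-- `M` has a minor isomorphic to `U_{k,2k}`. -/
def HasUniformMinor {α : Type u} (M : Matroid α) (k : ℕ) : Prop :=
  ∃ N : Matroid α, N ≤m M ∧ N.E.encard = 2 * k ∧ ∀ I ⊆ N.E, N.Indep I ↔ I.encard ≤ k

/-- The rank `r_M(X ∪ C) - r_M(C)` of `X` in `M / C` is at least `b`. -/
def RankGE {α : Type u} (M : Matroid α) (C X : Set α) (b : ℕ) : Prop :=
  M.eRk C + b ≤ M.eRk (X ∪ C)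

/-- The local connectivity of `X` and `Y` in `M / C` is at most `c`, that is,
`r(X) + r(Y) - r(X ∪ Y) ≤ c` for the rank function `r(Z) = r_M(Z ∪ C) - r_M(C)` of `M / C`. -/
def ConnLE {α : Type u} (M : Matroid α) (C X Y : Set α) (c : ℕ) : Prop :=
  M.eRk (X ∪ C) + M.eRk (Y ∪ C) ≤ M.eRk (X ∪ Y ∪ C) + M.eRk C + c

/-- The main theorem for matroids. -/
theorem main_matroid (k : ℕ) (K₁ K₂ : Type) [Field K₁] [Finite K₁] [Field K₂] [Finite K₂]
    (hchar : ringChar K₁ ≠ ringChar K₂) :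
    ∃ t : ℕ, ∀ c : ℕ, ∃ b : ℕ, ∀ {α : Type u} (M N₁ N₂ : Matroid α)
      (C₁ D₁ C₂ D₂ C : Set α) (n₁ n₂ : ℕ), M.Finite → C₁ ⊆ M.E → C₂ ⊆ M.E → C ⊆ M.E →
      N₁ = M ／ C₁ ＼ D₁ → N₂ = M ／ C₂ ＼ D₂ → IsPG K₁ n₁ N₁ → IsPG K₂ n₂ N₂ →
      Interconnected t M N₁ N₂ → RankGE M (C ∪ C₁) N₁.E b → RankGE M (C ∪ C₂) N₂.E t →
      (ConnLE M C N₁.E C₁ c ∨ ConnLE M C C₁ C₂ c ∨
        (RankGE M (C ∪ C₂) N₂.E b ∧
          ∃ X, N₁.E ⊆ X ∧ X ⊆ M.E \ N₂.E ∧ ConnLE M C X (M.E \ X) c)) →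
      HasUniformMinor M k := by
  have := Fintype.ofFinite K₁
  have := Fintype.ofFinite K₂
  set q₁ := Fintype.card K₁ with hq₁
  set q₂ := Fintype.card K₂ with hq₂
  set t₀ := H19PG.tF (k + 1) q₁ q₂ with ht₀
  refine ⟨t₀ + q₁ ^ t₀ + q₂ ^ t₀, fun c => ⟨H19PG.bF (k + 1) c q₁ q₂, ?_⟩⟩
  rintro α M N₁ N₂ C₁ D₁ C₂ D₂ C n₁ n₂ hMfin hC₁ hC₂ hC hN₁ hN₂ ⟨f₁, hf₁, hE₁, hi₁⟩
    ⟨f₂, hf₂, hE₂, hi₂⟩ ⟨hdis, hint⟩ hb₁ hb₂ hcon
  have hsub₁ : N₁.E ⊆ M.E := by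
    rw [hN₁, Matroid.delete_ground, Matroid.contract_ground]
    exact Set.sdiff_subset.trans Set.sdiff_subset
  have hsub₂ : N₂.E ⊆ M.E := by
    rw [hN₂, Matroid.delete_ground, Matroid.contract_ground]
    exact Set.sdiff_subset.trans Set.sdiff_subset
  have hfE₁ : ∀ p, f₁ p ∈ M.E := fun p => hsub₁ (by rw [← hE₁]; exact ⟨p, rfl⟩)
  have hfE₂ : ∀ p, f₂ p ∈ M.E := fun p => hsub₂ (by rw [← hE₂]; exact ⟨p, rfl⟩)
  have hMfinite : Finite M.E := M.ground_finite.to_subtype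
  rw [hN₁] at hi₁
  rw [hN₂] at hi₂
  have hE₁' : Set.range f₁ = (M ／ C₁ ＼ D₁).E := by rw [hE₁, hN₁]
  have hE₂' : Set.range f₂ = (M ／ C₂ ＼ D₂).E := by rw [hE₂, hN₂]
  have hr₁ := H19PG.rank_phi M hC₁ hf₁ hi₁ hE₁' hfE₁ Set.univ
  have hr₂ := H19PG.rank_phi M hC₂ hf₂ hi₂ hE₂' hfE₂ Set.univ
  rw [span_univ, finrank_top, Set.image_univ] at hr₁ hr₂
  have hchar₂ : ((ringChar K₂ : ℕ) : K₂) = 0 := ringChar.Nat.cast_ringChar
  have hp₁ : Nat.Prime (ringChar K₁) := CharP.char_is_prime K₁ _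
  have hp₂ : Nat.Prime (ringChar K₂) := CharP.char_is_prime K₂ _
  have hchar₁ : ((ringChar K₂ : ℕ) : K₁) ≠ 0 := by
    intro h
    have h1 := (ringChar.spec K₁ (ringChar K₂)).1 h
    exact hchar ((Nat.prime_dvd_prime_iff_eq hp₁ hp₂).1 h1)
  have hL₁ := H19PG.lmap_phi M hC₁ hf₁ hi₁ hE₁' hfE₁
  have hL₂ := H19PG.lmap_phi M hC₂ hf₂ hi₂ hE₂' hfE₂
  have hR₁ : H19PG.toG M (Set.range (H19PG.phi M hfE₁)) = N₁.E := by
    rw [H19PG.toG_phi_range, hE₁]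
  have hR₂ : H19PG.toG M (Set.range (H19PG.phi M hfE₂)) = N₂.E := by
    rw [H19PG.toG_phi_range, hE₂]
  have hA := H19PG.toG_ofG M hC
  have hA₁ := H19PG.toG_ofG M hC₁
  have hA₂ := H19PG.toG_ofG M hC₂
  set φ₁ := H19PG.phi M hfE₁ with hφ₁
  set φ₂ := H19PG.phi M hfE₂ with hφ₂
  set A := H19PG.ofG M C with hAdef
  set A₁ := H19PG.ofG M C₁ with hA₁def
  set A₂ := H19PG.ofG M C₂ with hA₂def
  set ρ := H19PG.rf M with hρ
  have hU : ∀ {S T : Set (Option M.E)} {X Y : Set α}, H19PG.toG M S = X → H19PG.toG M T = Y →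
      H19PG.toG M (S ∪ T) = X ∪ Y := by
    intro S T X Y hS hT
    rw [H19PG.toG_union, hS, hT]
  have he : ∀ {S : Set (Option M.E)} {X : Set α}, H19PG.toG M S = X →
      M.eRk X = (ρ.r S : ℕ) := fun h => H19PG.eRk_eq_rf M h
  have h01 : ρ.r {φ₁ 0} = 0 := by rw [hφ₁, H19PG.phi_zero]; exact H19PG.rf_none M
  have h02 : ρ.r {φ₂ 0} = 0 := by rw [hφ₂, H19PG.phi_zero]; exact H19PG.rf_none M
  refine H19PG.exists_minor M k (H19PG.main_three hchar₂ hchar₁ (k + 1) c ρ A A₁ A₂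
    φ₁ φ₂ hL₁ hL₂ h01 h02 ?_ ?_ ?_ ?_)
  · rw [RankGE, he (hU hA hA₁), he (hU hR₁ (hU hA hA₁))] at hb₁
    have h1 := ρ.con_add (A ∪ A₁) (Set.range φ₁)
    norm_cast at hb₁
    rw [← hq₁, ← hq₂]
    omega
  · rw [RankGE, he (hU hA hA₂), he (hU hR₂ (hU hA hA₂))] at hb₂
    have h1 := ρ.con_add (A ∪ A₂) (Set.range φ₂)
    norm_cast at hb₂
    rw [← hq₁, ← hq₂]
    omega
  · refine H19PG.agree_of_interconnected hL₁ hL₂ hr₁ hr₂ (n := t₀ + q₁ ^ t₀ + q₂ ^ t₀) le_rfl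
      ?_ ?_
    · rw [Set.disjoint_left]
      rintro x ⟨v, hv, rfl⟩ ⟨w, hw, hvw⟩
      rw [hφ₁, hφ₂, H19PG.phi_of_ne M hfE₁ hv, H19PG.phi_of_ne M hfE₂ hw,
        Option.some.injEq] at hvw
      have h1 := congrArg Subtype.val hvw
      refine Set.disjoint_left.1 hdis (show f₁ (Projectivization.mk K₁ v hv) ∈ _ from ?_) ?_
      · rw [← hE₁]; exact ⟨_, rfl⟩
      · rw [← hE₂]; exact ⟨_, h1⟩
    · intro X hX₁ hX₂
      have h1 := hint (H19PG.toG M X) ?_ ?_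
      · have h2 : M.eRank = M.eRk (H19PG.toG M Set.univ) := by
          rw [H19PG.toG_univ, Matroid.eRk_ground]
        rw [h2, ← H19PG.toG_compl, he rfl, he rfl, he rfl] at h1
        norm_cast at h1
        omega
      · rw [← hE₁, ← H19PG.toG_phi_ne M hfE₁]
        exact H19PG.toG_mono M hX₁
      · intro a ha
        refine ⟨H19PG.toG_subset M X ha, fun ha2 => ?_⟩
        rw [← hE₂, ← H19PG.toG_phi_ne M hfE₂] at ha2
        obtain ⟨h, h3⟩ := H19PG.mem_toG.1 ha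
        obtain ⟨_, h4⟩ := H19PG.mem_toG.1 ha2
        exact Set.disjoint_left.1 hX₂ h3 h4
  · rcases hcon with h | h | ⟨hb, X, hX₁, hX₂, h⟩
    · left
      rw [ConnLE, he hA, he (hU hR₁ hA), he (hU hA₁ hA), he (hU (hU hR₁ hA₁) hA)] at h
      norm_cast at h
      have g1 := ρ.con_add A (Set.range φ₁)
      have g2 := ρ.con_add (A ∪ A₁) (Set.range φ₁)
      rw [Set.union_comm A A₁, ← Set.union_assoc] at g2
      rw [Set.union_comm A A₁]
      omega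
    · right; left
      rw [ConnLE, he hA, he (hU hA₁ hA), he (hU hA₂ hA), he (hU (hU hA₁ hA₂) hA)] at h
      norm_cast at h
      have g1 := ρ.con_add A A₁
      have g2 := ρ.con_add A A₂
      have g3 := ρ.con_add A (A₁ ∪ A₂)
      omega
    · right; right
      constructor
      · rw [RankGE, he (hU hA hA₂), he (hU hR₂ (hU hA hA₂))] at hb
        have h1 := ρ.con_add (A ∪ A₂) (Set.range φ₂)
        norm_cast at hb
        rw [← hq₁, ← hq₂]
        omega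
      have hXE : X ⊆ M.E := hX₂.trans Set.sdiff_subset
      have hX := H19PG.toG_ofG M hXE
      set Y := H19PG.ofG M X with hY
      have hXc : H19PG.toG M Yᶜ = M.E \ X := by rw [H19PG.toG_compl, hX]
      refine ⟨Y, ?_, ?_, ?_⟩
      · refine H19PG.rf_range_inter M (A ∪ A₁) hfE₁ ?_
        rw [hXc, hE₁, Set.disjoint_left]
        exact fun a ha ha1 => ha.2 (hX₁ ha1)
      · refine H19PG.rf_range_inter M (A ∪ A₂) hfE₂ ?_
        rw [hX, hE₂, Set.disjoint_left]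
        exact fun a ha ha1 => (hX₂ ha).2 ha1
      · rw [ConnLE, he hA, he (hU hX hA), he (hU hXc hA), he (hU (hU hX hXc) hA)] at h
        norm_cast at h
        have g1 := ρ.con_add A Y
        have g2 := ρ.con_add A Yᶜ
        have g3 := ρ.con_add A Set.univ
        rw [Set.union_compl_self] at h
        omega

end H19PG.Mat
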