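import Pool.Agent.H19PG.RF

/-!
# Many elements in bounded rank: a large subset of rank at most `k` (helper file)
-/

set_option linter.unusedSectionVars false

namespace H19PG

/-- the bound in the covering argument -/
def phb (k m : ℕ) : ℕ → ℕ
  | 0 => m
  | (f + 1) => if f + 1 ≤ k then m else 2 ^ (f + 1 + k) * phb k m f + 1

variable {α : Type*} [Finite α]

lemma RF.hasU_zero (ρ : RF α) : ρ.HasU 0 := by
  refine ⟨∅, fun i => i.elim0, ?_⟩
  intro J
  have : J = ∅ := by
    ext i; exact i.elim0
  subst this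
  simp [ρ.empty']

/-- A uniform family of rank `f + 1` with `f + 1 + k` members contains `U_{k,2k}`. -/
lemma RF.hasU_of_uniform (ρ : RF α) {ι : Type*} [DecidableEq ι] (k g : ℕ) (hkg : k ≤ g)
    (y : ι → α) (S : Finset ι) (hS : g + k ≤ S.card)
    (hu : ∀ S' ⊆ S, ρ.r (y '' (S' : Set ι)) = min S'.card g) : ρ.HasU k := by
  obtain ⟨S₁, hS₁, hc₁⟩ := Finset.exists_subset_card_eq (s := S) (n := g - k) (by omega)
  obtain ⟨S₂, hS₂, hc₂⟩ := Finset.exists_subset_card_eq (s := S \ S₁) (n := 2 * k) (by
    rw [Finset.card_sdiff_of_subset hS₁]; omega)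
  let eq := Finset.equivFinOfCardEq hc₂
  refine ⟨y '' (S₁ : Set ι), fun i => y (eq.symm i), ?_⟩
  intro J
  have h0 := ρ.con_add (y '' (S₁ : Set ι)) ((fun i => y (eq.symm i)) '' (J : Set (Fin (2 * k))))
  set J' : Finset ι := J.map (eq.symm.toEmbedding.trans (Function.Embedding.subtype _)) with hJ'
  have hJ'S : J' ⊆ S \ S₁ := by
    intro i hi
    rw [hJ', Finset.mem_map] at hi
    obtain ⟨j, _, rfl⟩ := hi
    exact hS₂ (eq.symm j).2
  have himg : (fun i => y (eq.symm i)) '' (J : Set (Fin (2 * k))) = y '' (J' : Set ι) := by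
    rw [hJ', Finset.coe_map, Set.image_image]
    rfl
  have hdisj : Disjoint J' S₁ := by
    rw [Finset.disjoint_left]
    intro i hi
    exact (Finset.mem_sdiff.1 (hJ'S hi)).2
  have h1 := hu (J' ∪ S₁) (Finset.union_subset (hJ'S.trans Finset.sdiff_subset) hS₁)
  have h2 := hu S₁ hS₁
  rw [Finset.coe_union, Set.image_union, Finset.card_union_of_disjoint hdisj, hJ',
    Finset.card_map, ← hJ'] at h1
  rw [himg] at h0 ⊢
  omega

lemma RF.ph (k m : ℕ) (ρ : RF α) (hρ : ¬ ρ.HasU k) {ι : Type*} (y : ι → α) (f : ℕ) :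
    ∀ (I : Finset ι), phb k m f ≤ I.card → ρ.r (y '' (I : Set ι)) ≤ f →
      ∃ I' ⊆ I, m ≤ I'.card ∧ ρ.r (y '' (I' : Set ι)) ≤ k := by
  classical
  induction f with
  | zero =>
    intro I hI hr
    exact ⟨I, subset_rfl, hI, by omega⟩
  | succ f ih =>
    intro I hI hr
    rw [phb] at hI
    by_cases hfk : f + 1 ≤ k
    · rw [if_pos hfk] at hI
      exact ⟨I, subset_rfl, hI, by omega⟩
    rw [if_neg hfk] at hI
    have hk : 0 < k := by
      rcases Nat.eq_zero_or_pos k with rfl | h
      · exact absurd ρ.hasU_zero hρ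
      · exact h
    -- a maximal uniform subset
    let P : Finset ι → Prop := fun S => ∀ S' ⊆ S, ρ.r (y '' (S' : Set ι)) = min S'.card (f + 1)
    obtain ⟨S, hSmem, hSmax⟩ : ∃ S ∈ I.powerset.filter P, ∀ S' ∈ I.powerset.filter P,
        S'.card ≤ S.card := by
      apply Finset.exists_max_image
      refine ⟨∅, ?_⟩
      rw [Finset.mem_filter, Finset.mem_powerset]
      refine ⟨Finset.empty_subset _, ?_⟩
      intro S' hS'
      rw [Finset.subset_empty] at hS'
      subst hS'
      simp [ρ.empty']
    rw [Finset.mem_filter, Finset.mem_powerset] at hSmem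
    obtain ⟨hSI, hSP⟩ := hSmem
    have hScard : S.card < f + 1 + k := by
      by_contra hcon
      push Not at hcon
      exact hρ (ρ.hasU_of_uniform k (f + 1) (by omega) y S hcon hSP)
    have hspan : ∀ i ∈ I, ∃ S' ⊆ S, S'.card ≤ f ∧ y i ∈ ρ.cl (y '' (S' : Set ι)) := by
      intro i hi
      by_cases hiS : i ∈ S
      · refine ⟨{i}, Finset.singleton_subset_iff.2 hiS, ?_, ?_⟩
        · rw [Finset.card_singleton]; omega
        · exact ρ.subset_cl _ ⟨i, by simp, rfl⟩
      · have h1 : ¬ P (insert i S) := by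
          intro hP
          have := hSmax (insert i S) (by
            rw [Finset.mem_filter, Finset.mem_powerset]
            exact ⟨Finset.insert_subset hi hSI, hP⟩)
          rw [Finset.card_insert_of_notMem hiS] at this
          omega
        simp only [P] at h1
        push Not at h1
        obtain ⟨S'', hS''1, hS''2⟩ := h1
        have hiS'' : i ∈ S'' := by
          by_contra hc
          exact hS''2 (hSP S'' ((Finset.subset_insert_iff_of_notMem hc).1 hS''1))
        obtain ⟨S', hiS', rfl⟩ : ∃ S', i ∉ S' ∧ insert i S' = S'' :=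
          ⟨S''.erase i, by simp, Finset.insert_erase hiS''⟩
        have hS'S : S' ⊆ S := by
          intro j hj
          have h2 := hS''1 (Finset.mem_insert_of_mem hj)
          rcases Finset.mem_insert.1 h2 with h3 | h3
          · rw [h3] at hj; exact absurd hj hiS'
          · exact h3
        have h2 := hSP S' hS'S
        have h3 : ρ.r (y '' ((insert i S' : Finset ι) : Set ι)) ≤ f + 1 :=
          (ρ.mono (Set.image_mono (by
            exact_mod_cast (Finset.insert_subset hi (hS'S.trans hSI))))).trans hr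
        rw [Finset.card_insert_of_notMem hiS'] at hS''2
        rw [Finset.coe_insert, Set.image_insert_eq] at hS''2 h3
        have h4 := ρ.mono (Set.subset_insert (y i) (y '' (S' : Set ι)))
        have h5 := ρ.ins' (y i) (y '' (S' : Set ι))
        refine ⟨S', hS'S, by omega, ?_⟩
        rw [RF.mem_cl]
        omega
    choose! T hT1 hT2 hT3 using hspan
    obtain ⟨S', hS', hcard⟩ := Finset.exists_lt_card_fiber_of_mul_lt_card_of_maps_to
      (s := I) (t := S.powerset) (f := T) (n := phb k m f)
      (fun i hi => Finset.mem_powerset.2 (hT1 i hi)) (by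
        rw [Finset.card_powerset]
        have h1 : 2 ^ S.card ≤ 2 ^ (f + 1 + k) := Nat.pow_le_pow_right (by norm_num) (by omega)
        have h2 := Nat.mul_le_mul_right (phb k m f) h1
        omega)
    have hne : (I.filter fun x => T x = S').Nonempty := by
      rw [← Finset.card_pos]; omega
    obtain ⟨i₀, hi₀⟩ := hne
    rw [Finset.mem_filter] at hi₀
    have hS'card : S'.card ≤ f := by
      rw [← hi₀.2]; exact hT2 i₀ hi₀.1
    obtain ⟨I', hI'1, hI'2, hI'3⟩ := ih (I.filter fun x => T x = S') hcard.le (by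
      have h1 : y '' ((I.filter fun x => T x = S' : Finset ι) : Set ι) ⊆
          ρ.cl (y '' (S' : Set ι)) := by
        rintro _ ⟨i, hi, rfl⟩
        rw [Finset.mem_coe, Finset.mem_filter] at hi
        rw [← hi.2]
        exact hT3 i hi.1
      have h2 := ρ.r_le_of_subset_cl h1
      have h3 := ρ.r_le_ncard (y '' (S' : Set ι))
      have h4 := Set.ncard_image_le (f := y) (s := (S' : Set ι)) (Finset.finite_toSet _)
      rw [Set.ncard_coe_finset] at h4
      omega)
    exact ⟨I', hI'1.trans (Finset.filter_subset _ _), hI'2, hI'3⟩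

/-- iterated bound, one application for each element of a finite set of positions -/
def phbIter (k m f : ℕ) : ℕ → ℕ
  | 0 => m
  | (n + 1) => phb k (phbIter k m f n) f

lemma RF.ph_iter (k m f : ℕ) (ρ : RF α) (hρ : ¬ ρ.HasU k) {ι U : Type*} [DecidableEq U]
    (y : U → ι → α) (P : Finset U) :
    ∀ (I : Finset ι), phbIter k m f P.card ≤ I.card →
      (∀ u ∈ P, ρ.r (y u '' (I : Set ι)) ≤ f) →
      ∃ I' ⊆ I, m ≤ I'.card ∧ ∀ u ∈ P, ρ.r (y u '' (I' : Set ι)) ≤ k := by
  induction P using Finset.induction_on with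
  | empty =>
    intro I hI _
    exact ⟨I, subset_rfl, hI, by simp⟩
  | @insert a s has ih =>
    intro I hI hr
    rw [Finset.card_insert_of_notMem has, phbIter] at hI
    obtain ⟨I₁, hI₁, hI₁c, hI₁r⟩ := ρ.ph k (phbIter k m f s.card) hρ (y a) f I hI
      (hr a (Finset.mem_insert_self a s))
    obtain ⟨I₂, hI₂, hI₂c, hI₂r⟩ := ih I₁ hI₁c (fun u hu =>
      (ρ.mono (Set.image_mono (by exact_mod_cast hI₁))).trans
        (hr u (Finset.mem_insert_of_mem hu)))
    refine ⟨I₂, hI₂.trans hI₁, hI₂c, ?_⟩
    intro u hu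
    rcases Finset.mem_insert.1 hu with rfl | hu
    · exact (ρ.mono (Set.image_mono (by exact_mod_cast hI₂))).trans hI₁r
    · exact hI₂r u hu

end H19PG
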