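import Mathlib

/-!
# Rank functions (helper file)

An abstract, integer valued matroid rank function on a type, its contractions, and the basic
facts that are used in the proof of the partial result on MP_1d0bfd_co.
-/

set_option linter.unusedSectionVars false

namespace H19PG

/-- An abstract rank function: normalised, monotone, submodular, with unit increase. -/
structure RF (α : Type*) where
  r : Set α → ℕ
  empty' : r ∅ = 0
  mono' : ∀ {X Y : Set α}, X ⊆ Y → r X ≤ r Y
  sub' : ∀ X Y : Set α, r (X ∪ Y) + r (X ∩ Y) ≤ r X + r Y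
  ins' : ∀ (e : α) (X : Set α), r (insert e X) ≤ r X + 1

variable {α : Type*}

namespace RF

@[ext] lemma ext' {ρ σ : RF α} (h : ∀ X, ρ.r X = σ.r X) : ρ = σ := by
  cases ρ; cases σ
  have : (fun X => _) = _ := funext h
  simp only [RF.mk.injEq]
  exact funext h

lemma mono (ρ : RF α) {X Y : Set α} (h : X ⊆ Y) : ρ.r X ≤ ρ.r Y := ρ.mono' h

lemma union_le (ρ : RF α) (X Y : Set α) : ρ.r (X ∪ Y) ≤ ρ.r X + ρ.r Y := by
  have := ρ.sub' X Y; omega

/-- submodularity in a convenient form -/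
lemma submod (ρ : RF α) {X Y U I : Set α} (hU : U ⊆ X ∪ Y) (hI1 : I ⊆ X) (hI2 : I ⊆ Y) :
    ρ.r U + ρ.r I ≤ ρ.r X + ρ.r Y := by
  have h1 := ρ.sub' X Y
  have h2 := ρ.mono hU
  have h3 := ρ.mono (Set.subset_inter hI1 hI2)
  omega

/-- contraction -/
def con (ρ : RF α) (C : Set α) : RF α where
  r X := ρ.r (X ∪ C) - ρ.r C
  empty' := by simp
  mono' := by
    intro X Y h
    have := ρ.mono (Set.union_subset_union_left C h)
    omega
  sub' := by
    intro X Y
    have h1 := ρ.sub' (X ∪ C) (Y ∪ C)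
    have e1 : (X ∪ C) ∪ (Y ∪ C) = X ∪ Y ∪ C := by
      ext x; simp only [Set.mem_union]; tauto
    have e2 : (X ∪ C) ∩ (Y ∪ C) = X ∩ Y ∪ C := by
      ext x; simp only [Set.mem_union, Set.mem_inter_iff]; tauto
    rw [e1, e2] at h1
    have a1 := ρ.mono (Set.subset_union_right : C ⊆ X ∪ Y ∪ C)
    have a2 := ρ.mono (Set.subset_union_right : C ⊆ X ∩ Y ∪ C)
    have a3 := ρ.mono (Set.subset_union_right : C ⊆ X ∪ C)
    have a4 := ρ.mono (Set.subset_union_right : C ⊆ Y ∪ C)
    omega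
  ins' := by
    intro e X
    have h1 := ρ.ins' e (X ∪ C)
    have e1 : insert e X ∪ C = insert e (X ∪ C) := Set.insert_union
    rw [e1]
    have a3 := ρ.mono (Set.subset_union_right : C ⊆ X ∪ C)
    omega

lemma con_r (ρ : RF α) (C X : Set α) : (ρ.con C).r X = ρ.r (X ∪ C) - ρ.r C := rfl

lemma con_add (ρ : RF α) (C X : Set α) : (ρ.con C).r X + ρ.r C = ρ.r (X ∪ C) := by
  have a3 := ρ.mono (Set.subset_union_right : C ⊆ X ∪ C)
  rw [con_r]; omega

lemma con_con (ρ : RF α) (C D : Set α) : (ρ.con C).con D = ρ.con (C ∪ D) := by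
  ext X
  have h1 := ρ.con_add C (X ∪ D)
  have h2 := ρ.con_add C D
  have h3 := ρ.con_add (C ∪ D) X
  have h4 := (ρ.con C).con_add D X
  have e1 : X ∪ D ∪ C = X ∪ (C ∪ D) := by ext x; simp only [Set.mem_union]; tauto
  have e2 : D ∪ C = C ∪ D := Set.union_comm _ _
  rw [e1] at h1
  rw [e2] at h2
  omega

@[simp] lemma con_empty (ρ : RF α) : ρ.con ∅ = ρ := by
  ext X
  simp [con_r, ρ.empty']

lemma con_le (ρ : RF α) (C X : Set α) : (ρ.con C).r X ≤ ρ.r X := by
  have h1 := ρ.con_add C X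
  have h2 := ρ.union_le X C
  omega

lemma le_con_add (ρ : RF α) (C X : Set α) : ρ.r X ≤ (ρ.con C).r X + ρ.r C := by
  rw [con_add]; exact ρ.mono Set.subset_union_left

/-- contracting more decreases the rank -/
lemma con_anti (ρ : RF α) {C D : Set α} (h : C ⊆ D) (X : Set α) :
    (ρ.con D).r X ≤ (ρ.con C).r X := by
  have h1 := ρ.con_add C X
  have h2 := ρ.con_add D X
  have := ρ.submod (X := X ∪ C) (Y := D) (U := X ∪ D) (I := C)
    (by intro x; simp only [Set.mem_union]; tauto) Set.subset_union_right h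
  omega

/-- closure -/
def cl (ρ : RF α) (X : Set α) : Set α := {e | ρ.r (insert e X) = ρ.r X}

lemma mem_cl {ρ : RF α} {e : α} {X : Set α} : e ∈ ρ.cl X ↔ ρ.r (insert e X) = ρ.r X := Iff.rfl

lemma mem_cl_iff_le {ρ : RF α} {e : α} {X : Set α} :
    e ∈ ρ.cl X ↔ ρ.r (insert e X) ≤ ρ.r X := by
  rw [mem_cl]
  have := ρ.mono (Set.subset_insert e X)
  omega

lemma not_mem_cl {ρ : RF α} {e : α} {X : Set α} : e ∉ ρ.cl X ↔ ρ.r (insert e X) = ρ.r X + 1 := by
  rw [mem_cl]
  have := ρ.mono (Set.subset_insert e X)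
  have := ρ.ins' e X
  omega

lemma subset_cl (ρ : RF α) (X : Set α) : X ⊆ ρ.cl X := by
  intro e he
  rw [mem_cl, Set.insert_eq_of_mem he]

lemma cl_mono (ρ : RF α) {X Y : Set α} (h : X ⊆ Y) : ρ.cl X ⊆ ρ.cl Y := by
  intro e he
  rw [mem_cl] at he
  rw [mem_cl_iff_le]
  have := ρ.submod (X := insert e X) (Y := Y) (U := insert e Y) (I := X)
    (by intro x; simp only [Set.mem_union, Set.mem_insert_iff]; tauto) (Set.subset_insert _ _) h
  omega

lemma mem_con_cl {ρ : RF α} {C X : Set α} {e : α} :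
    e ∈ (ρ.con C).cl X ↔ e ∈ ρ.cl (X ∪ C) := by
  rw [mem_cl, mem_cl]
  have h1 := ρ.con_add C X
  have h2 := ρ.con_add C (insert e X)
  rw [Set.insert_union] at h2
  omega

lemma cl_subset_con_cl (ρ : RF α) (C X : Set α) : ρ.cl X ⊆ (ρ.con C).cl X := by
  intro e he
  rw [mem_con_cl]
  exact ρ.cl_mono Set.subset_union_left he

section fin
variable [Finite α]

lemma r_union_of_subset_cl (ρ : RF α) {X Y : Set α} (h : Y ⊆ ρ.cl X) : ρ.r (X ∪ Y) = ρ.r X := by
  have hY : Y.Finite := Set.toFinite Y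
  induction Y, hY using Set.Finite.induction_on with
  | empty => simp
  | @insert a s has hs ih =>
    have h1 := ih (fun x hx => h (Set.mem_insert_of_mem _ hx))
    have h2 : a ∈ ρ.cl (X ∪ s) := ρ.cl_mono Set.subset_union_left (h (Set.mem_insert _ _))
    rw [mem_cl] at h2
    rw [Set.union_insert, h2, h1]

lemma cl_cl (ρ : RF α) {X Y : Set α} (h : Y ⊆ ρ.cl X) : ρ.cl Y ⊆ ρ.cl X := by
  intro e he
  have h1 := ρ.r_union_of_subset_cl h
  have h2 : e ∈ ρ.cl (X ∪ Y) := ρ.cl_mono Set.subset_union_right he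
  rw [mem_cl] at h2
  rw [mem_cl_iff_le]
  have h3 := ρ.mono (X := insert e X) (Y := insert e (X ∪ Y))
    (Set.insert_subset_insert Set.subset_union_left)
  omega

lemma r_cl (ρ : RF α) (X : Set α) : ρ.r (ρ.cl X) = ρ.r X := by
  have h1 := ρ.r_union_of_subset_cl (X := X) (Y := ρ.cl X) subset_rfl
  have h2 := ρ.mono (Set.subset_union_right : ρ.cl X ⊆ X ∪ ρ.cl X)
  have h3 := ρ.mono (ρ.subset_cl X)
  omega

lemma r_le_of_subset_cl (ρ : RF α) {X Y : Set α} (h : Y ⊆ ρ.cl X) : ρ.r Y ≤ ρ.r X := by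
  have h1 := ρ.mono h
  rw [r_cl] at h1
  exact h1

lemma subset_cl_of_r_union_le (ρ : RF α) {X Y : Set α} (h : ρ.r (X ∪ Y) ≤ ρ.r X) :
    Y ⊆ ρ.cl X := by
  intro e he
  rw [mem_cl_iff_le]
  have := ρ.mono (X := insert e X) (Y := X ∪ Y)
    (Set.insert_subset (Or.inr he) Set.subset_union_left)
  omega

/-- extend inside `Y` -/
lemma exists_augment (ρ : RF α) (X Y : Set α) :
    ∃ Z, Z ⊆ Y ∧ ρ.r (X ∪ Z) = ρ.r (X ∪ Y) ∧ ρ.r (X ∪ Z) = ρ.r X + ρ.r Z ∧
      Z.ncard = ρ.r Z := by
  obtain ⟨n, hn⟩ : ∃ n, ρ.r (X ∪ Y) - ρ.r X = n := ⟨_, rfl⟩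
  induction n using Nat.strong_induction_on generalizing X with
  | _ n ih =>
    by_cases h : Y ⊆ ρ.cl X
    · refine ⟨∅, Set.empty_subset _, ?_, ?_, ?_⟩
      · rw [ρ.r_union_of_subset_cl h, Set.union_empty]
      · simp [ρ.empty']
      · simp [ρ.empty']
    · rw [Set.not_subset] at h
      obtain ⟨e, heY, he⟩ := h
      have he' := not_mem_cl.1 he
      have hsub : insert e X ∪ Y = X ∪ Y := by
        ext x; simp only [Set.mem_union, Set.mem_insert_iff]
        constructor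
        · rintro ((rfl | h) | h) <;> tauto
        · tauto
      have hle : ρ.r (insert e X) ≤ ρ.r (X ∪ Y) :=
        ρ.mono (Set.insert_subset (Or.inr heY) Set.subset_union_left)
      obtain ⟨Z, hZ1, hZ2, hZ3, hZ4⟩ := ih (ρ.r (X ∪ Y) - ρ.r (insert e X)) (by omega)
        (insert e X) (by rw [hsub])
      have e1 : X ∪ insert e Z = insert e X ∪ Z := by
        ext x; simp only [Set.mem_union, Set.mem_insert_iff]; tauto
      have h5 := ρ.union_le X (insert e Z)
      have h6 := ρ.ins' e Z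
      have hcard := Set.ncard_insert_le e Z
      have hle2 : ρ.r (insert e Z) ≤ (insert e Z).ncard := by
        have : ∀ W : Set α, ρ.r W ≤ W.ncard := by
          intro W
          have hW : W.Finite := Set.toFinite W
          induction W, hW using Set.Finite.induction_on with
          | empty => simp [ρ.empty']
          | @insert a s has hs ih =>
            rw [Set.ncard_insert_of_notMem has hs]
            have := ρ.ins' a s
            omega
        exact this _
      refine ⟨insert e Z, Set.insert_subset heY hZ1, ?_, ?_, ?_⟩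
      · rw [e1, hZ2, hsub]
      · rw [e1]
        rw [e1] at h5
        omega
      · rw [e1] at h5
        omega

lemma r_le_ncard (ρ : RF α) (W : Set α) : ρ.r W ≤ W.ncard := by
  have hW : W.Finite := Set.toFinite W
  induction W, hW using Set.Finite.induction_on with
  | empty => simp [ρ.empty']
  | @insert a s has hs ih =>
    rw [Set.ncard_insert_of_notMem has hs]
    have := ρ.ins' a s
    omega

/-- a spanning subset of the right size -/
lemma exists_basis (ρ : RF α) (Y : Set α) :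
    ∃ Z, Z ⊆ Y ∧ ρ.r Z = ρ.r Y ∧ Z.ncard = ρ.r Y ∧ Y ⊆ ρ.cl Z := by
  obtain ⟨Z, h1, h2, h3, h4⟩ := ρ.exists_augment ∅ Y
  simp only [Set.empty_union] at h2 h3
  refine ⟨Z, h1, h2, by rw [h4, h2], ?_⟩
  apply ρ.subset_cl_of_r_union_le
  rw [Set.union_eq_self_of_subset_left h1, h2]

end fin

/-- If contracting the smaller set `S` and the larger set `A` gives the same rank on `B`, then it
gives the same rank on all subsets of `B`. -/
lemma con_r_eq_of_eq (ρ : RF α) {S A B X : Set α} (hSA : S ⊆ A) (hX : X ⊆ B)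
    (h : (ρ.con S).r B ≤ (ρ.con A).r B) : (ρ.con S).r X = (ρ.con A).r X := by
  have h1 := ρ.con_anti hSA X
  have h2 := ρ.con_add S X
  have h3 := ρ.con_add A X
  have h4 := ρ.con_add S B
  have h5 := ρ.con_add A B
  have h6 := ρ.submod (X := X ∪ A) (Y := B ∪ S) (U := B ∪ A) (I := X ∪ S)
    (by intro x; simp only [Set.mem_union]; tauto)
    (Set.union_subset_union_right _ hSA) (Set.union_subset_union_left _ hX)
  omega

/-- monotonicity of local connectivity -/
lemma conn_mono (ρ : RF α) {P Q P' Q' : Set α} (hP : P ⊆ P') (hQ : Q ⊆ Q') :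
    ρ.r P + ρ.r Q + ρ.r (P' ∪ Q') ≤ ρ.r P' + ρ.r Q' + ρ.r (P ∪ Q) := by
  have h1 := ρ.submod (X := P') (Y := P ∪ Q) (U := P' ∪ Q) (I := P)
    (by intro x; simp only [Set.mem_union]; tauto) hP Set.subset_union_left
  have h2 := ρ.submod (X := Q') (Y := P' ∪ Q) (U := P' ∪ Q') (I := Q)
    (by intro x; simp only [Set.mem_union]; tauto) hQ Set.subset_union_right
  omega

/-- connectivity of a separation goes down in minors -/
lemma minor_conn (ρ : RF α) (A C X : Set α) :
    (ρ.con C).r (X ∩ A) + (ρ.con C).r (X \ A) + ρ.r Set.univ ≤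
      (ρ.con C).r X + ρ.r A + ρ.r Aᶜ := by
  have h1 := (ρ.con C).conn_mono (P := X ∩ A) (Q := X \ A) (P' := A) (Q' := Aᶜ)
    Set.inter_subset_right (fun x hx => hx.2)
  have e1 : (X ∩ A) ∪ (X \ A) = X := Set.inter_union_sdiff X A
  rw [e1, Set.union_compl_self] at h1
  have h2 := ρ.con_add C A
  have h3 := ρ.con_add C Aᶜ
  have h4 := ρ.con_add C Set.univ
  rw [Set.univ_union] at h4
  have h5 := ρ.sub' A C
  have h6 := ρ.sub' Aᶜ C
  have h7 := ρ.union_le (A ∩ C) (Aᶜ ∩ C)
  have e2 : (A ∩ C) ∪ (Aᶜ ∩ C) = C := by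
    ext x; simp only [Set.mem_union, Set.mem_inter_iff, Set.mem_compl_iff]; tauto
  rw [e2] at h7
  omega

/-- The matroid contains `U_{k,2k}` as a minor: after contracting `C` the `2k` elements
`x 0, …, x (2k-1)` have rank function `min(|J|, k)`. -/
def HasU (ρ : RF α) (k : ℕ) : Prop :=
  ∃ (C : Set α) (x : Fin (2 * k) → α),
    ∀ J : Finset (Fin (2 * k)), (ρ.con C).r (x '' (J : Set (Fin (2 * k)))) = min J.card k

lemma HasU.of_con {ρ : RF α} {k : ℕ} {D : Set α} (h : (ρ.con D).HasU k) : ρ.HasU k := by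
  obtain ⟨C, x, hx⟩ := h
  refine ⟨D ∪ C, x, ?_⟩
  intro J
  rw [← con_con]
  exact hx J

end RF

end H19PG
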