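import Pool.Agent.H19PG.Core
import Pool.Agent.H19PG.Link
import Pool.Agent.H19PG.Block

/-!
# Small sets (helper file)
-/

set_option linter.unusedSectionVars false

open Module Submodule

namespace H19PG

variable {α : Type*} [Finite α]

/-- `A` does not contain a spanning subset of `R` -/
def Small (ν : RF α) (R A : Set α) : Prop := ν.r (R ∩ A) < ν.r R

lemma Small.mono {ν : RF α} {R A B : Set α} (h : Small ν R A) (hB : B ⊆ A) : Small ν R B :=
  lt_of_le_of_lt (ν.mono (Set.inter_subset_inter_right _ hB)) h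

lemma con_eq_of_subset_cl (ρ : RF α) {A C : Set α} (h : C ⊆ ρ.cl A) : ρ.con (A ∪ C) = ρ.con A := by
  ext X
  have h1 := ρ.con_add (A ∪ C) X
  have h2 := ρ.con_add A X
  have h3 := ρ.r_union_of_subset_cl h
  have h4 := ρ.r_union_of_subset_cl (X := X ∪ A) (Y := C) (h.trans (ρ.cl_mono Set.subset_union_right))
  rw [Set.union_assoc] at h4
  omega

/-- Uncrossing: the largest small set of connectivity `d`. -/
lemma exists_largest (τ : RF α) (S : Set α → Prop) (hmono : ∀ A B, S A → B ⊆ A → S B)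
    (d : ℕ) (X : Set α)
    (hunion : ∀ A B, S A → S B → τ.r A + τ.r Aᶜ ≤ d + τ.r Set.univ →
      τ.r B + τ.r Bᶜ ≤ d + τ.r Set.univ → S (A ∪ B))
    (hfree : ∀ A, S A → X ⊆ A → d + τ.r Set.univ ≤ τ.r A + τ.r Aᶜ)
    (A₀ : Set α) (h0 : S A₀) (h1 : X ⊆ A₀) (h2 : τ.r A₀ + τ.r A₀ᶜ ≤ d + τ.r Set.univ) :
    ∃ A, S A ∧ X ⊆ A ∧ τ.r A + τ.r Aᶜ ≤ d + τ.r Set.univ ∧
      ∀ B, S B → X ⊆ B → τ.r B + τ.r Bᶜ ≤ d + τ.r Set.univ → B ⊆ A := by
  classical
  let P : Set (Set α) := {A | S A ∧ X ⊆ A ∧ τ.r A + τ.r Aᶜ ≤ d + τ.r Set.univ}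
  have hfin : P.Finite := Set.toFinite P
  obtain ⟨A, hA, hmax⟩ := Set.exists_max_image P (fun A => A.ncard) hfin ⟨A₀, h0, h1, h2⟩
  refine ⟨A, hA.1, hA.2.1, hA.2.2, ?_⟩
  intro B hB1 hB2 hB3
  have hint := hfree (A ∩ B) (hmono A _ hA.1 Set.inter_subset_left)
    (Set.subset_inter hA.2.1 hB2)
  have u1 := τ.sub' A B
  have u2 := τ.sub' Aᶜ Bᶜ
  rw [← Set.compl_inter, ← Set.compl_union] at u2
  have hmem : A ∪ B ∈ P := by
    refine ⟨hunion A B hA.1 hB1 hA.2.2 hB3, hA.2.1.trans Set.subset_union_left, ?_⟩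
    have := hA.2.2
    omega
  have hcard := hmax _ hmem
  have heq : A = A ∪ B :=
    Set.eq_of_subset_of_ncard_le Set.subset_union_left hcard (Set.toFinite _)
  rw [heq]; exact Set.subset_union_right

variable {K : Type*} [Field K] {V : Type*} [AddCommGroup V] [Module K V] [FiniteDimensional K V]

/-- A subspace of dimension at most `f` whose image is `f`-free. -/
lemma exists_free (τ : RF α) {φ : V → α} (S : Set α → Prop)
    (hmono : ∀ A B, S A → B ⊆ A → S B) (f : ℕ)
    (hunion : ∀ A B, S A → S B → τ.r A + τ.r Aᶜ ≤ f + τ.r Set.univ →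
      τ.r B + τ.r Bᶜ ≤ f + τ.r Set.univ → S (A ∪ B))
    (hfree : ∀ A, S A → Set.range φ ⊆ A → f + τ.r Set.univ ≤ τ.r A + τ.r Aᶜ) :
    ∃ D : Submodule K V, finrank K D ≤ f ∧
      ∀ A, S A → φ '' D ⊆ A → f + τ.r Set.univ ≤ τ.r A + τ.r Aᶜ := by
  have aux : ∀ d ≤ f, ∃ D : Submodule K V, finrank K D ≤ d ∧
      ∀ A, S A → φ '' D ⊆ A → d + τ.r Set.univ ≤ τ.r A + τ.r Aᶜ := by
    intro d
    induction d with
    | zero =>
      intro _
      refine ⟨⊥, by simp, ?_⟩
      intro A _ _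
      have := τ.union_le A Aᶜ
      rw [Set.union_compl_self] at this
      omega
    | succ d ih =>
      intro hd
      obtain ⟨D, hD1, hD2⟩ := ih (by omega)
      by_contra hcon
      push Not at hcon
      have hv : ∀ v : V, ∃ A, S A ∧ φ '' (D ⊔ span K {v} : Submodule K V) ⊆ A ∧
          τ.r A + τ.r Aᶜ < d + 1 + τ.r Set.univ := by
        intro v
        apply hcon
        have h1 := Submodule.finrank_add_le_finrank_add_finrank D (span K {v})
        have h2 : finrank K (span K {v}) ≤ 1 := by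
          have := finrank_span_le_card (R := K) ({v} : Set V)
          simpa using this
        omega
      choose B hB1 hB2 hB3 using hv
      have hDB : ∀ v, φ '' D ⊆ B v := fun v =>
        (Set.image_mono (by exact_mod_cast (le_sup_left : D ≤ D ⊔ span K {v}))).trans (hB2 v)
      obtain ⟨A, hA1, hA2, hA3, hA4⟩ := exists_largest τ S hmono d (φ '' D)
        (fun A B h1 h2 h3 h4 => hunion A B h1 h2 (by omega) (by omega)) hD2
        (B 0) (hB1 0) (hDB 0) (by have := hB3 0; omega)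
      have hall : Set.range φ ⊆ A := by
        rintro _ ⟨v, rfl⟩
        apply hA4 (B v) (hB1 v) (hDB v) (by have := hB3 v; omega)
        apply hB2 v
        exact ⟨v, (le_sup_right : span K {v} ≤ D ⊔ span K {v}) (mem_span_singleton_self v), rfl⟩
      have := hfree A hA1 hall
      omega
  exact aux f le_rfl

end H19PG
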